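import Mathlib

set_option autoImplicit false

namespace Pool.Agent.Lib.MP699d82

open PowerSeries Filter Topology

/-- the algebra of absolutely summable real power series -/
noncomputable def W : Subalgebra ℝ ℝ⟦X⟧ where
  carrier := {f | Summable fun n => ‖coeff n f‖}
  mul_mem' := by
    intro f g hf hg
    have h := summable_norm_sum_mul_antidiagonal_of_summable_norm hf hg
    simpa [coeff_mul] using h
  add_mem' := by
    intro f g hf hg
    refine Summable.of_nonneg_of_le (fun n => norm_nonneg _) (fun n => ?_) (hf.add hg)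
    rw [map_add]
    exact norm_add_le _ _
  algebraMap_mem' := by
    intro r
    refine summable_of_ne_finset_zero (s := {0}) (fun n hn => ?_)
    rw [Finset.mem_singleton] at hn
    rw [PowerSeries.algebraMap_apply, Algebra.algebraMap_self, RingHom.id_apply, coeff_C, if_neg hn,
      norm_zero]

lemma mem_W {f : ℝ⟦X⟧} : f ∈ W ↔ Summable fun n => ‖coeff n f‖ := Iff.rfl

lemma summ (f : W) : Summable fun n => ‖coeff n (f : ℝ⟦X⟧)‖ := f.2

noncomputable instance : Norm W := ⟨fun f => ∑' n, ‖coeff n (f : ℝ⟦X⟧)‖⟩

lemma norm_def (f : W) : ‖f‖ = ∑' n, ‖coeff n (f : ℝ⟦X⟧)‖ := rfl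

lemma W_core : NormedSpace.Core ℝ W where
  norm_nonneg f := tsum_nonneg fun _ => norm_nonneg _
  norm_smul c f := by
    rw [norm_def, norm_def, ← tsum_mul_left]
    refine tsum_congr fun n => ?_
    rw [Subalgebra.coe_smul, ← norm_smul]
    rfl
  norm_triangle f g := by
    rw [norm_def, norm_def, norm_def, ← Summable.tsum_add f.2 g.2]
    refine Summable.tsum_le_tsum (fun n => ?_) (f + g).2 (Summable.add f.2 g.2)
    rw [Subalgebra.coe_add, map_add]
    exact norm_add_le _ _
  norm_eq_zero_iff f := by
    constructor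
    · intro h
      have h1 := (Summable.hasSum_iff f.2).2 h
      have h2 := (hasSum_zero_iff_of_nonneg (fun n => norm_nonneg (coeff n (f : ℝ⟦X⟧)))).1 h1
      ext n
      have h3 := congrFun h2 n
      simpa using h3
    · rintro rfl
      rw [norm_def]
      simp

noncomputable instance : NormedAddCommGroup W := NormedAddCommGroup.ofCore W_core

noncomputable instance : NormedSpace ℝ W := NormedSpace.ofCore W_core

lemma norm_mul_le' (f g : W) : ‖f * g‖ ≤ ‖f‖ * ‖g‖ := by
  rw [norm_def, norm_def, norm_def,
    tsum_mul_tsum_eq_tsum_sum_antidiagonal_of_summable_norm (summ f).norm (summ g).norm]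
  refine Summable.tsum_le_tsum (fun n => ?_) (f * g).2 ?_
  · rw [Subalgebra.coe_mul, coeff_mul]
    refine (norm_sum_le _ _).trans (le_of_eq (Finset.sum_congr rfl fun p _ => norm_mul _ _))
  · exact (summable_norm_sum_mul_antidiagonal_of_summable_norm (summ f).norm (summ g).norm).congr
      (fun n => by
        rw [Real.norm_of_nonneg]
        exact Finset.sum_nonneg fun p _ => by positivity)

noncomputable instance : NormedCommRing W :=
  { (inferInstance : CommRing W), (inferInstance : NormedAddCommGroup W) with
    norm_mul_le := norm_mul_le' }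

noncomputable instance : NormedAlgebra ℝ W :=
  { (inferInstance : Algebra ℝ W), (inferInstance : NormedSpace ℝ W) with
    norm_smul_le := fun r f => norm_smul_le r f }

example : IsTopologicalRing W := inferInstance

/-- the isometry onto the sequence space -/
noncomputable def toLp : W →ₗᵢ[ℝ] lp (fun _ : ℕ => ℝ) 1 where
  toFun f := ⟨fun n => coeff n (f : ℝ⟦X⟧), by
    refine memℓp_gen ?_
    simpa using summ f⟩
  map_add' f g := by
    ext n
    exact map_add (coeff n) (f : ℝ⟦X⟧) g
  map_smul' c f := by
    ext n
    simp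
  norm_map' f := by
    rw [lp.norm_eq_tsum_rpow (by norm_num)]
    simp [norm_def]

lemma toLp_surjective : Function.Surjective toLp := by
  intro a
  refine ⟨⟨PowerSeries.mk fun n => a n, ?_⟩, ?_⟩
  · rw [mem_W]
    have h := (lp.memℓp a).summable (by norm_num)
    simpa using h
  · ext n
    simp [toLp]

noncomputable instance : CompleteSpace W := by
  let e := LinearIsometryEquiv.ofSurjective toLp toLp_surjective
  exact (completeSpace_congr (e := e.toEquiv) e.isometry.isUniformEmbedding).2 inferInstance


lemma norm_coeff_le (f : W) (n : ℕ) : ‖coeff n (f : ℝ⟦X⟧)‖ ≤ ‖f‖ :=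
  (summ f).le_tsum n fun _ _ => norm_nonneg _

/-- polynomials as elements of the algebra -/
noncomputable def pW : Polynomial ℝ →+* W :=
  Polynomial.coeToPowerSeries.ringHom.codRestrict W (by
    intro p
    rw [mem_W]
    refine summable_of_ne_finset_zero (s := p.support) (fun n hn => ?_)
    rw [Polynomial.coeToPowerSeries.ringHom_apply, Polynomial.coeff_coe,
      Polynomial.notMem_support_iff.1 hn, norm_zero])

@[simp] lemma coe_pW (p : Polynomial ℝ) : ((pW p : W) : ℝ⟦X⟧) = (p : ℝ⟦X⟧) := rfl

lemma pW_C (a : ℝ) : pW (Polynomial.C a) = algebraMap ℝ W a := by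
  ext n
  simp

/-- truncations converge -/
lemma tendsto_trunc (f : W) :
    Tendsto (fun N => pW (trunc N (f : ℝ⟦X⟧))) atTop (𝓝 f) := by
  rw [tendsto_iff_norm_sub_tendsto_zero]
  have h := tendsto_sum_nat_add (fun n => ‖coeff n (f : ℝ⟦X⟧)‖)
  refine h.congr fun N => ?_
  rw [norm_def, ← Summable.sum_add_tsum_nat_add N (summ _)]
  rw [Finset.sum_eq_zero, zero_add]
  · refine tsum_congr fun n => ?_
    rw [Subalgebra.coe_sub, map_sub, coe_pW, Polynomial.coeff_coe, coeff_trunc, if_neg (by omega),
      zero_sub, norm_neg]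
  · intro n hn
    rw [Finset.mem_range] at hn
    rw [Subalgebra.coe_sub, map_sub, coe_pW, Polynomial.coeff_coe, coeff_trunc, if_pos hn, sub_self,
      norm_zero]

end Pool.Agent.Lib.MP699d82
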