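import Mathlib
import Pool.Agent.Lib.MP_699d82_al.Wiener

set_option autoImplicit false

namespace Pool.Agent.Lib.MP699d82

open PowerSeries Filter Topology

lemma summ_mul_pow (f : W) {x : ℝ} (hx : |x| ≤ 1) :
    Summable fun n => ‖coeff n (f : ℝ⟦X⟧) * x ^ n‖ := by
  refine Summable.of_nonneg_of_le (fun n => norm_nonneg _) (fun n => ?_) (summ f)
  rw [norm_mul, norm_pow, Real.norm_eq_abs x]
  exact mul_le_of_le_one_right (norm_nonneg _) (pow_le_one₀ (abs_nonneg x) hx)

/-- evaluation at a point of the closed unit disc -/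
noncomputable def ev (x : ℝ) (f : W) : ℝ := ∑' n, coeff n (f : ℝ⟦X⟧) * x ^ n

lemma ev_add {x : ℝ} (hx : |x| ≤ 1) (f g : W) : ev x (f + g) = ev x f + ev x g := by
  unfold ev
  rw [← Summable.tsum_add (summ_mul_pow f hx).of_norm (summ_mul_pow g hx).of_norm]
  refine tsum_congr fun n => ?_
  rw [Subalgebra.coe_add, map_add, add_mul]

lemma ev_smul (x c : ℝ) (f : W) : ev x (c • f) = c * ev x f := by
  unfold ev
  rw [← tsum_mul_left]
  refine tsum_congr fun n => ?_
  rw [Subalgebra.coe_smul, map_smul, smul_eq_mul, mul_assoc]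

lemma ev_mul {x : ℝ} (hx : |x| ≤ 1) (f g : W) : ev x (f * g) = ev x f * ev x g := by
  unfold ev
  rw [tsum_mul_tsum_eq_tsum_sum_antidiagonal_of_summable_norm (summ_mul_pow f hx)
    (summ_mul_pow g hx)]
  refine tsum_congr fun n => ?_
  rw [Subalgebra.coe_mul, coeff_mul, Finset.sum_mul]
  refine Finset.sum_congr rfl fun p hp => ?_
  rw [← Finset.HasAntidiagonal.mem_antidiagonal.1 hp, pow_add]
  ring

lemma ev_one (x : ℝ) : ev x 1 = 1 := by
  unfold ev
  rw [tsum_eq_single 0]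
  · simp
  · intro n hn
    simp [coeff_one, hn]

/-- the variable -/
noncomputable def XW : W := pW Polynomial.X

@[simp] lemma coe_XW : (XW : ℝ⟦X⟧) = X := by simp [XW]

lemma ev_XW (x : ℝ) : ev x XW = x := by
  unfold ev
  rw [tsum_eq_single 1]
  · simp
  · intro n hn
    simp [coeff_X, hn]

lemma ev_zero (x : ℝ) : ev x 0 = 0 := by
  simp [ev]

/-- division by a linear factor -/
lemma exists_div {l : ℝ} (hl : 1 < l) (g : W) (hg : ev l⁻¹ g = 0) :
    ∃ v : W, v - l • (XW * v) = g := by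
  set θ : ℝ := l⁻¹ with hθ
  have hθ0 : 0 < θ := by positivity
  have hθ1 : θ < 1 := inv_lt_one_of_one_lt₀ hl
  have hlθ : l * θ = 1 := mul_inv_cancel₀ (by positivity)
  have hsum : ∀ j : ℕ, Summable fun m => coeff (j + m) (g : ℝ⟦X⟧) * θ ^ m := by
    intro j
    have h1 : Summable fun m => ‖coeff (m + j) (g : ℝ⟦X⟧)‖ :=
      (summable_nat_add_iff j).2 (summ g)
    refine Summable.of_norm_bounded h1 fun m => ?_
    rw [norm_mul, norm_pow, Real.norm_of_nonneg hθ0.le, add_comm j m]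
    exact mul_le_of_le_one_right (norm_nonneg _) (pow_le_one₀ hθ0.le hθ1.le)
  have hsumn : ∀ j : ℕ, Summable fun m => ‖coeff (j + m) (g : ℝ⟦X⟧)‖ * θ ^ m := by
    intro j
    have h1 : Summable fun m => ‖coeff (m + j) (g : ℝ⟦X⟧)‖ :=
      (summable_nat_add_iff j).2 (summ g)
    refine Summable.of_nonneg_of_le (fun m => by positivity) (fun m => ?_) h1
    rw [add_comm j m]
    exact mul_le_of_le_one_right (norm_nonneg _) (pow_le_one₀ hθ0.le hθ1.le)
  set a : ℕ → ℝ := fun j => ∑' m, coeff (j + m) (g : ℝ⟦X⟧) * θ ^ m with ha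
  have ha0 : a 0 = 0 := by
    have : a 0 = ev θ g := by
      simp only [ha, ev, zero_add]
    rw [this, hg]
  have harec : ∀ j, a j = coeff j (g : ℝ⟦X⟧) + θ * a (j + 1) := by
    intro j
    simp only [ha]
    rw [(hsum j).tsum_eq_zero_add, ← tsum_mul_left]
    congr 1
    · simp
    · refine tsum_congr fun m => ?_
      rw [show j + (m + 1) = j + 1 + m by ring, pow_succ]
      ring
  have hasum : Summable fun j => ‖a (j + 1)‖ := by
    refine summable_of_sum_range_le (c := ‖g‖ * (1 - θ)⁻¹) (fun j => norm_nonneg _) fun N => ?_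
    have h1 : ∀ j, ‖a (j + 1)‖ ≤ ∑' m, ‖coeff (j + 1 + m) (g : ℝ⟦X⟧)‖ * θ ^ m := by
      intro j
      refine (norm_tsum_le_tsum_norm ?_).trans (le_of_eq (tsum_congr fun m => ?_))
      · refine (hsumn (j + 1)).congr fun m => ?_
        rw [norm_mul, norm_pow, Real.norm_of_nonneg hθ0.le]
      · rw [norm_mul, norm_pow, Real.norm_of_nonneg hθ0.le]
    refine (Finset.sum_le_sum fun j _ => h1 j).trans ?_
    rw [← Summable.tsum_finsetSum (fun j _ => hsumn (j + 1)), ← tsum_geometric_of_lt_one hθ0.le hθ1,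
      ← tsum_mul_left]
    refine Summable.tsum_le_tsum (fun m => ?_) (summable_sum fun j _ => hsumn (j + 1))
      ((summable_geometric_of_lt_one hθ0.le hθ1).mul_left _)
    rw [← Finset.sum_mul]
    refine mul_le_mul_of_nonneg_right ?_ (by positivity)
    rw [norm_def]
    have h2 : ∑ j ∈ Finset.range N, ‖coeff (j + 1 + m) (g : ℝ⟦X⟧)‖ =
        ∑ i ∈ (Finset.range N).map (addRightEmbedding (1 + m)), ‖coeff i (g : ℝ⟦X⟧)‖ := by
      rw [Finset.sum_map]
      refine Finset.sum_congr rfl fun j _ => ?_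
      simp [add_assoc]
    rw [h2]
    exact (summ g).sum_le_tsum _ fun _ _ => norm_nonneg _
  refine ⟨⟨PowerSeries.mk fun j => -(θ * a (j + 1)), ?_⟩, ?_⟩
  · rw [mem_W]
    refine (hasum.mul_left θ).congr fun j => ?_
    rw [coeff_mk, norm_neg, norm_mul, Real.norm_of_nonneg hθ0.le]
  · ext n
    rw [Subalgebra.coe_sub, Subalgebra.coe_smul, Subalgebra.coe_mul, map_sub, map_smul, coe_XW,
      coeff_mk, smul_eq_mul]
    rcases n with _ | n
    · have h1 := harec 0
      rw [ha0] at h1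
      simp only [coeff_zero_X_mul, mul_zero, sub_zero, zero_add] at h1 ⊢
      linarith
    · rw [coeff_succ_X_mul, coeff_mk]
      have h1 := harec (n + 1)
      calc -(θ * a (n + 1 + 1)) - l * -(θ * a (n + 1))
          = -(θ * a (n + 1 + 1)) + (l * θ) * a (n + 1) := by ring
        _ = _ := by rw [hlθ, h1]; ring


/-- multiplication by the variable as a continuous linear map -/
noncomputable def mulX : W →L[ℝ] W := ContinuousLinearMap.mul ℝ W XW

lemma mulX_apply (f : W) : mulX f = XW * f := rfl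

/-- the derivative of `(l, u) ↦ (1 - l X) u` -/
noncomputable def dPhi (l : ℝ) (u : W) : ℝ × W →L[ℝ] W :=
  ContinuousLinearMap.snd ℝ ℝ W - (l • (mulX.comp (ContinuousLinearMap.snd ℝ ℝ W)) +
    (ContinuousLinearMap.fst ℝ ℝ W).smulRight (XW * u))

lemma dPhi_apply (l : ℝ) (u : W) (p : ℝ × W) :
    dPhi l u p = p.2 - (l • (XW * p.2) + p.1 • (XW * u)) := rfl

lemma hasStrict (l : ℝ) (u : W) :
    HasStrictFDerivAt (fun p : ℝ × W => p.2 - p.1 • (XW * p.2)) (dPhi l u) (l, u) := by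
  have h1 : HasStrictFDerivAt (fun p : ℝ × W => p.2) (ContinuousLinearMap.snd ℝ ℝ W) (l, u) :=
    hasStrictFDerivAt_snd
  have h2 : HasStrictFDerivAt (fun p : ℝ × W => p.1) (ContinuousLinearMap.fst ℝ ℝ W) (l, u) :=
    hasStrictFDerivAt_fst
  have h3 : HasStrictFDerivAt (fun p : ℝ × W => XW * p.2)
      (mulX.comp (ContinuousLinearMap.snd ℝ ℝ W)) (l, u) :=
    (mulX.comp (ContinuousLinearMap.snd ℝ ℝ W)).hasStrictFDerivAt
  exact h1.sub (h2.smul h3)

lemma dPhi_injective {l : ℝ} (hl : 1 < l) {u : W} (hu : ev l⁻¹ u ≠ 0) :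
    Function.Injective (dPhi l u) := by
  rw [injective_iff_map_eq_zero]
  rintro ⟨a, v⟩ h
  rw [dPhi_apply] at h
  simp only at h
  have hθ : |l⁻¹| ≤ 1 := by
    rw [abs_of_pos (by positivity)]
    exact (inv_lt_one_of_one_lt₀ hl).le
  have h1 : v = l • (XW * v) + a • (XW * u) := sub_eq_zero.1 h
  have h2 := congrArg (ev l⁻¹) h1
  rw [ev_add hθ, ev_smul, ev_smul, ev_mul hθ, ev_mul hθ, ev_XW] at h2
  have hl0 : l ≠ 0 := by positivity
  have h3 : a * (l⁻¹ * ev l⁻¹ u) = 0 := by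
    have : l * (l⁻¹ * ev l⁻¹ v) = ev l⁻¹ v := by field_simp
    linarith
  have ha : a = 0 := by
    rcases mul_eq_zero.1 h3 with h4 | h4
    · exact h4
    · rcases mul_eq_zero.1 h4 with h5 | h5
      · exact absurd h5 (inv_ne_zero hl0)
      · exact absurd h5 hu
  subst ha
  rw [zero_smul, add_zero] at h1
  have h6 : (1 - C l * X : ℝ⟦X⟧) * (v : ℝ⟦X⟧) = 0 := by
    have h7 := congrArg (fun w : W => (w : ℝ⟦X⟧)) h1
    simp only [Subalgebra.coe_smul, Subalgebra.coe_mul, coe_XW] at h7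
    rw [sub_mul, one_mul, mul_assoc, ← smul_eq_C_mul, ← h7, sub_self]
  rcases mul_eq_zero.1 h6 with h7 | h7
  · have := congrArg (coeff 0) h7
    simp at this
  · have : v = 0 := Subtype.ext h7
    rw [this]
    rfl

lemma dPhi_surjective {l : ℝ} (hl : 1 < l) {u : W} (hu : ev l⁻¹ u ≠ 0) :
    Function.Surjective (dPhi l u) := by
  intro f
  have hθ : |l⁻¹| ≤ 1 := by
    rw [abs_of_pos (by positivity)]
    exact (inv_lt_one_of_one_lt₀ hl).le
  have hl0 : l ≠ 0 := by positivity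
  set a : ℝ := -(ev l⁻¹ f) / (l⁻¹ * ev l⁻¹ u) with ha
  obtain ⟨v, hv⟩ := exists_div hl (f + a • (XW * u)) (by
    rw [ev_add hθ, ev_smul, ev_mul hθ, ev_XW, ha,
      div_mul_cancel₀ _ (mul_ne_zero (inv_ne_zero hl0) hu), add_neg_cancel])
  refine ⟨(a, v), ?_⟩
  rw [dPhi_apply]
  simp only
  rw [← sub_sub, hv, add_sub_cancel_right]

/-- factorization of elements near `(1 - l X) u` -/
theorem exists_factor {l : ℝ} (hl : 1 < l) {u : W} (hu : IsUnit u) :
    ∃ g : W → ℝ × W, Tendsto g (𝓝 (u - l • (XW * u))) (𝓝 (l, u)) ∧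
      ∀ᶠ f in 𝓝 (u - l • (XW * u)), (g f).2 - (g f).1 • (XW * (g f).2) = f := by
  have hθ : |l⁻¹| ≤ 1 := by
    rw [abs_of_pos (by positivity)]
    exact (inv_lt_one_of_one_lt₀ hl).le
  have hu' : ev l⁻¹ u ≠ 0 := by
    obtain ⟨w, rfl⟩ := hu
    intro h
    have h1 := ev_mul hθ (w : W) (↑w⁻¹ : W)
    rw [Units.mul_inv, ev_one, h, zero_mul] at h1
    exact one_ne_zero h1
  set e : (ℝ × W) ≃L[ℝ] W := ContinuousLinearEquiv.ofBijective (dPhi l u)
    (LinearMap.ker_eq_bot.2 (dPhi_injective hl hu'))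
    (LinearMap.range_eq_top.2 (dPhi_surjective hl hu')) with he
  have hs : HasStrictFDerivAt (fun p : ℝ × W => p.2 - p.1 • (XW * p.2))
      (e : ℝ × W →L[ℝ] W) (l, u) := by
    rw [he, ContinuousLinearEquiv.coe_ofBijective]
    exact hasStrict l u
  refine ⟨hs.localInverse _ _ _, hs.localInverse_tendsto, hs.eventually_right_inverse⟩

end Pool.Agent.Lib.MP699d82
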