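import Mathlib
import Pool.Agent.Lib.MP_699d82_al.Root

set_option autoImplicit false
set_option linter.unusedSectionVars false

namespace Pool.Agent.Lib.MP699d82

open PowerSeries Filter Topology

variable {ι : Type*} [Fintype ι] [DecidableEq ι]

/-- the power series matrix of a matrix over `W` -/
noncomputable def cM (F : Matrix ι ι W) : Matrix ι ι ℝ⟦X⟧ := F.map W.val

/-- entrywise derivative -/
noncomputable def dM (F : Matrix ι ι ℝ⟦X⟧) : Matrix ι ι ℝ⟦X⟧ := F.map (derivative ℝ)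

/-- `Y = - F⁻¹ F'` -/
def IsGen (F Y : Matrix ι ι ℝ⟦X⟧) : Prop := F * Y = - dM F

noncomputable def q (k : ℕ) (g f : W) : ℝ := coeff k ((g : ℝ⟦X⟧) * derivative ℝ (f : ℝ⟦X⟧))

lemma q_bound (k : ℕ) (g f : W) : |q k g f| ≤ (k + 1) * (‖g‖ * ‖f‖) := by
  unfold q
  rw [coeff_mul]
  refine (Finset.abs_sum_le_sum_abs _ _).trans ?_
  have h1 : ∀ p ∈ Finset.HasAntidiagonal.antidiagonal k,
      |coeff p.1 (g : ℝ⟦X⟧) * coeff p.2 (derivative ℝ (f : ℝ⟦X⟧))| ≤
        ‖coeff p.1 (g : ℝ⟦X⟧)‖ * ((k + 1) * ‖f‖) := by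
    intro p hp
    rw [abs_mul, coeff_derivative, abs_mul, ← Real.norm_eq_abs, ← Real.norm_eq_abs]
    refine mul_le_mul_of_nonneg_left ?_ (norm_nonneg _)
    have h2 := norm_coeff_le f (p.2 + 1)
    have h3 : |((p.2 : ℝ) + 1)| ≤ k + 1 := by
      rw [abs_of_nonneg (by positivity)]
      have : p.2 ≤ k := Finset.HasAntidiagonal.mem_antidiagonal.1 hp ▸ Nat.le_add_left _ _
      exact_mod_cast Nat.succ_le_succ this
    rw [mul_comm]
    exact mul_le_mul h3 h2 (norm_nonneg _) (by positivity)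
  refine (Finset.sum_le_sum h1).trans ?_
  rw [← Finset.sum_mul]
  have h4 : ∑ p ∈ Finset.HasAntidiagonal.antidiagonal k, ‖coeff p.1 (g : ℝ⟦X⟧)‖ ≤ ‖g‖ := by
    rw [Finset.Nat.sum_antidiagonal_eq_sum_range_succ_mk]
    exact (summ g).sum_le_tsum _ fun _ _ => norm_nonneg _
  calc (∑ p ∈ Finset.HasAntidiagonal.antidiagonal k, ‖coeff p.1 (g : ℝ⟦X⟧)‖) * ((k + 1) * ‖f‖)
      ≤ ‖g‖ * ((k + 1) * ‖f‖) := mul_le_mul_of_nonneg_right h4 (by positivity)
    _ = _ := by ring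

lemma q_sub (k : ℕ) (g f g' f' : W) : q k g f - q k g' f' = q k (g - g') f + q k g' (f - f') := by
  unfold q
  rw [Subalgebra.coe_sub, Subalgebra.coe_sub, map_sub, sub_mul, mul_sub, map_sub, map_sub]
  ring

lemma coeff_cM_dM (k : ℕ) (G F : Matrix ι ι W) (i j : ι) :
    coeff k ((cM G * dM (cM F)) i j) = ∑ c, q k (G i c) (F c j) := by
  rw [Matrix.mul_apply, map_sum]
  rfl

/-- the weight estimate -/
lemma term_bound (G F G' F' : Matrix ι ι W) (i j : ι) (k : ℕ) {x y r : ℝ} (hx : 0 ≤ x) (hy : 0 ≤ y)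
    (hxr : x ≤ r) (hyr : y ≤ r) :
    |x ^ k * (∑ c, q k (G i c) (F c j)) - y ^ k * (∑ c, q k (G' i c) (F' c j))| ≤
      (∑ c, (‖G i c - G' i c‖ * ‖F c j‖ + ‖G' i c‖ * ‖F c j - F' c j‖)) * ((k + 1) * r ^ k) +
      (∑ c, ‖G' i c‖ * ‖F' c j‖) * |x - y| * ((k + 1) * (k * r ^ (k - 1))) := by
  have h1 : x ^ k * (∑ c, q k (G i c) (F c j)) - y ^ k * (∑ c, q k (G' i c) (F' c j)) =
      x ^ k * (∑ c, (q k (G i c) (F c j) - q k (G' i c) (F' c j))) +
      (x ^ k - y ^ k) * (∑ c, q k (G' i c) (F' c j)) := by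
    rw [Finset.sum_sub_distrib]; ring
  rw [h1]
  refine (abs_add_le _ _).trans (add_le_add ?_ ?_)
  · rw [abs_mul, abs_of_nonneg (pow_nonneg hx k)]
    have h2 : |∑ c, (q k (G i c) (F c j) - q k (G' i c) (F' c j))| ≤
        (∑ c, (‖G i c - G' i c‖ * ‖F c j‖ + ‖G' i c‖ * ‖F c j - F' c j‖)) * (k + 1) := by
      refine (Finset.abs_sum_le_sum_abs _ _).trans ?_
      rw [Finset.sum_mul]
      refine Finset.sum_le_sum fun c _ => ?_
      rw [q_sub]
      refine (abs_add_le _ _).trans ?_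
      have h3 := q_bound k (G i c - G' i c) (F c j)
      have h4 := q_bound k (G' i c) (F c j - F' c j)
      linarith
    calc x ^ k * |∑ c, (q k (G i c) (F c j) - q k (G' i c) (F' c j))|
        ≤ r ^ k * ((∑ c, (‖G i c - G' i c‖ * ‖F c j‖ + ‖G' i c‖ * ‖F c j - F' c j‖)) * (k + 1)) := by
          refine mul_le_mul (pow_le_pow_left₀ hx hxr k) h2 (abs_nonneg _)
            (pow_nonneg (hx.trans hxr) _)
      _ = _ := by ring
  · rw [abs_mul]
    have h2 : |∑ c, q k (G' i c) (F' c j)| ≤ (∑ c, ‖G' i c‖ * ‖F' c j‖) * (k + 1) := by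
      refine (Finset.abs_sum_le_sum_abs _ _).trans ?_
      rw [Finset.sum_mul]
      refine Finset.sum_le_sum fun c _ => ?_
      have h4 := q_bound k (G' i c) (F' c j)
      linarith
    have h3 : |x ^ k - y ^ k| ≤ |x - y| * (k * r ^ (k - 1)) := by
      refine (abs_pow_sub_pow_le x y k).trans ?_
      rw [mul_assoc]
      refine mul_le_mul_of_nonneg_left ?_ (abs_nonneg _)
      refine mul_le_mul_of_nonneg_left ?_ (Nat.cast_nonneg _)
      refine pow_le_pow_left₀ (le_max_of_le_left (abs_nonneg _)) ?_ _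
      rw [abs_of_nonneg hx, abs_of_nonneg hy]
      exact max_le hxr hyr
    have hr : 0 ≤ r := hx.trans hxr
    calc |x ^ k - y ^ k| * |∑ c, q k (G' i c) (F' c j)|
        ≤ (|x - y| * (k * r ^ (k - 1))) * ((∑ c, ‖G' i c‖ * ‖F' c j‖) * (k + 1)) :=
          mul_le_mul h3 h2 (abs_nonneg _) (by positivity)
      _ = _ := by ring

lemma summable_w1 {r : ℝ} (hr0 : 0 ≤ r) (hr : r < 1) :
    Summable fun k : ℕ => ((k : ℝ) + 1) * r ^ k := by
  have h1 := summable_pow_mul_geometric_of_norm_lt_one 1 (r := r) (by rwa [Real.norm_of_nonneg hr0])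
  have h2 := summable_geometric_of_lt_one hr0 hr
  refine (h1.add h2).congr fun k => ?_
  ring

lemma summable_w2 {r : ℝ} (hr0 : 0 ≤ r) (hr : r < 1) :
    Summable fun k : ℕ => ((k : ℝ) + 1) * ((k : ℝ) * r ^ (k - 1)) := by
  rw [← summable_nat_add_iff 1]
  have h0 := summable_geometric_of_lt_one hr0 hr
  have h1 := summable_pow_mul_geometric_of_norm_lt_one 1 (r := r) (by rwa [Real.norm_of_nonneg hr0])
  have h2 := summable_pow_mul_geometric_of_norm_lt_one 2 (r := r) (by rwa [Real.norm_of_nonneg hr0])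
  refine ((h2.add (h1.mul_left 3)).add (h0.mul_left 2)).congr fun k => ?_
  rw [Nat.add_sub_cancel]
  push_cast
  ring


lemma cM_mul (F G : Matrix ι ι W) : cM (F * G) = cM F * cM G := by
  unfold cM
  exact Matrix.map_mul

/-- the candidate for `(1 - l X) F⁻¹` -/
noncomputable def invM (u : W) (F : Matrix ι ι W) : Matrix ι ι W := Ring.inverse u • F.adjugate

lemma invM_mul {l : ℝ} {u : W} (hu : IsUnit u) {F : Matrix ι ι W}
    (hF : F.det = u - l • (XW * u)) :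
    cM (invM u F) * cM F = (1 - C l * X : ℝ⟦X⟧) • (1 : Matrix ι ι ℝ⟦X⟧) := by
  have h1 : invM u F * F = (1 - l • XW : W) • (1 : Matrix ι ι W) := by
    unfold invM
    rw [Matrix.smul_mul, Matrix.adjugate_mul, smul_smul, hF]
    congr 1
    have h2 : Ring.inverse u * u = 1 := Ring.inverse_mul_cancel u hu
    calc Ring.inverse u * (u - l • (XW * u)) = Ring.inverse u * u - l • (XW * (Ring.inverse u * u)) := by
          rw [mul_sub, mul_smul_comm]
          congr 2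
          ring
      _ = _ := by rw [h2, mul_one]
  rw [← cM_mul, h1]
  ext i j : 2
  simp only [cM, Matrix.map_apply, Matrix.smul_apply, smul_eq_mul, map_mul]
  have h3 : W.val (1 - l • XW) = (1 - C l * X : ℝ⟦X⟧) := by
    rw [map_sub, map_one, map_smul, ← smul_eq_C_mul, show W.val XW = X from coe_XW]
  rw [h3]
  by_cases h : i = j
  · subst h; simp
  · simp [h]

lemma coeff_gen {G F : Matrix ι ι W} {Y : Matrix ι ι ℝ⟦X⟧} {l : ℝ} (hl : l ≠ 0)
    (hGF : cM G * cM F = (1 - C l * X : ℝ⟦X⟧) • (1 : Matrix ι ι ℝ⟦X⟧))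
    (hY : IsGen (cM F) Y) (i j : ι) (m : ℕ) :
    (l⁻¹) ^ m * coeff m (Y i j) =
      - ∑ k ∈ Finset.range (m + 1), (l⁻¹) ^ k * ∑ c, q k (G i c) (F c j) := by
  have h1 : (1 - C l * X : ℝ⟦X⟧) • Y = - (cM G * dM (cM F)) := by
    have h2 : cM G * (cM F * Y) = (1 - C l * X : ℝ⟦X⟧) • Y := by
      rw [← mul_assoc, hGF, Matrix.smul_mul, one_mul]
    rw [← h2, hY, mul_neg]
  have h3 : (1 - C l * X : ℝ⟦X⟧) * Y i j = - (cM G * dM (cM F)) i j := congrFun (congrFun h1 i) j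
  have h4 : ∀ n, coeff n ((1 - C l * X : ℝ⟦X⟧) * Y i j) = - ∑ c, q n (G i c) (F c j) := by
    intro n
    rw [h3, map_neg, coeff_cM_dM]
  induction m with
  | zero =>
    have h5 := h4 0
    rw [sub_mul, one_mul, map_sub, mul_assoc, coeff_C_mul, coeff_zero_X_mul, mul_zero, sub_zero] at h5
    rw [Finset.sum_range_one, pow_zero, one_mul, one_mul, h5]
  | succ m ih =>
    have h5 := h4 (m + 1)
    rw [sub_mul, one_mul, map_sub, mul_assoc, coeff_C_mul, coeff_succ_X_mul] at h5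
    rw [Finset.sum_range_succ, neg_add, ← ih]
    have h6 : coeff (m + 1) (Y i j) = l * coeff m (Y i j) - ∑ c, q (m + 1) (G i c) (F c j) := by
      linarith
    rw [h6, pow_succ]
    field_simp
    ring

/-- the perturbation lemma -/
theorem perturb {l : ℝ} (hl : 1 < l) {u : W} (hu : IsUnit u) (Q : Matrix ι ι W)
    (hQ : Q.det = u - l • (XW * u)) (Y0 : Matrix ι ι ℝ⟦X⟧) (hY0 : IsGen (cM Q) Y0)
    {ε : ℝ} (hε : 0 < ε) :
    ∀ᶠ F in 𝓝 Q, ∃ l' : ℝ, 0 < l' ∧ ∀ Y, IsGen (cM F) Y → ∀ m i j,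
      |(l'⁻¹) ^ m * coeff m (Y i j) - (l⁻¹) ^ m * coeff m (Y0 i j)| < ε := by
  obtain ⟨g, hg, hg'⟩ := exists_factor hl hu
  have hdet : Tendsto (fun F : Matrix ι ι W => F.det) (𝓝 Q) (𝓝 (u - l • (XW * u))) := by
    rw [← hQ]
    exact (continuous_id.matrix_det).continuousAt
  have hgF := hg.comp hdet
  have hgF1 : Tendsto (fun F : Matrix ι ι W => (g F.det).1) (𝓝 Q) (𝓝 l) :=
    (continuous_fst.tendsto (l, u)).comp hgF
  have hgF2 : Tendsto (fun F : Matrix ι ι W => (g F.det).2) (𝓝 Q) (𝓝 u) :=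
    (continuous_snd.tendsto (l, u)).comp hgF
  have hfac := hdet.eventually hg'
  have hinv : Tendsto (fun F : Matrix ι ι W => Ring.inverse (g F.det).2) (𝓝 Q)
      (𝓝 (Ring.inverse u)) := by
    obtain ⟨w, rfl⟩ := hu
    exact (NormedRing.inverse_continuousAt w).tendsto.comp hgF2
  have hunit : ∀ᶠ F : Matrix ι ι W in 𝓝 Q, IsUnit (g F.det).2 :=
    hgF2.eventually (Units.isOpen.mem_nhds hu)
  have hadj : Tendsto (fun F : Matrix ι ι W => F.adjugate) (𝓝 Q) (𝓝 Q.adjugate) :=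
    (continuous_id.matrix_adjugate).continuousAt
  have hG : ∀ i c, Tendsto (fun F : Matrix ι ι W => invM (g F.det).2 F i c) (𝓝 Q)
      (𝓝 (invM u Q i c)) := by
    intro i c
    have h1 : Tendsto (fun F : Matrix ι ι W => F.adjugate i c) (𝓝 Q) (𝓝 (Q.adjugate i c)) :=
      (tendsto_pi_nhds.1 ((tendsto_pi_nhds.1 hadj) i)) c
    exact hinv.mul h1
  have hF : ∀ i c, Tendsto (fun F : Matrix ι ι W => F i c) (𝓝 Q) (𝓝 (Q i c)) := by
    intro i c
    have h0 : Tendsto (fun F : Matrix ι ι W => F) (𝓝 Q) (𝓝 Q) := tendsto_id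
    exact (tendsto_pi_nhds.1 ((tendsto_pi_nhds.1 h0) i)) c
  have hx : Tendsto (fun F : Matrix ι ι W => ((g F.det).1)⁻¹) (𝓝 Q) (𝓝 l⁻¹) :=
    hgF1.inv₀ (by positivity)
  set r : ℝ := (1 + l⁻¹) / 2 with hr
  have hl1 : l⁻¹ < 1 := inv_lt_one_of_one_lt₀ hl
  have hl0 : 0 < l⁻¹ := by positivity
  have hr0 : 0 ≤ r := by rw [hr]; positivity
  have hr1 : r < 1 := by rw [hr]; linarith
  have hlr : l⁻¹ < r := by rw [hr]; linarith
  set A := ∑' k : ℕ, ((k : ℝ) + 1) * r ^ k with hA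
  set B := ∑' k : ℕ, ((k : ℝ) + 1) * ((k : ℝ) * r ^ (k - 1)) with hB
  have hbd : ∀ i j, ∀ᶠ F : Matrix ι ι W in 𝓝 Q,
      (∑ c, (‖invM (g F.det).2 F i c - invM u Q i c‖ * ‖F c j‖ +
        ‖invM u Q i c‖ * ‖F c j - Q c j‖)) * A +
      (∑ c, ‖invM u Q i c‖ * ‖Q c j‖) * |((g F.det).1)⁻¹ - l⁻¹| * B < ε := by
    intro i j
    have h1 : Tendsto (fun F : Matrix ι ι W =>
      (∑ c, (‖invM (g F.det).2 F i c - invM u Q i c‖ * ‖F c j‖ +
        ‖invM u Q i c‖ * ‖F c j - Q c j‖)) * A +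
      (∑ c, ‖invM u Q i c‖ * ‖Q c j‖) * |((g F.det).1)⁻¹ - l⁻¹| * B) (𝓝 Q)
      (𝓝 ((∑ c, (‖invM u Q i c - invM u Q i c‖ * ‖Q c j‖ +
        ‖invM u Q i c‖ * ‖Q c j - Q c j‖)) * A +
      (∑ c, ‖invM u Q i c‖ * ‖Q c j‖) * |l⁻¹ - l⁻¹| * B)) := by
      refine Tendsto.add (Tendsto.mul_const _ ?_) (Tendsto.mul_const _ (Tendsto.const_mul _ ?_))
      · refine tendsto_finsetSum _ fun c _ => ?_
        exact (((hG i c).sub_const _).norm.mul (hF c j).norm).add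
          (((hF c j).sub_const _).norm.const_mul _)
      · exact (hx.sub_const _).abs
    simp only [sub_self, norm_zero, zero_mul, mul_zero, add_zero, Finset.sum_const_zero, abs_zero]
      at h1
    exact h1.eventually (gt_mem_nhds hε)
  have hbd' := eventually_all.2 fun i => eventually_all.2 (hbd i)
  have hpos : ∀ᶠ F : Matrix ι ι W in 𝓝 Q, 0 < ((g F.det).1)⁻¹ :=
    hx.eventually (lt_mem_nhds hl0)
  have hle : ∀ᶠ F : Matrix ι ι W in 𝓝 Q, ((g F.det).1)⁻¹ < r :=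
    hx.eventually (gt_mem_nhds hlr)
  filter_upwards [hfac, hunit, hbd', hpos, hle] with F h1 h2 h3 h4 h5
  refine ⟨(g F.det).1, inv_pos.1 h4, fun Y hY m i j => ?_⟩
  have h6 := coeff_gen (inv_pos.1 h4).ne' (invM_mul h2 h1.symm) hY i j m
  have h7 := coeff_gen (by positivity : l ≠ 0) (invM_mul hu hQ) hY0 i j m
  rw [h6, h7]
  refine lt_of_le_of_lt ?_ (h3 i j)
  rw [neg_sub_neg, ← Finset.sum_sub_distrib]
  refine (Finset.abs_sum_le_sum_abs _ _).trans ?_
  have h8 : ∀ k ∈ Finset.range (m + 1),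
      |l⁻¹ ^ k * ∑ c, q k (invM u Q i c) (Q c j) -
        (g F.det).1⁻¹ ^ k * ∑ c, q k (invM (g F.det).2 F i c) (F c j)| ≤
      (∑ c, (‖invM (g F.det).2 F i c - invM u Q i c‖ * ‖F c j‖ +
        ‖invM u Q i c‖ * ‖F c j - Q c j‖)) * ((k + 1) * r ^ k) +
      (∑ c, ‖invM u Q i c‖ * ‖Q c j‖) * |((g F.det).1)⁻¹ - l⁻¹| *
        ((k + 1) * (k * r ^ (k - 1))) := by
    intro k _
    rw [abs_sub_comm]
    exact term_bound _ _ _ _ i j k h4.le hl0.le h5.le hlr.le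
  refine (Finset.sum_le_sum h8).trans ?_
  rw [Finset.sum_add_distrib, ← Finset.mul_sum, ← Finset.mul_sum]
  refine add_le_add (mul_le_mul_of_nonneg_left ?_ ?_) (mul_le_mul_of_nonneg_left ?_ ?_)
  · exact (summable_w1 hr0 hr1).sum_le_tsum _ fun k _ => by positivity
  · exact Finset.sum_nonneg fun c _ => by positivity
  · exact (summable_w2 hr0 hr1).sum_le_tsum _ fun k _ => by positivity
  · exact mul_nonneg (Finset.sum_nonneg fun c _ => by positivity) (abs_nonneg _)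

end Pool.Agent.Lib.MP699d82
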