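import Mathlib
import Pool.Agent.Lib.MP_699d82_al.Perturb

set_option autoImplicit false

namespace Pool.Agent.Lib.MP699d82

open PowerSeries Filter Topology

open Finset.HasAntidiagonal (antidiagonal)

noncomputable def eCoeff (c : ℕ → ℝ) : ℕ → ℝ
  | 0 => 1
  | (n + 1) => -(1 / ((n : ℝ) + 1)) * ∑ i : Fin (n + 1), c (n - i) * eCoeff c i
decreasing_by exact i.2

/-- the solution of `E' = - c E`, `E(0) = 1` -/
noncomputable def E (c : ℝ⟦X⟧) : ℝ⟦X⟧ := PowerSeries.mk (eCoeff fun n => coeff n c)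

@[simp] lemma coeff_zero_E (c : ℝ⟦X⟧) : coeff 0 (E c) = 1 := by
  rw [E, coeff_mk, eCoeff]

@[simp] lemma constantCoeff_E (c : ℝ⟦X⟧) : constantCoeff (E c) = 1 := by
  rw [← coeff_zero_eq_constantCoeff_apply, coeff_zero_E]

lemma coeff_succ_E (c : ℝ⟦X⟧) (n : ℕ) :
    coeff (n + 1) (E c) =
      -(1 / ((n : ℝ) + 1)) * ∑ p ∈ antidiagonal n, coeff p.1 c * coeff p.2 (E c) := by
  rw [E, coeff_mk, eCoeff]
  congr 1
  rw [Finset.Nat.sum_antidiagonal_eq_sum_range_succ_mk, Finset.sum_range (n := n + 1)]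
  simp only [coeff_mk]
  rw [← Equiv.sum_comp Fin.revPerm]
  refine Finset.sum_congr rfl fun i _ => ?_
  have h1 : ((Fin.revPerm i : Fin (n + 1)) : ℕ) = n - i := by
    rw [Fin.revPerm_apply, Fin.val_rev]; omega
  rw [h1]
  have : n - (n - (i : ℕ)) = i := by omega
  rw [this]

lemma deriv_E (c : ℝ⟦X⟧) : derivative ℝ (E c) = - (c * E c) := by
  ext n
  rw [coeff_derivative, coeff_succ_E, map_neg, coeff_mul]
  field_simp

lemma unique_E {c f g : ℝ⟦X⟧} (hf : derivative ℝ f = - (c * f)) (hg : derivative ℝ g = - (c * g))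
    (h0 : coeff 0 f = coeff 0 g) : f = g := by
  ext n
  induction n using Nat.strong_induction_on with
  | _ n ih =>
    rcases n with _ | n
    · exact h0
    · have h1 := congrArg (coeff n) hf
      have h2 := congrArg (coeff n) hg
      rw [coeff_derivative, map_neg, coeff_mul] at h1 h2
      have h3 : ∑ p ∈ antidiagonal n, coeff p.1 c * coeff p.2 f =
          ∑ p ∈ antidiagonal n, coeff p.1 c * coeff p.2 g := by
        refine Finset.sum_congr rfl fun p hp => ?_
        rw [ih p.2 (by have := Finset.HasAntidiagonal.mem_antidiagonal.1 hp; omega)]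
      rw [h3, ← h2] at h1
      exact mul_right_cancel₀ (by positivity) h1

lemma E_eq {c f : ℝ⟦X⟧} (hf : derivative ℝ f = - (c * f)) (h0 : coeff 0 f = 1) : f = E c :=
  unique_E hf (deriv_E c) (by rw [h0, coeff_zero_E])

@[simp] lemma E_zero : E 0 = 1 := by
  symm
  refine E_eq ?_ (by simp)
  rw [zero_mul, neg_zero]
  exact (derivative ℝ).map_one_eq_zero

lemma E_add (c d : ℝ⟦X⟧) : E (c + d) = E c * E d := by
  symm
  refine E_eq ?_ ?_
  · rw [Derivation.leibniz, deriv_E, deriv_E, smul_eq_mul, smul_eq_mul]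
    ring
  · rw [coeff_zero_eq_constantCoeff_apply, map_mul, constantCoeff_E, constantCoeff_E, one_mul]

lemma E_mul_E_neg (c : ℝ⟦X⟧) : E c * E (-c) = 1 := by
  rw [← E_add, add_neg_cancel, E_zero]

lemma E_sum {κ : Type*} (s : Finset κ) (c : κ → ℝ⟦X⟧) : E (∑ a ∈ s, c a) = ∏ a ∈ s, E (c a) := by
  classical
  induction s using Finset.induction_on with
  | empty => simp
  | insert a s ha ih => rw [Finset.sum_insert ha, Finset.prod_insert ha, E_add, ih]

lemma E_nonneg {c : ℝ⟦X⟧} (hc : ∀ n, coeff n c ≤ 0) (n : ℕ) : 0 ≤ coeff n (E c) := by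
  induction n using Nat.strong_induction_on with
  | _ n ih =>
    rcases n with _ | n
    · rw [coeff_zero_E]; exact zero_le_one
    · rw [coeff_succ_E]
      have h1 : ∑ p ∈ antidiagonal n, coeff p.1 c * coeff p.2 (E c) ≤ 0 := by
        refine Finset.sum_nonpos fun p hp => ?_
        exact mul_nonpos_of_nonpos_of_nonneg (hc _)
          (ih p.2 (by have := Finset.HasAntidiagonal.mem_antidiagonal.1 hp; omega))
      have h2 : 0 ≤ 1 / ((n : ℝ) + 1) := by positivity
      nlinarith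

lemma E_abs {c d : ℝ⟦X⟧} (hc : ∀ n, |coeff n c| ≤ - coeff n d) (n : ℕ) :
    |coeff n (E c)| ≤ coeff n (E d) := by
  induction n using Nat.strong_induction_on with
  | _ n ih =>
    rcases n with _ | n
    · rw [coeff_zero_E, coeff_zero_E, abs_one]
    · rw [coeff_succ_E, coeff_succ_E, abs_mul, abs_neg,
        abs_of_nonneg (by positivity : (0 : ℝ) ≤ 1 / ((n : ℝ) + 1)), neg_mul, ← mul_neg,
        ← Finset.sum_neg_distrib]
      refine mul_le_mul_of_nonneg_left ?_ (by positivity)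
      refine (Finset.abs_sum_le_sum_abs _ _).trans (Finset.sum_le_sum fun p hp => ?_)
      rw [abs_mul, ← neg_mul]
      exact mul_le_mul (hc _)
        (ih p.2 (by have := Finset.HasAntidiagonal.mem_antidiagonal.1 hp; omega)) (abs_nonneg _)
        ((abs_nonneg _).trans (hc _))

lemma E_supp {c : ℝ⟦X⟧} {k : ℕ} (hc : ∀ n, ¬ k ∣ n + 1 → coeff n c = 0) (n : ℕ) (hn : ¬ k ∣ n) :
    coeff n (E c) = 0 := by
  induction n using Nat.strong_induction_on with
  | _ n ih =>
    rcases n with _ | n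
    · exact absurd (dvd_zero k) hn
    · rw [coeff_succ_E]
      rw [Finset.sum_eq_zero, mul_zero]
      intro p hp
      have hp' := Finset.HasAntidiagonal.mem_antidiagonal.1 hp
      by_cases h1 : k ∣ p.1 + 1
      · by_cases h2 : k ∣ p.2
        · exact absurd (by rw [← hp', show p.1 + p.2 + 1 = p.1 + 1 + p.2 by ring]
                           exact dvd_add h1 h2) hn
        · rw [ih p.2 (by omega) h2, mul_zero]
      · rw [hc p.1 h1, zero_mul]

lemma E_low {c : ℝ⟦X⟧} {K : ℕ} (hc : ∀ n, n < K → coeff n c = 0) (n : ℕ) (hn : n < K) :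
    coeff (n + 1) (E c) = 0 := by
  rw [coeff_succ_E, Finset.sum_eq_zero, mul_zero]
  intro p hp
  have hp' := Finset.HasAntidiagonal.mem_antidiagonal.1 hp
  rw [hc p.1 (by omega), zero_mul]

/-- exponentials of absolutely summable series are absolutely summable -/
lemma E_mem_W {c : ℝ⟦X⟧} (hc : c ∈ W) : E c ∈ W := by
  set Γ : ℝ := ‖(⟨c, hc⟩ : W)‖ with hΓ
  have hΓ0 : 0 ≤ Γ := norm_nonneg _
  set s : ℕ → ℝ := fun N => ∑ n ∈ Finset.range N, ‖coeff n (E c)‖ with hs
  have h1 : ∀ N, ∑ n ∈ Finset.range N, ((n : ℝ) + 1) * ‖coeff (n + 1) (E c)‖ ≤ Γ * s N := by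
    intro N
    have h2 : ∀ n : ℕ, ((n : ℝ) + 1) * ‖coeff (n + 1) (E c)‖ ≤
        ∑ p ∈ antidiagonal n, ‖coeff p.1 c‖ * ‖coeff p.2 (E c)‖ := by
      intro n
      rw [coeff_succ_E, norm_mul, norm_neg, Real.norm_of_nonneg
        (by positivity : (0 : ℝ) ≤ 1 / ((n : ℝ) + 1)), ← mul_assoc, mul_one_div_cancel (by positivity),
        one_mul]
      refine (norm_sum_le _ _).trans (le_of_eq (Finset.sum_congr rfl fun p _ => norm_mul _ _))
    refine (Finset.sum_le_sum fun n _ => h2 n).trans ?_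
    have h3 : ∑ n ∈ Finset.range N, ∑ p ∈ antidiagonal n, ‖coeff p.1 c‖ * ‖coeff p.2 (E c)‖ ≤
        ∑ i ∈ Finset.range N, ∑ j ∈ Finset.range N, ‖coeff i c‖ * ‖coeff j (E c)‖ := by
      rw [← Finset.sum_product', Finset.sum_sigma']
      rw [← Finset.sum_image (f := fun y : ℕ × ℕ => ‖coeff y.1 c‖ * ‖coeff y.2 (E c)‖)
        (g := fun x : (_ : ℕ) × ℕ × ℕ => x.2)]
      · refine Finset.sum_le_sum_of_subset_of_nonneg ?_ fun _ _ _ => by positivity
        intro y hy
        obtain ⟨x, hx, rfl⟩ := Finset.mem_image.1 hy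
        have hx' := Finset.mem_sigma.1 hx
        have h4 := Finset.HasAntidiagonal.mem_antidiagonal.1 hx'.2
        have h5 := Finset.mem_range.1 hx'.1
        rw [Finset.mem_product, Finset.mem_range, Finset.mem_range]
        constructor <;> omega
      · intro x hx y hy hxy
        have hx' := Finset.mem_sigma.1 (Finset.mem_coe.1 hx)
        have hy' := Finset.mem_sigma.1 (Finset.mem_coe.1 hy)
        have h4 := Finset.HasAntidiagonal.mem_antidiagonal.1 hx'.2
        have h5 := Finset.HasAntidiagonal.mem_antidiagonal.1 hy'.2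
        obtain ⟨a, b⟩ := x
        obtain ⟨a', b'⟩ := y
        simp only at hxy h4 h5
        subst hxy
        rw [h4] at h5
        subst h5
        rfl
    refine h3.trans ?_
    rw [← Finset.sum_mul_sum]
    refine mul_le_mul_of_nonneg_right ?_ (Finset.sum_nonneg fun _ _ => norm_nonneg _)
    exact (summ ⟨c, hc⟩).sum_le_tsum _ fun _ _ => norm_nonneg _
  obtain ⟨M, hM⟩ := exists_nat_ge (2 * (Γ + 1))
  rw [mem_W]
  refine summable_of_sum_range_le (c := 2 * (1 + ∑ n ∈ Finset.range M, ‖coeff (n + 1) (E c)‖))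
    (fun n => norm_nonneg _) fun N => ?_
  have h5 : ∀ n : ℕ, ‖coeff (n + 1) (E c)‖ ≤ (if n < M then ‖coeff (n + 1) (E c)‖ else 0) +
      (2 * (Γ + 1))⁻¹ * (((n : ℝ) + 1) * ‖coeff (n + 1) (E c)‖) := by
    intro n
    split_ifs with h
    · have : 0 ≤ (2 * (Γ + 1))⁻¹ * (((n : ℝ) + 1) * ‖coeff (n + 1) (E c)‖) := by positivity
      linarith
    · rw [zero_add, ← mul_assoc]
      refine le_mul_of_one_le_left (norm_nonneg _) ?_
      rw [inv_mul_eq_div, one_le_div (by positivity)]
      have : (M : ℝ) ≤ n := by exact_mod_cast not_lt.1 h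
      linarith
  have h6 : ∑ n ∈ Finset.range N, ‖coeff (n + 1) (E c)‖ ≤
      ∑ n ∈ Finset.range M, ‖coeff (n + 1) (E c)‖ + s N / 2 := by
    refine (Finset.sum_le_sum fun n _ => h5 n).trans ?_
    rw [Finset.sum_add_distrib, ← Finset.mul_sum]
    refine add_le_add ?_ ?_
    · rw [← Finset.sum_filter]
      refine Finset.sum_le_sum_of_subset_of_nonneg ?_ fun _ _ _ => norm_nonneg _
      intro n hn
      exact Finset.mem_range.2 (Finset.mem_filter.1 hn).2
    · have hsN : 0 ≤ s N := Finset.sum_nonneg fun _ _ => norm_nonneg _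
      rw [inv_mul_le_iff₀ (by positivity)]
      have h7 := h1 N
      nlinarith
  have h8 : s (N + 1) = 1 + ∑ n ∈ Finset.range N, ‖coeff (n + 1) (E c)‖ := by
    rw [hs]
    simp only
    rw [Finset.sum_range_succ', coeff_zero_E, norm_one, add_comm]
  have h9 : s N ≤ s (N + 1) := by
    rw [hs]
    simp only
    rw [Finset.sum_range_succ]
    linarith [norm_nonneg (coeff N (E c))]
  change s N ≤ _
  linarith

end Pool.Agent.Lib.MP699d82
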