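import Mathlib
import Pool.Agent.Lib.MP_699d82_al.Expo

set_option autoImplicit false
set_option linter.unusedSectionVars false

namespace Pool.Agent.Lib.MP699d82

open PowerSeries Filter Topology

variable {ι : Type*} [Fintype ι] [DecidableEq ι]

/-- the polynomial matrices equivalent to `Q0` -/
def Good (Q0 Q : Matrix ι ι (Polynomial ℝ)) : Prop :=
  ∃ U U' V V' : Matrix ι ι (Polynomial ℝ), U * U' = 1 ∧ V * V' = 1 ∧ Q = U * Q0 * V

/-- agreement of the first `L` coefficients -/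
def Agr (L : ℕ) (P P' : Matrix ι ι ℝ⟦X⟧) : Prop := ∀ i j, (X : ℝ⟦X⟧) ^ L ∣ P i j - P' i j

lemma Agr.mul {L : ℕ} {P P' R R' : Matrix ι ι ℝ⟦X⟧} (h1 : Agr L P P') (h2 : Agr L R R') :
    Agr L (P * R) (P' * R') := by
  intro i j
  rw [Matrix.mul_apply, Matrix.mul_apply, ← Finset.sum_sub_distrib]
  refine Finset.dvd_sum fun k _ => ?_
  have : P i k * R k j - P' i k * R' k j = (P i k - P' i k) * R k j + P' i k * (R k j - R' k j) := by
    ring
  rw [this]
  exact dvd_add (Dvd.dvd.mul_right (h1 i k) _) (Dvd.dvd.mul_left (h2 k j) _)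

lemma Agr.refl (L : ℕ) (P : Matrix ι ι ℝ⟦X⟧) : Agr L P P := fun i j => by simp

/-- polynomial matrices as matrices over `W` -/
noncomputable def pM (Q : Matrix ι ι (Polynomial ℝ)) : Matrix ι ι W := Q.map pW

lemma pM_mul (P Q : Matrix ι ι (Polynomial ℝ)) : pM (P * Q) = pM P * pM Q := by
  unfold pM; exact Matrix.map_mul

lemma pM_one : pM (1 : Matrix ι ι (Polynomial ℝ)) = 1 := by
  unfold pM
  exact Matrix.map_one _ (map_zero _) (map_one _)

lemma pM_add (P Q : Matrix ι ι (Polynomial ℝ)) : pM (P + Q) = pM P + pM Q := by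
  ext i j : 2
  exact map_add _ _ _

lemma pM_apply (P : Matrix ι ι (Polynomial ℝ)) (i j : ι) : pM P i j = pW (P i j) := rfl

/-- the closure of the good matrices -/
def Cl (Q0 : Matrix ι ι (Polynomial ℝ)) (F : Matrix ι ι W) : Prop :=
  ∀ S ∈ 𝓝 F, ∀ L : ℕ, ∃ Q, Good Q0 Q ∧ pM Q ∈ S ∧ Agr L (cM (pM Q)) (cM F)

/-- truncation of a matrix -/
noncomputable def trM (N : Matrix ι ι W) (T : ℕ) : Matrix ι ι (Polynomial ℝ) :=
  N.map fun f => trunc T (f : ℝ⟦X⟧)

lemma tendsto_trM (N : Matrix ι ι W) : Tendsto (fun T => pM (trM N T)) atTop (𝓝 N) := by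
  refine tendsto_pi_nhds.2 fun i => tendsto_pi_nhds.2 fun j => ?_
  exact tendsto_trunc (N i j)

lemma agr_trM (N : Matrix ι ι W) {L T : ℕ} (h : L ≤ T) : Agr L (cM (pM (trM N T))) (cM N) := by
  intro i j
  rw [X_pow_dvd_iff]
  intro m hm
  have h1 : (cM (pM (trM N T))) i j = ((trunc T ((N i j : W) : ℝ⟦X⟧) : Polynomial ℝ) : ℝ⟦X⟧) := rfl
  have h2 : (cM N) i j = ((N i j : W) : ℝ⟦X⟧) := rfl
  rw [h1, h2, map_sub, Polynomial.coeff_coe, coeff_trunc, if_pos (by omega), sub_self]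

/-- matrices supported on `s × sᶜ` -/
def Supp {R : Type*} [Zero R] (s : ι → Prop) (N : Matrix ι ι R) : Prop :=
  ∀ i j, ¬ (s i ∧ ¬ s j) → N i j = 0

lemma Supp.sq {R : Type*} [Semiring R] {s : ι → Prop} {N N' : Matrix ι ι R} (h : Supp s N)
    (h' : Supp s N') : N * N' = 0 := by
  ext i j
  rw [Matrix.mul_apply]
  refine Finset.sum_eq_zero fun k _ => ?_
  by_cases hk : s k
  · rw [h i k (fun h1 => h1.2 hk), zero_mul]
  · rw [h' k j (fun h1 => hk h1.1), mul_zero]

lemma Supp.trunc' {s : ι → Prop} {N : Matrix ι ι W} (h : Supp s N) (T : ℕ) :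
    Supp s (trM N T) := by
  intro i j hij
  have : trM N T i j = trunc T ((N i j : W) : ℝ⟦X⟧) := rfl
  rw [this, h i j hij, ZeroMemClass.coe_zero, map_zero]

lemma agr_one_add {L : ℕ} {P P' : Matrix ι ι W} (h : Agr L (cM P) (cM P')) :
    Agr L (cM (1 + P)) (cM (1 + P')) := by
  intro i j
  have h1 := h i j
  have h2 : cM (1 + P) i j - cM (1 + P') i j = cM P i j - cM P' i j := by
    simp only [cM, Matrix.map_apply, Matrix.add_apply, map_add]
    ring
  rw [h2]
  exact h1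

lemma cont_left : Continuous fun p : Matrix ι ι W × Matrix ι ι W => (1 + p.1) * p.2 := by
  have h0 : Continuous fun p : Matrix ι ι W × Matrix ι ι W => (1 + p.1 : Matrix ι ι W) :=
    continuous_const.add continuous_fst
  exact Continuous.matrix_mul h0 continuous_snd

lemma cont_right : Continuous fun p : Matrix ι ι W × Matrix ι ι W => p.2 * (1 + p.1) := by
  have h0 : Continuous fun p : Matrix ι ι W × Matrix ι ι W => (1 + p.1 : Matrix ι ι W) :=
    continuous_const.add continuous_fst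
  exact Continuous.matrix_mul continuous_snd h0

lemma exists_nhds_left {S : Set (Matrix ι ι W)} {N F : Matrix ι ι W} (hS : S ∈ 𝓝 ((1 + N) * F)) :
    ∃ S1 ∈ 𝓝 N, ∃ S2 ∈ 𝓝 F, ∀ N' ∈ S1, ∀ F' ∈ S2, (1 + N') * F' ∈ S := by
  have h1 : (fun p : Matrix ι ι W × Matrix ι ι W => (1 + p.1) * p.2) ⁻¹' S ∈ 𝓝 (N, F) :=
    cont_left.continuousAt (x := (N, F)) hS
  rw [nhds_prod_eq, mem_prod_iff] at h1
  obtain ⟨S1, hS1, S2, hS2, h2⟩ := h1
  refine ⟨S1, hS1, S2, hS2, fun N' hN' F' hF' => ?_⟩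
  have h3 := h2 (Set.mk_mem_prod hN' hF')
  exact h3

lemma exists_nhds_right {S : Set (Matrix ι ι W)} {N F : Matrix ι ι W} (hS : S ∈ 𝓝 (F * (1 + N))) :
    ∃ S1 ∈ 𝓝 N, ∃ S2 ∈ 𝓝 F, ∀ N' ∈ S1, ∀ F' ∈ S2, F' * (1 + N') ∈ S := by
  have h1 : (fun p : Matrix ι ι W × Matrix ι ι W => p.2 * (1 + p.1)) ⁻¹' S ∈ 𝓝 (N, F) :=
    cont_right.continuousAt (x := (N, F)) hS
  rw [nhds_prod_eq, mem_prod_iff] at h1
  obtain ⟨S1, hS1, S2, hS2, h2⟩ := h1
  refine ⟨S1, hS1, S2, hS2, fun N' hN' F' hF' => ?_⟩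
  have h3 := h2 (Set.mk_mem_prod hN' hF')
  exact h3

lemma Cl.left {Q0 : Matrix ι ι (Polynomial ℝ)} {F : Matrix ι ι W} (hF : Cl Q0 F) {s : ι → Prop}
    {N : Matrix ι ι W} (hN : Supp s N) : Cl Q0 ((1 + N) * F) := by
  intro S hS L
  obtain ⟨S1, hS1, S2, hS2, h2⟩ := exists_nhds_left hS
  have h3 : ∀ᶠ T in atTop, pM (trM N T) ∈ S1 := (tendsto_trM N).eventually hS1
  obtain ⟨T, hT, hTL⟩ := (h3.and (eventually_ge_atTop L)).exists
  obtain ⟨Q, ⟨U, U', V, V', hU, hV, hQ⟩, hQS, hQA⟩ := hF S2 hS2 L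
  refine ⟨(1 + trM N T) * Q, ⟨(1 + trM N T) * U, U' * (1 - trM N T), V, V', ?_, hV, ?_⟩, ?_, ?_⟩
  · calc (1 + trM N T) * U * (U' * (1 - trM N T)) = (1 + trM N T) * (U * U') * (1 - trM N T) := by
          simp only [mul_assoc]
      _ = 1 - trM N T * trM N T := by rw [hU]; noncomm_ring
      _ = 1 := by rw [(hN.trunc' T).sq (hN.trunc' T), sub_zero]
  · rw [hQ]; simp only [mul_assoc]
  · rw [pM_mul, pM_add, pM_one]
    exact h2 _ hT _ hQS
  · rw [pM_mul, pM_add, pM_one, cM_mul, cM_mul]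
    exact (agr_one_add (agr_trM N hTL)).mul hQA

lemma Cl.right {Q0 : Matrix ι ι (Polynomial ℝ)} {F : Matrix ι ι W} (hF : Cl Q0 F) {s : ι → Prop}
    {N : Matrix ι ι W} (hN : Supp s N) : Cl Q0 (F * (1 + N)) := by
  intro S hS L
  obtain ⟨S1, hS1, S2, hS2, h2⟩ := exists_nhds_right hS
  have h3 : ∀ᶠ T in atTop, pM (trM N T) ∈ S1 := (tendsto_trM N).eventually hS1
  obtain ⟨T, hT, hTL⟩ := (h3.and (eventually_ge_atTop L)).exists
  obtain ⟨Q, ⟨U, U', V, V', hU, hV, hQ⟩, hQS, hQA⟩ := hF S2 hS2 L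
  refine ⟨Q * (1 + trM N T), ⟨U, U', V * (1 + trM N T), (1 - trM N T) * V', hU, ?_, ?_⟩, ?_, ?_⟩
  · calc V * (1 + trM N T) * ((1 - trM N T) * V') = V * (1 - trM N T * trM N T) * V' := by
          noncomm_ring
      _ = 1 := by rw [(hN.trunc' T).sq (hN.trunc' T), sub_zero, mul_one, hV]
  · rw [hQ]; simp only [mul_assoc]
  · rw [pM_mul, pM_add, pM_one]
    exact h2 _ hT _ hQS
  · rw [pM_mul, pM_add, pM_one, cM_mul, cM_mul]
    exact hQA.mul (agr_one_add (agr_trM N hTL))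

lemma Good.cl {Q0 Q : Matrix ι ι (Polynomial ℝ)} (h : Good Q0 Q) : Cl Q0 (pM Q) := by
  intro S hS L
  exact ⟨Q, h, mem_of_mem_nhds hS, Agr.refl _ _⟩

lemma Cl.transvection {Q0 : Matrix ι ι (Polynomial ℝ)} {F : Matrix ι ι W} (hF : Cl Q0 F) {a b : ι}
    (hab : a ≠ b) (c : W) : Cl Q0 (Matrix.transvection a b c * F) := by
  refine hF.left (s := fun i => i = a) (N := Matrix.single a b c) ?_
  intro i j hij
  rw [Matrix.single_apply]
  refine if_neg fun h => hij ⟨h.1.symm, ?_⟩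
  rw [← h.2]
  exact hab.symm

lemma diag_two {a b : ι} (hab : a ≠ b) (u : Wˣ) (F : Matrix ι ι W) :
    Matrix.diagonal (fun i => (((Pi.mulSingle a u * Pi.mulSingle b u⁻¹ : ι → Wˣ) i : Wˣ) : W)) * F =
    Matrix.transvection b a ((u⁻¹ : Wˣ) - 1 : W) * (Matrix.transvection a b 1 *
      (Matrix.transvection b a ((u : W) - 1) * (Matrix.transvection a b (-(u⁻¹ : Wˣ) : W) * F))) := by
  have hu : (u : W) * ((u⁻¹ : Wˣ) : W) = 1 := Units.mul_inv u
  refine Matrix.ext fun k l => ?_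
  rw [Matrix.diagonal_mul]
  by_cases hka : k = a
  · subst hka
    rw [Matrix.transvection_mul_apply_of_ne _ _ _ _ hab, Matrix.transvection_mul_apply_same,
      Matrix.transvection_mul_apply_of_ne _ _ _ _ hab, Matrix.transvection_mul_apply_same,
      Matrix.transvection_mul_apply_same, Matrix.transvection_mul_apply_of_ne _ _ _ _ hab.symm,
      Matrix.transvection_mul_apply_same]
    simp only [Pi.mul_apply, Pi.mulSingle_eq_same, Pi.mulSingle_eq_of_ne hab, mul_one]
    linear_combination (F b l) * hu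
  · by_cases hkb : k = b
    · subst hkb
      rw [Matrix.transvection_mul_apply_same, Matrix.transvection_mul_apply_of_ne _ _ _ _ hab.symm,
        Matrix.transvection_mul_apply_same, Matrix.transvection_mul_apply_of_ne _ _ _ _ hab.symm,
        Matrix.transvection_mul_apply_same, Matrix.transvection_mul_apply_same,
        Matrix.transvection_mul_apply_of_ne _ _ _ _ hab, Matrix.transvection_mul_apply_same,
        Matrix.transvection_mul_apply_same, Matrix.transvection_mul_apply_of_ne _ _ _ _ hab.symm,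
        Matrix.transvection_mul_apply_same]
      simp only [Pi.mul_apply, Pi.mulSingle_eq_same, Pi.mulSingle_eq_of_ne hka, one_mul]
      linear_combination (-(F a l - ((u⁻¹ : Wˣ) : W) * F k l)) * hu
    · rw [Matrix.transvection_mul_apply_of_ne _ _ _ _ hkb,
        Matrix.transvection_mul_apply_of_ne _ _ _ _ hka,
        Matrix.transvection_mul_apply_of_ne _ _ _ _ hkb,
        Matrix.transvection_mul_apply_of_ne _ _ _ _ hka]
      simp [Pi.mulSingle_eq_of_ne hka, Pi.mulSingle_eq_of_ne hkb]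


lemma Cl.diag_two {Q0 : Matrix ι ι (Polynomial ℝ)} {F : Matrix ι ι W} (hF : Cl Q0 F) {a b : ι}
    (hab : a ≠ b) (u : Wˣ) :
    Cl Q0 (Matrix.diagonal (fun i =>
      (((Pi.mulSingle a u * Pi.mulSingle b u⁻¹ : ι → Wˣ) i : Wˣ) : W)) * F) := by
  rw [MP699d82.diag_two hab]
  exact (((hF.transvection hab _).transvection hab.symm _).transvection hab _).transvection
    hab.symm _

lemma Cl.diag {Q0 : Matrix ι ι (Polynomial ℝ)} (i0 : ι) (s : Finset ι) :
    ∀ (v : ι → Wˣ), (∀ i, i ≠ i0 → i ∉ s → v i = 1) → ∏ i, v i = 1 →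
    ∀ {F : Matrix ι ι W}, Cl Q0 F → Cl Q0 (Matrix.diagonal (fun i => ((v i : Wˣ) : W)) * F) := by
  induction s using Finset.induction_on with
  | empty =>
    intro v hv hp F hF
    have h1 : v i0 = 1 := by
      rw [Finset.prod_eq_single i0 (fun i _ hi => hv i hi (Finset.notMem_empty i))
        (fun h => absurd (Finset.mem_univ _) h)] at hp
      exact hp
    have h2 : (fun i => ((v i : Wˣ) : W)) = fun _ => 1 := by
      funext i
      by_cases h : i = i0
      · rw [h, h1, Units.val_one]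
      · rw [hv i h (Finset.notMem_empty i), Units.val_one]
    rw [h2, Matrix.diagonal_one, one_mul]
    exact hF
  | insert a s ha ih =>
    intro v hv hp F hF
    by_cases hai : a = i0
    · refine ih v (fun i hi his => hv i hi ?_) hp hF
      rw [Finset.mem_insert, not_or]
      exact ⟨fun h => hi (h.trans hai), his⟩
    · set w : ι → Wˣ := Pi.mulSingle a (v a) * Pi.mulSingle i0 (v a)⁻¹ with hw
      have hprodw : ∏ i, w i = 1 := by
        simp only [hw, Pi.mul_apply, Finset.prod_mul_distrib, Fintype.prod_pi_mulSingle']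
        exact mul_inv_cancel _
      have h1 := ih (v * w⁻¹) ?_ ?_ hF
      · have h2 := h1.diag_two hai (v a)
        rw [← mul_assoc, Matrix.diagonal_mul_diagonal] at h2
        have h3 : (fun i => (((Pi.mulSingle a (v a) * Pi.mulSingle i0 (v a)⁻¹ : ι → Wˣ) i : Wˣ) : W) *
            (((v * w⁻¹) i : Wˣ) : W)) = fun i => ((v i : Wˣ) : W) := by
          funext i
          rw [← hw, ← Units.val_mul]
          congr 1
          rw [Pi.mul_apply, Pi.inv_apply, mul_comm, inv_mul_cancel_right]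
        rw [h3] at h2
        exact h2
      · intro i hi his
        rw [Pi.mul_apply, Pi.inv_apply]
        by_cases hia : i = a
        · subst hia
          rw [hw, Pi.mul_apply, Pi.mulSingle_eq_same, Pi.mulSingle_eq_of_ne hi, mul_one,
            mul_inv_cancel]
        · rw [hv i hi (by rw [Finset.mem_insert, not_or]; exact ⟨hia, his⟩), hw, Pi.mul_apply,
            Pi.mulSingle_eq_of_ne hia, Pi.mulSingle_eq_of_ne hi]
          simp
      · simp only [Pi.mul_apply, Pi.inv_apply, Finset.prod_mul_distrib, Finset.prod_inv_distrib]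
        rw [hp, hprodw, inv_one, mul_one]

lemma Cl.diagonal {Q0 : Matrix ι ι (Polynomial ℝ)} [Nonempty ι] {F : Matrix ι ι W} (hF : Cl Q0 F)
    (v : ι → Wˣ) (hv : ∏ i, v i = 1) :
    Cl Q0 (Matrix.diagonal (fun i => ((v i : Wˣ) : W)) * F) :=
  Cl.diag (Classical.arbitrary ι) Finset.univ v (fun i _ h => absurd (Finset.mem_univ i) h) hv hF

end Pool.Agent.Lib.MP699d82
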