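import Mathlib
import Pool.Agent.Lib.MP_699d82_al.Closure

set_option autoImplicit false
set_option linter.unusedSectionVars false

namespace Pool.Agent.Lib.MP699d82

open PowerSeries Filter Topology

variable {ι : Type*} [Fintype ι] [DecidableEq ι]

section rankone

variable {R : Type*} [CommRing R]

/-- the basis vector -/
def e0 (i0 : ι) : ι → R := fun i => if i = i0 then 1 else 0
/-- its complement -/
def e1 (i0 : ι) : ι → R := fun i => if i = i0 then 0 else 1

lemma e0_e0 (i0 : ι) : (e0 i0 : ι → R) ⬝ᵥ e0 i0 = 1 := by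
  simp [e0, dotProduct]

lemma e0_e1 (i0 : ι) : (e0 i0 : ι → R) ⬝ᵥ e1 i0 = 0 := by
  simp only [e0, e1, dotProduct]
  refine Finset.sum_eq_zero fun i _ => ?_
  split_ifs <;> simp

lemma e1_e0 (i0 : ι) : (e1 i0 : ι → R) ⬝ᵥ e0 i0 = 0 := by
  rw [dotProduct_comm, e0_e1]

lemma e1_e1 (i0 : ι) : (e1 i0 : ι → R) ⬝ᵥ e1 i0 = (Fintype.card ι : R) - 1 := by
  simp only [e1, dotProduct]
  have h : ∀ i : ι, (if i = i0 then (0 : R) else 1) * (if i = i0 then 0 else 1) =
      1 - (if i = i0 then 1 else 0) := by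
    intro i
    split_ifs <;> simp
  simp only [h, Finset.sum_sub_distrib, Finset.sum_ite_eq', Finset.mem_univ, if_true,
    Finset.sum_const, Finset.card_univ, nsmul_eq_mul, mul_one]

lemma vv (u v w x : ι → R) :
    Matrix.vecMulVec u v * Matrix.vecMulVec w x = (v ⬝ᵥ w) • Matrix.vecMulVec u x := by
  ext i j
  simp only [Matrix.mul_apply, Matrix.vecMulVec_apply, Matrix.smul_apply, smul_eq_mul, dotProduct,
    Finset.sum_mul]
  refine Finset.sum_congr rfl fun k _ => ?_
  ring

lemma rank_one_identity (i0 : ι) (t τ c δ : R) (ht : t * τ = 1)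
    (hc : c * (Fintype.card ι : R) = 1) :
    (1 + t • Matrix.vecMulVec (e1 i0) (e0 i0)) * ((1 + (-(τ * c)) • Matrix.vecMulVec (e0 i0) (e1 i0)) *
      (1 + (δ - 1) • Matrix.vecMulVec (e0 i0) (e0 i0))) *
      (1 + c • Matrix.vecMulVec (e0 i0) (e1 i0)) * (1 + (-1 : R) • Matrix.vecMulVec (e1 i0) (e0 i0)) =
    (1 + (τ - 1) • Matrix.vecMulVec (e0 i0) (e0 i0)) *
      (1 + ((t * δ - 1) * c) • (Matrix.vecMulVec (e0 i0) (e0 i0) +
        Matrix.vecMulVec (e1 i0) (e0 i0) + Matrix.vecMulVec (e0 i0) (e1 i0) +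
        Matrix.vecMulVec (e1 i0) (e1 i0)) : Matrix ι ι R) := by
  simp only [mul_add, add_mul, one_mul, mul_one, smul_mul_assoc, mul_smul_comm, smul_smul, vv, e0_e0,
    e0_e1, e1_e0, e1_e1, zero_smul, smul_zero, add_zero, smul_add]
  match_scalars
  · rfl
  · linear_combination c * ((Fintype.card ι : R) - 1) * ht + (1 - t * δ) * hc
  · linear_combination (-c * δ) * ht
  · linear_combination (-c) * ht
  · linear_combination (τ - δ) * hc - c * δ * ht

end rankone


lemma Cl_target [Nonempty ι] {Q0 : Matrix ι ι (Polynomial ℝ)} (f : ι → Polynomial ℝ)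
    (hf : Good Q0 (Matrix.diagonal f)) (i0 : ι) (hunit : ∀ i, i ≠ i0 → IsUnit (pW (f i)))
    (δ : W) (hδ : ∏ i, pW (f i) = δ) (d : ι → Wˣ) (t : Wˣ) (hdt : (∏ i, d i) * t = 1) (c : W)
    (hc : c * (Fintype.card ι : W) = 1) :
    Cl Q0 (Matrix.diagonal (fun i => ((d i : Wˣ) : W)) *
      (1 + ((t * δ - 1) * c) • Matrix.vecMulVec (fun _ => 1) (fun _ => 1))) := by
  -- units
  set g : ι → Wˣ := fun i => if h : i ≠ i0 then (hunit i h).unit else 1 with hg
  have hgi : ∀ i, i ≠ i0 → ((g i : Wˣ) : W) = pW (f i) := by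
    intro i hi
    rw [hg]
    simp only [dif_pos hi, IsUnit.unit_spec]
  have hg0 : g i0 = 1 := by
    rw [hg]
    simp
  set v1 : ι → Wˣ := g⁻¹ * Pi.mulSingle i0 (∏ i, g i) with hv1
  have hv1p : ∏ i, v1 i = 1 := by
    simp only [hv1, Pi.mul_apply, Pi.inv_apply, Finset.prod_mul_distrib, Finset.prod_inv_distrib,
      Fintype.prod_pi_mulSingle']
    exact inv_mul_cancel _
  have h1 := (hf.cl).diagonal v1 hv1p
  have h2 : Matrix.diagonal (fun i => ((v1 i : Wˣ) : W)) * pM (Matrix.diagonal f) =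
      1 + (δ - 1) • Matrix.vecMulVec (e0 i0) (e0 i0) := by
    have h3 : pM (Matrix.diagonal f) = Matrix.diagonal fun i => pW (f i) := by
      unfold pM
      exact Matrix.diagonal_map (map_zero _)
    rw [h3, Matrix.diagonal_mul_diagonal]
    refine Matrix.ext fun i j => ?_
    rw [Matrix.add_apply, Matrix.smul_apply, Matrix.vecMulVec_apply]
    by_cases hij : i = j
    · subst hij
      rw [Matrix.diagonal_apply_eq, Matrix.one_apply_eq]
      by_cases hi : i = i0
      · subst hi
        have h4 : ((v1 i : Wˣ) : W) * pW (f i) = δ := by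
          rw [hv1, Pi.mul_apply, Pi.mulSingle_eq_same, Pi.inv_apply, hg0, inv_one, one_mul,
            Units.coe_prod, ← hδ, ← Finset.prod_erase_mul _ _ (Finset.mem_univ i),
            ← Finset.prod_erase_mul _ (fun i => pW (f i)) (Finset.mem_univ i), hg0,
            Units.val_one, mul_one]
          congr 1
          exact Finset.prod_congr rfl fun j hj => hgi j (Finset.ne_of_mem_erase hj)
        rw [h4]
        simp [e0]
      · have h4 : ((v1 i : Wˣ) : W) * pW (f i) = 1 := by
          rw [hv1, Pi.mul_apply, Pi.mulSingle_eq_of_ne hi, mul_one, Pi.inv_apply, ← hgi i hi,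
            Units.inv_mul]
        rw [h4]
        simp [e0, hi]
    · rw [Matrix.diagonal_apply_ne _ hij, Matrix.one_apply_ne hij]
      have h5 : (e0 i0 i : W) * e0 i0 j = 0 := by
        unfold e0
        split_ifs with h6 h7
        · exact absurd (h6.trans h7.symm) hij
        · simp
        · simp
        · simp
      rw [h5, smul_zero, add_zero]
  rw [h2] at h1
  -- shears
  have h3 := h1.left (s := fun i => i = i0)
    (N := (-(((t⁻¹ : Wˣ) : W) * c)) • Matrix.vecMulVec (e0 i0) (e1 i0)) (by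
      intro i j hij
      rw [Matrix.smul_apply, Matrix.vecMulVec_apply]
      by_cases hi : i = i0
      · by_cases hj : j = i0
        · simp [e1, hj]
        · exact absurd ⟨hi, hj⟩ hij
      · simp [e0, hi])
  have h4 := h3.left (s := fun i => i ≠ i0)
    (N := (t : W) • Matrix.vecMulVec (e1 i0) (e0 i0)) (by
      intro i j hij
      rw [Matrix.smul_apply, Matrix.vecMulVec_apply]
      by_cases hj : j = i0
      · by_cases hi : i = i0
        · simp [e1, hi]
        · exact absurd ⟨hi, not_not.2 hj⟩ hij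
      · simp [e0, hj])
  have h5 := h4.right (s := fun i => i = i0)
    (N := c • Matrix.vecMulVec (e0 i0) (e1 i0)) (by
      intro i j hij
      rw [Matrix.smul_apply, Matrix.vecMulVec_apply]
      by_cases hi : i = i0
      · by_cases hj : j = i0
        · simp [e1, hj]
        · exact absurd ⟨hi, hj⟩ hij
      · simp [e0, hi])
  have h6 := h5.right (s := fun i => i ≠ i0)
    (N := (-1 : W) • Matrix.vecMulVec (e1 i0) (e0 i0)) (by
      intro i j hij
      rw [Matrix.smul_apply, Matrix.vecMulVec_apply]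
      by_cases hj : j = i0
      · by_cases hi : i = i0
        · simp [e1, hi]
        · exact absurd ⟨hi, not_not.2 hj⟩ hij
      · simp [e0, hj])
  rw [rank_one_identity i0 (t : W) ((t⁻¹ : Wˣ) : W) c δ (Units.mul_inv t) hc] at h6
  -- final diagonal
  set v3 : ι → Wˣ := d * Pi.mulSingle i0 t with hv3
  have hv3p : ∏ i, v3 i = 1 := by
    simp only [hv3, Pi.mul_apply, Finset.prod_mul_distrib, Fintype.prod_pi_mulSingle']
    exact hdt
  have h7 := h6.diagonal v3 hv3p
  have h8 : (Matrix.vecMulVec (e0 i0) (e0 i0) + Matrix.vecMulVec (e1 i0) (e0 i0) +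
      Matrix.vecMulVec (e0 i0) (e1 i0) + Matrix.vecMulVec (e1 i0) (e1 i0) : Matrix ι ι W) =
      Matrix.vecMulVec (fun _ => 1) (fun _ => 1) := by
    refine Matrix.ext fun i j => ?_
    simp only [Matrix.add_apply, Matrix.vecMulVec_apply, e0, e1]
    split_ifs <;> simp
  have h9 : Matrix.diagonal (fun i => ((v3 i : Wˣ) : W)) *
      (1 + ((((t⁻¹ : Wˣ) : W)) - 1) • Matrix.vecMulVec (e0 i0) (e0 i0)) =
      Matrix.diagonal (fun i => ((d i : Wˣ) : W)) := by
    have h10 : (1 + ((((t⁻¹ : Wˣ) : W)) - 1) • Matrix.vecMulVec (e0 i0) (e0 i0) : Matrix ι ι W) =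
        Matrix.diagonal (fun i => if i = i0 then ((t⁻¹ : Wˣ) : W) else 1) := by
      refine Matrix.ext fun i j => ?_
      rw [Matrix.add_apply, Matrix.smul_apply, Matrix.vecMulVec_apply]
      by_cases hij : i = j
      · subst hij
        rw [Matrix.one_apply_eq, Matrix.diagonal_apply_eq]
        by_cases hi : i = i0
        · simp [e0, hi]
        · simp [e0, hi]
      · rw [Matrix.one_apply_ne hij, Matrix.diagonal_apply_ne _ hij]
        by_cases hi : i = i0
        · have hj : j ≠ i0 := fun h => hij (hi.trans h.symm)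
          simp [e0, hj]
        · simp [e0, hi]
    rw [h10, Matrix.diagonal_mul_diagonal]
    congr 1
    funext i
    by_cases hi : i = i0
    · subst hi
      rw [if_pos rfl, hv3, Pi.mul_apply, Pi.mulSingle_eq_same, Units.val_mul, mul_assoc,
        Units.mul_inv, mul_one]
    · rw [if_neg hi, hv3, Pi.mul_apply, Pi.mulSingle_eq_of_ne hi, mul_one, mul_one]
  rw [h8, ← mul_assoc, h9] at h7
  exact h7

end Pool.Agent.Lib.MP699d82
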