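import Mathlib
import Pool.Agent.Lib.MP_699d82_al.Target

set_option autoImplicit false
set_option linter.unusedSectionVars false

namespace Pool.Agent.Lib.MP699d82

open PowerSeries Filter Topology
open Finset.HasAntidiagonal (antidiagonal)

variable {ι : Type*} [Fintype ι] [DecidableEq ι]

/-- the limit matrix, as a matrix of power series -/
noncomputable def Qhat (x : ι → ℝ⟦X⟧) (γ : ℝ⟦X⟧) (c : ℝ) : Matrix ι ι ℝ⟦X⟧ :=
  Matrix.of fun a b => E (x a) * ((if a = b then 1 else 0) + C c * (E γ - 1))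

/-- its generator -/
noncomputable def Yhat (x : ι → ℝ⟦X⟧) (γ : ℝ⟦X⟧) (c : ℝ) : Matrix ι ι ℝ⟦X⟧ :=
  Matrix.of fun a b => (if a = b then x a else 0) +
    C c * ((E (-γ) - 1) * (x b - C c * ∑ k, x k) + (E γ - 1) * (x a - C c * ∑ k, x k) + γ)

lemma gen_target (x : ι → ℝ⟦X⟧) (γ : ℝ⟦X⟧) (c : ℝ) (hc : c * (Fintype.card ι : ℝ) = 1) :
    IsGen (Qhat x γ c) (Yhat x γ c) := by
  have hcC : (C c : ℝ⟦X⟧) * (Fintype.card ι : ℝ⟦X⟧) = 1 := by
    have := congrArg (C : ℝ → ℝ⟦X⟧) hc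
    simpa using this
  have hE : E γ * E (-γ) = 1 := E_mul_E_neg γ
  unfold IsGen
  refine Matrix.ext fun a b => ?_
  rw [Matrix.mul_apply, Matrix.neg_apply]
  have h1 : dM (Qhat x γ c) a b = derivative ℝ (E (x a) * ((if a = b then 1 else 0) +
    C c * (E γ - 1))) := rfl
  have hconst : derivative ℝ (if a = b then (1 : ℝ⟦X⟧) else 0) = 0 := by
    split_ifs
    · exact (derivative ℝ).map_one_eq_zero
    · exact map_zero _
  rw [h1, Derivation.leibniz, map_add, Derivation.leibniz, map_sub, deriv_E, deriv_E, hconst,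
    (derivative ℝ).map_one_eq_zero, derivative_C]
  simp only [smul_eq_mul, mul_zero, add_zero, sub_zero, zero_add]
  set m := C c * ∑ k, x k with hm
  have h2 : ∑ k, Qhat x γ c a k * Yhat x γ c k b = E (x a) * (Yhat x γ c a b +
      C c * (E γ - 1) * ∑ k, Yhat x γ c k b) := by
    have h3 : ∀ k, Qhat x γ c a k * Yhat x γ c k b =
        E (x a) * ((if a = k then Yhat x γ c k b else 0) + C c * (E γ - 1) * Yhat x γ c k b) := by
      intro k
      have h4 : Qhat x γ c a k = E (x a) * ((if a = k then 1 else 0) + C c * (E γ - 1)) := rfl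
      rw [h4]
      split_ifs <;> ring
    rw [Finset.sum_congr rfl fun k _ => h3 k, ← Finset.mul_sum, Finset.sum_add_distrib,
      Finset.sum_ite_eq, if_pos (Finset.mem_univ a), ← Finset.mul_sum]
  have h5 : ∑ k, Yhat x γ c k b = x b + ((E (-γ) - 1) * (x b - m) + γ) := by
    have h6 : ∀ k, Yhat x γ c k b = (if k = b then x k else 0) +
      C c * ((E (-γ) - 1) * (x b - m) + (E γ - 1) * (x k - m) + γ) := fun k => rfl
    rw [Finset.sum_congr rfl fun k _ => h6 k, Finset.sum_add_distrib, Finset.sum_ite_eq',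
      if_pos (Finset.mem_univ b), ← Finset.mul_sum, Finset.sum_add_distrib, Finset.sum_add_distrib,
      ← Finset.mul_sum (a := E γ - 1), Finset.sum_sub_distrib]
    simp only [Finset.sum_const, Finset.card_univ, nsmul_eq_mul]
    have h7 : C c * (∑ k, x k - (Fintype.card ι : ℝ⟦X⟧) * m) = 0 := by
      rw [hm]
      linear_combination (-(C c * ∑ k, x k)) * hcC
    linear_combination ((E (-γ) - 1) * (x b - m) + γ) * hcC + (E γ - 1) * h7
  rw [h2, h5]
  have h8 : Yhat x γ c a b = (if a = b then x a else 0) +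
      C c * ((E (-γ) - 1) * (x b - m) + (E γ - 1) * (x a - m) + γ) := rfl
  rw [h8]
  by_cases hab : a = b
  · subst hab
    simp only [if_true]
    linear_combination (E (x a) * C c * (x a - m)) * hE
  · simp only [hab, if_false]
    linear_combination (E (x a) * C c * (x b - m)) * hE


lemma coeff_mul_bound {y g : ℝ⟦X⟧} {ξ G : ℝ} {K m : ℕ} (hξ : 0 ≤ ξ) (hG : 0 ≤ G)
    (hy : ∀ k, |coeff k y| ≤ ξ) (hy' : ∀ k, K ≤ k → coeff k y = 0)
    (hg : ∀ k, k ≤ m → |coeff k g| ≤ G) : |coeff m (y * g)| ≤ K * (ξ * G) := by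
  rw [coeff_mul, Finset.Nat.sum_antidiagonal_eq_sum_range_succ_mk]
  refine (Finset.abs_sum_le_sum_abs _ _).trans ?_
  have h1 : ∀ k ∈ Finset.range m.succ, |coeff k y * coeff (m - k) g| ≤
      if k < K then ξ * G else 0 := by
    intro k _
    split_ifs with h
    · rw [abs_mul]
      exact mul_le_mul (hy k) (hg _ (Nat.sub_le _ _)) (abs_nonneg _) hξ
    · rw [hy' k (not_lt.1 h), zero_mul, abs_zero]
  refine (Finset.sum_le_sum h1).trans ?_
  rw [← Finset.sum_filter, Finset.sum_const, nsmul_eq_mul]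
  refine mul_le_mul_of_nonneg_right ?_ (by positivity)
  have h2 : (Finset.filter (fun k => k < K) (Finset.range m.succ)).card ≤ (Finset.range K).card := by
    refine Finset.card_le_card fun k hk => ?_
    exact Finset.mem_range.2 (Finset.mem_filter.1 hk).2
  rw [Finset.card_range] at h2
  exact_mod_cast h2

section

variable {x : ι → ℝ⟦X⟧} {γ : ℝ⟦X⟧} {c l ξ C1 : ℝ} {K : ℕ}

lemma mean_bound (hc0 : 0 < c) (hc : c * (Fintype.card ι : ℝ) = 1)
    (hx0 : ∀ a m, 0 ≤ coeff m (x a)) (hxξ : ∀ a m, coeff m (x a) ≤ ξ) (a : ι) (m : ℕ) :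
    |coeff m (x a - C c * ∑ k, x k)| ≤ ξ := by
  have h1 : coeff m (C c * ∑ k, x k) = c * ∑ k, coeff m (x k) := by
    rw [coeff_C_mul, map_sum]
  have h2 : 0 ≤ c * ∑ k, coeff m (x k) :=
    mul_nonneg hc0.le (Finset.sum_nonneg fun k _ => hx0 k m)
  have h3 : c * ∑ k, coeff m (x k) ≤ ξ := by
    calc c * ∑ k, coeff m (x k) ≤ c * ∑ _k : ι, ξ :=
          mul_le_mul_of_nonneg_left (Finset.sum_le_sum fun k _ => hxξ k m) hc0.le
      _ = (c * (Fintype.card ι : ℝ)) * ξ := by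
          rw [Finset.sum_const, Finset.card_univ, nsmul_eq_mul]; ring
      _ = ξ := by rw [hc, one_mul]
  rw [map_sub, h1, abs_le]
  constructor
  · linarith [hx0 a m]
  · linarith [hxξ a m]

lemma coeff_Yhat_low (hγ : ∀ m, m < K → coeff m γ = 0)
    (a b : ι) (m : ℕ) (hm : m < K) :
    coeff m (Yhat x γ c a b) = if a = b then coeff m (x a) else 0 := by
  have h0 : ∀ s : ℝ⟦X⟧, (∀ n, n < K → coeff n s = 0) → ∀ y : ℝ⟦X⟧,
      coeff m ((E s - 1) * y) = 0 := by
    intro s hs y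
    rw [coeff_mul]
    refine Finset.sum_eq_zero fun p hp => ?_
    have hp' := Finset.HasAntidiagonal.mem_antidiagonal.1 hp
    have h1 : coeff p.1 (E s - 1) = 0 := by
      rcases hp1 : p.1 with _ | n
      · simp
      · rw [map_sub, E_low hs n (by omega), coeff_one, if_neg (Nat.succ_ne_zero n), sub_zero]
    rw [h1, zero_mul]
  have h1 : Yhat x γ c a b = (if a = b then x a else 0) +
      C c * ((E (-γ) - 1) * (x b - C c * ∑ k, x k) + (E γ - 1) * (x a - C c * ∑ k, x k) + γ) := rfl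
  rw [h1, map_add, coeff_C_mul, map_add, map_add, h0 _ (fun n hn => by rw [map_neg, hγ n hn, neg_zero]),
    h0 _ hγ, hγ m hm]
  split_ifs <;> simp

lemma coeff_Yhat_high (hl : 1 < l) (hc0 : 0 < c) (hc : c * (Fintype.card ι : ℝ) = 1) (hξ : 0 ≤ ξ)
    (hx0 : ∀ a m, 0 ≤ coeff m (x a)) (hxξ : ∀ a m, coeff m (x a) ≤ ξ)
    (hx : ∀ a m, K ≤ m → coeff m (x a) = 0) (hγ0 : ∀ m, 0 ≤ coeff m γ)
    (hγ : ∀ m, K ≤ m → l ^ (m + 1) / 2 ≤ coeff m γ)
    (hC1 : ∀ m, coeff m (E (-γ)) ≤ C1 * l ^ m) (hsmall : K * (ξ * C1) ≤ 1 / 8)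
    (a b : ι) (m : ℕ) (hm : K ≤ m) :
    c / 4 * l ^ m ≤ coeff m (Yhat x γ c a b) := by
  have hl0 : 0 < l := by linarith
  have hC1' : 1 ≤ C1 := by
    have := hC1 0
    rwa [coeff_zero_E, pow_zero, mul_one] at this
  have hEn : ∀ k, 0 ≤ coeff k (E (-γ)) := E_nonneg fun n => by rw [map_neg]; linarith [hγ0 n]
  have hEa : ∀ k, |coeff k (E γ)| ≤ coeff k (E (-γ)) := E_abs fun n => by
    rw [map_neg, neg_neg, abs_of_nonneg (hγ0 n)]
  have hpow : ∀ k, k ≤ m → C1 * l ^ k ≤ C1 * l ^ m := fun k hk =>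
    mul_le_mul_of_nonneg_left (pow_le_pow_right₀ hl.le hk) (by linarith)
  have hg1 : ∀ k, k ≤ m → |coeff k (E (-γ) - 1)| ≤ C1 * l ^ m := by
    intro k hk
    rw [map_sub]
    rcases k with _ | k
    · simp; positivity
    · rw [coeff_one, if_neg (Nat.succ_ne_zero k), sub_zero, abs_of_nonneg (hEn _)]
      exact (hC1 _).trans (hpow _ hk)
  have hg2 : ∀ k, k ≤ m → |coeff k (E γ - 1)| ≤ C1 * l ^ m := by
    intro k hk
    rw [map_sub]
    rcases k with _ | k
    · simp; positivity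
    · rw [coeff_one, if_neg (Nat.succ_ne_zero k), sub_zero]
      exact (hEa _).trans ((hC1 _).trans (hpow _ hk))
  have hy' : ∀ a k, K ≤ k → coeff k (x a - C c * ∑ k, x k) = 0 := by
    intro a k hk
    rw [map_sub, coeff_C_mul, map_sum, hx a k hk, Finset.sum_eq_zero fun j _ => hx j k hk]
    simp
  have hG : 0 ≤ C1 * l ^ m := by positivity
  have h1 := coeff_mul_bound (K := K) (m := m) hξ hG (mean_bound hc0 hc hx0 hxξ b) (hy' b) hg1
  have h2 := coeff_mul_bound (K := K) (m := m) hξ hG (mean_bound hc0 hc hx0 hxξ a) (hy' a) hg2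
  have h3 : Yhat x γ c a b = (if a = b then x a else 0) +
      C c * ((E (-γ) - 1) * (x b - C c * ∑ k, x k) + (E γ - 1) * (x a - C c * ∑ k, x k) + γ) := rfl
  have h4 : coeff m (if a = b then x a else (0 : ℝ⟦X⟧)) = 0 := by
    split_ifs
    · exact hx a m hm
    · exact map_zero _
  rw [h3, map_add, h4, zero_add, coeff_C_mul, map_add, map_add,
    mul_comm (E (-γ) - 1), mul_comm (E γ - 1)]
  have h5 := hγ m hm
  have h6 : (K : ℝ) * (ξ * (C1 * l ^ m)) ≤ l ^ m / 8 := by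
    have : (K : ℝ) * (ξ * (C1 * l ^ m)) = (K * (ξ * C1)) * l ^ m := by ring
    rw [this]
    have h7 : 0 < l ^ m := by positivity
    nlinarith
  have h8 : l ^ m ≤ l ^ (m + 1) := pow_le_pow_right₀ hl.le (Nat.le_succ m)
  have h9 := (abs_le.1 h1).1
  have h10 := (abs_le.1 h2).1
  have h11 : l ^ m / 4 ≤ coeff m ((x b - C c * ∑ k, x k) * (E (-γ) - 1)) +
      coeff m ((x a - C c * ∑ k, x k) * (E γ - 1)) + coeff m γ := by linarith
  calc c / 4 * l ^ m = c * (l ^ m / 4) := by ring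
    _ ≤ _ := mul_le_mul_of_nonneg_left h11 hc0.le

end

end Pool.Agent.Lib.MP699d82
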