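import Mathlib
import Pool.Agent.Lib.MP_699d82_al.TargetGen

set_option autoImplicit false
set_option linter.unusedSectionVars false

namespace Pool.Agent.Lib.MP699d82

open PowerSeries Filter Topology Matrix
open Finset.HasAntidiagonal (antidiagonal)

variable {ι : Type*} [Fintype ι] [DecidableEq ι]

/-- polynomial matrices as matrices of power series -/
noncomputable def pp {m k : Type*} (P : Matrix m k (Polynomial ℝ)) : Matrix m k ℝ⟦X⟧ :=
  P.map Polynomial.coeToPowerSeries.ringHom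

lemma pp_mul {l m k : Type*} [Fintype m] (P : Matrix l m (Polynomial ℝ))
    (R : Matrix m k (Polynomial ℝ)) : pp (P * R) = pp P * pp R := by
  unfold pp; exact Matrix.map_mul

lemma pp_one : pp (1 : Matrix ι ι (Polynomial ℝ)) = 1 := by
  unfold pp
  exact Matrix.map_one _ (map_zero _) (map_one _)

lemma pp_apply {m k : Type*} (P : Matrix m k (Polynomial ℝ)) (i : m) (j : k) :
    pp P i j = (P i j : ℝ⟦X⟧) := rfl

lemma coeff_pp {m k : Type*} (P : Matrix m k (Polynomial ℝ)) (i : m) (j : k) (l : ℕ) :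
    coeff l (pp P i j) = (P i j).coeff l := by
  rw [pp_apply, Polynomial.coeff_coe]

/-- the scaled matrix -/
noncomputable def Fn (Q : Matrix ι ι (Polynomial ℝ)) (n : ℕ) : Matrix ι ι ℝ⟦X⟧ :=
  Matrix.of fun a b => PowerSeries.mk fun j =>
    ((n : ℝ) ^ j * (n - j).factorial / n.factorial) * (Q a b).coeff j

/-- the block Laffey matrix -/
noncomputable def Mm (n : ℕ) (Y : Matrix ι ι ℝ⟦X⟧) : Matrix (Fin n × ι) (Fin n × ι) ℝ :=
  Matrix.of fun p r => (1 / (n : ℝ)) * (if (p.1 : ℕ) ≤ r.1 then coeff (r.1 - p.1 : ℕ) (Y p.2 r.2) else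
    if (p.1 : ℕ) = r.1 + 1 ∧ p.2 = r.2 then ((r.1 : ℕ) + 1 : ℝ) else 0)

/-- agreement of vectors -/
def Agv (L : ℕ) (u v : ι → ℝ⟦X⟧) : Prop := ∀ a, (X : ℝ⟦X⟧) ^ L ∣ u a - v a

lemma Agv.vecMul {L : ℕ} {u v : ι → ℝ⟦X⟧} (h : Agv L u v) (P : Matrix ι ι ℝ⟦X⟧) :
    Agv L (u ᵥ* P) (v ᵥ* P) := by
  intro b
  simp only [Matrix.vecMul, dotProduct]
  rw [← Finset.sum_sub_distrib]
  refine Finset.dvd_sum fun a _ => ?_
  rw [← sub_mul]
  exact Dvd.dvd.mul_right (h a) _

lemma agv_iff {L : ℕ} {u v : ι → ℝ⟦X⟧} :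
    Agv L u v ↔ ∀ a, ∀ m < L, coeff m (u a) = coeff m (v a) := by
  unfold Agv
  refine forall_congr' fun a => ?_
  rw [X_pow_dvd_iff]
  refine forall_congr' fun m => forall_congr' fun _ => ?_
  rw [map_sub, sub_eq_zero]

lemma isUnit_det_of_const {P : Matrix ι ι ℝ⟦X⟧}
    (h : P.map (constantCoeff (R := ℝ)) = 1) : IsUnit P.det := by
  rw [PowerSeries.isUnit_iff_constantCoeff, RingHom.map_det, RingHom.mapMatrix_apply, h,
    Matrix.det_one]
  exact isUnit_one

/-- the shift -/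
noncomputable def sft (u : ι → ℝ⟦X⟧) : ι → ℝ⟦X⟧ := fun a => PowerSeries.mk fun m => coeff (m + 1) (u a)

/-- the Borel type transform -/
noncomputable def tau (n : ℕ) (u : ι → ℝ⟦X⟧) : ι → ℝ⟦X⟧ :=
  fun a => PowerSeries.mk fun i => ((n : ℝ) ^ i / i.factorial) * coeff i (u a)

/-- the sequences annihilated by `Q` -/
def InS (Q : Matrix ι ι (Polynomial ℝ)) (n : ℕ) (u : ι → ℝ⟦X⟧) : Prop :=
  ∀ m, n ≤ m → ∀ b, coeff m ((u ᵥ* pp Q) b) = 0

/-- coordinates -/
noncomputable def SS (Q : Matrix ι ι (Polynomial ℝ)) (n : ℕ) (u : ι → ℝ⟦X⟧) : Fin n × ι → ℝ :=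
  fun p => coeff (p.1 : ℕ) ((tau n u ᵥ* Fn Q n) p.2)

lemma coeff_vecMul (u : ι → ℝ⟦X⟧) (P : Matrix ι ι ℝ⟦X⟧) (b : ι) (m : ℕ) :
    coeff m ((u ᵥ* P) b) = ∑ a, ∑ i ∈ Finset.range (m + 1), coeff i (u a) * coeff (m - i) (P a b) := by
  simp only [Matrix.vecMul, dotProduct]
  rw [map_sum]
  refine Finset.sum_congr rfl fun a _ => ?_
  rw [coeff_mul, Finset.Nat.sum_antidiagonal_eq_sum_range_succ_mk]

/-- the action of the block matrix in terms of power series -/
lemma vecMul_Mm {n : ℕ} (Y : Matrix ι ι ℝ⟦X⟧) (ω : ι → ℝ⟦X⟧) (hω : ∀ b, coeff n (ω b) = 0)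
    (j : Fin n) (b : ι) :
    ((fun p : Fin n × ι => coeff (p.1 : ℕ) (ω p.2)) ᵥ* Mm n Y) (j, b) =
      (1 / (n : ℝ)) * coeff (j : ℕ) (derivative ℝ (ω b) + (ω ᵥ* Y) b) := by
  rw [map_add, coeff_derivative, coeff_vecMul]
  simp only [Matrix.vecMul, dotProduct, Mm, Matrix.of_apply]
  rw [Fintype.sum_prod_type]
  have h1 : ∀ i : Fin n, ∀ a : ι, coeff (i : ℕ) (ω a) * ((1 / (n : ℝ)) *
      (if (i : ℕ) ≤ j then coeff (j - i : ℕ) (Y a b) else
        if (i : ℕ) = j + 1 ∧ a = b then ((j : ℕ) + 1 : ℝ) else 0)) =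
      (1 / (n : ℝ)) * ((if (i : ℕ) ≤ j then coeff (i : ℕ) (ω a) * coeff (j - i : ℕ) (Y a b) else 0) +
      (if (i : ℕ) = j + 1 then (if a = b then coeff ((j : ℕ) + 1) (ω b) * ((j : ℕ) + 1 : ℝ) else 0)
        else 0)) := by
    intro i a
    by_cases h : (i : ℕ) ≤ j
    · rw [if_pos h, if_pos h, if_neg (by omega)]
      ring
    · rw [if_neg h, if_neg h]
      by_cases h2 : (i : ℕ) = j + 1
      · by_cases h3 : a = b
        · rw [if_pos ⟨h2, h3⟩, if_pos h2, if_pos h3, h2, h3]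
          ring
        · rw [if_neg (fun h4 => h3 h4.2), if_pos h2, if_neg h3]
          ring
      · rw [if_neg (fun h4 => h2 h4.1), if_neg h2]
        ring
  simp only [h1]
  simp only [← Finset.mul_sum]
  congr 1
  simp only [Finset.sum_add_distrib]
  rw [add_comm]
  congr 1
  · have h2 : ∀ i : Fin n, ∑ a : ι, (if (i : ℕ) = j + 1 then
        (if a = b then coeff ((j : ℕ) + 1) (ω b) * ((j : ℕ) + 1 : ℝ) else 0) else 0) =
        if (i : ℕ) = j + 1 then coeff ((j : ℕ) + 1) (ω b) * ((j : ℕ) + 1 : ℝ) else 0 := by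
      intro i
      split_ifs
      · rw [Finset.sum_ite_eq', if_pos (Finset.mem_univ b)]
      · exact Finset.sum_const_zero
    simp only [h2]
    by_cases hj : (j : ℕ) + 1 < n
    · rw [Finset.sum_eq_single (⟨j + 1, hj⟩ : Fin n)]
      · simp
      · intro i _ hi
        refine if_neg fun h => hi (Fin.ext h)
      · intro h; exact absurd (Finset.mem_univ _) h
    · have hj' : (j : ℕ) + 1 = n := by omega
      rw [Finset.sum_eq_zero]
      · rw [hj', hω b, zero_mul]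
      · intro i _
        exact if_neg (by omega)
  · rw [Finset.sum_comm]
    refine Finset.sum_congr rfl fun a _ => ?_
    rw [← Finset.sum_filter]
    symm
    refine Finset.sum_bij' (fun i hi => (⟨i, by
        have := Finset.mem_range.1 hi
        omega⟩ : Fin n)) (fun i _ => (i : ℕ)) ?_ ?_ ?_ ?_ ?_
    · intro i hi
      have := Finset.mem_range.1 hi
      rw [Finset.mem_filter]
      exact ⟨Finset.mem_univ _, by simp only; omega⟩
    · intro i hi
      have := (Finset.mem_filter.1 hi).2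
      rw [Finset.mem_range]
      omega
    · intro i hi; rfl
    · intro i hi; rfl
    · intro i hi; rfl

end Pool.Agent.Lib.MP699d82
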