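import Mathlib
import Pool.Agent.Lib.MP_699d82_al.Block

set_option autoImplicit false
set_option linter.unusedSectionVars false

namespace Pool.Agent.Lib.MP699d82

open PowerSeries Filter Topology Matrix
open Finset.HasAntidiagonal (antidiagonal)

variable {ι : Type*} [Fintype ι] [DecidableEq ι]

lemma coeff_sft (u : ι → ℝ⟦X⟧) (a : ι) (m : ℕ) : coeff m (sft u a) = coeff (m + 1) (u a) := by
  simp [sft]

lemma coeff_tau (n : ℕ) (u : ι → ℝ⟦X⟧) (a : ι) (m : ℕ) :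
    coeff m (tau n u a) = ((n : ℝ) ^ m / m.factorial) * coeff m (u a) := by
  simp [tau]

lemma coeff_Fn (Q : Matrix ι ι (Polynomial ℝ)) (n : ℕ) (a b : ι) (j : ℕ) :
    coeff j (Fn Q n a b) = ((n : ℝ) ^ j * (n - j).factorial / n.factorial) * (Q a b).coeff j := by
  simp [Fn]

/-- degree bound -/
def DegLE (Q : Matrix ι ι (Polynomial ℝ)) (n : ℕ) : Prop := ∀ a b, (Q a b).natDegree ≤ n

lemma InS.sft {Q : Matrix ι ι (Polynomial ℝ)} {n : ℕ} (hQ : DegLE Q n) {u : ι → ℝ⟦X⟧}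
    (hu : InS Q n u) : InS Q n (sft u) := by
  intro m hm b
  have h1 := hu (m + 1) (by omega) b
  rw [coeff_vecMul] at h1 ⊢
  rw [← h1]
  refine Finset.sum_congr rfl fun a _ => ?_
  rw [Finset.sum_range_succ' (fun i => coeff i (u a) * coeff (m + 1 - i) (pp Q a b))]
  have h2 : coeff (m + 1 - 0) (pp Q a b) = 0 := by
    rw [coeff_pp]
    refine Polynomial.coeff_eq_zero_of_natDegree_lt ?_
    have := hQ a b
    omega
  rw [h2, mul_zero, add_zero]
  refine Finset.sum_congr rfl fun i _ => ?_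
  rw [coeff_sft, show m + 1 - (i + 1) = m - i by omega]

lemma deriv_tau (n : ℕ) (u : ι → ℝ⟦X⟧) (a : ι) :
    derivative ℝ (tau n u a) = (n : ℝ) • tau n (sft u) a := by
  ext m
  rw [coeff_derivative, coeff_tau, coeff_smul, coeff_tau, coeff_sft, Nat.factorial_succ, pow_succ,
    smul_eq_mul]
  have h1 : ((m.factorial : ℕ) : ℝ) ≠ 0 := by exact_mod_cast Nat.factorial_ne_zero m
  have h2 : ((m + 1 : ℕ) : ℝ) ≠ 0 := by positivity
  push_cast at h2 ⊢
  field_simp

/-- the intertwining relation -/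
lemma SS_sft {Q : Matrix ι ι (Polynomial ℝ)} {n : ℕ} (hn : 0 < n) {Y : Matrix ι ι ℝ⟦X⟧}
    (hY : IsGen (Fn Q n) Y) {u : ι → ℝ⟦X⟧} (hu : InS Q n u) :
    SS Q n (sft u) = SS Q n u ᵥ* Mm n Y := by
  have hn0 : (n : ℝ) ≠ 0 := by positivity
  set ω := tau n u ᵥ* Fn Q n with hω
  have h0 : ∀ b, coeff n (ω b) = 0 := by
    intro b
    have h1 := hu n le_rfl b
    rw [coeff_vecMul] at h1
    rw [hω, coeff_vecMul]
    have h2 : ∑ a, ∑ i ∈ Finset.range (n + 1), coeff i (tau n u a) * coeff (n - i) (Fn Q n a b) =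
        ((n : ℝ) ^ n / n.factorial) * ∑ a, ∑ i ∈ Finset.range (n + 1),
          coeff i (u a) * coeff (n - i) (pp Q a b) := by
      rw [Finset.mul_sum]
      refine Finset.sum_congr rfl fun a _ => ?_
      rw [Finset.mul_sum]
      refine Finset.sum_congr rfl fun i hi => ?_
      have hi' : i ≤ n := by
        have := Finset.mem_range.1 hi
        omega
      rw [coeff_tau, coeff_Fn, coeff_pp, Nat.sub_sub_self hi']
      have h3 : (n : ℝ) ^ n = (n : ℝ) ^ i * (n : ℝ) ^ (n - i) := by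
        rw [← pow_add, Nat.add_sub_cancel' hi']
      rw [h3]
      have h4 : ((i.factorial : ℕ) : ℝ) ≠ 0 := by exact_mod_cast Nat.factorial_ne_zero i
      have h5 : ((n.factorial : ℕ) : ℝ) ≠ 0 := by exact_mod_cast Nat.factorial_ne_zero n
      field_simp
    rw [h2, h1, mul_zero]
  have hder : ∀ b, derivative ℝ (ω b) + (ω ᵥ* Y) b = (n : ℝ) • (tau n (sft u) ᵥ* Fn Q n) b := by
    intro b
    have h1 : derivative ℝ (ω b) = ∑ a, (derivative ℝ (tau n u a) * Fn Q n a b +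
        tau n u a * derivative ℝ (Fn Q n a b)) := by
      rw [hω]
      simp only [Matrix.vecMul, dotProduct]
      rw [map_sum]
      refine Finset.sum_congr rfl fun a _ => ?_
      rw [Derivation.leibniz]
      simp only [smul_eq_mul]
      ring
    have h2 : (ω ᵥ* Y) b = ∑ a, tau n u a * (-(derivative ℝ (Fn Q n a b))) := by
      rw [hω, Matrix.vecMul_vecMul, hY]
      rfl
    rw [h1, h2, ← Finset.sum_add_distrib]
    simp only [Matrix.vecMul, dotProduct]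
    rw [Finset.smul_sum]
    refine Finset.sum_congr rfl fun a _ => ?_
    rw [deriv_tau, smul_mul_assoc]
    ring
  funext p
  obtain ⟨j, b⟩ := p
  have h1 := vecMul_Mm Y ω h0 j b
  have h2 : SS Q n u = fun p : Fin n × ι => coeff (p.1 : ℕ) (ω p.2) := rfl
  rw [h2, h1, hder b, coeff_smul, smul_eq_mul]
  have h3 : SS Q n (sft u) (j, b) = coeff (j : ℕ) ((tau n (sft u) ᵥ* Fn Q n) b) := rfl
  rw [h3]
  field_simp

lemma Agv.of_tau {L n : ℕ} (hn : 0 < n) {u v : ι → ℝ⟦X⟧} (h : Agv L (tau n u) (tau n v)) :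
    Agv L u v := by
  rw [agv_iff] at h ⊢
  intro a m hm
  have h1 := h a m hm
  rw [coeff_tau, coeff_tau] at h1
  have h2 : ((n : ℝ) ^ m / m.factorial) ≠ 0 := by positivity
  exact mul_left_cancel₀ h2 h1

lemma Agv.tau {L n : ℕ} {u v : ι → ℝ⟦X⟧} (h : Agv L u v) : Agv L (tau n u) (tau n v) := by
  rw [agv_iff] at h ⊢
  intro a m hm
  rw [coeff_tau, coeff_tau, h a m hm]

lemma Agv.trans {L : ℕ} {u v w : ι → ℝ⟦X⟧} (h : Agv L u v) (h' : Agv L v w) : Agv L u w := by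
  rw [agv_iff] at h h' ⊢
  intro a m hm
  rw [h a m hm, h' a m hm]

lemma Agv.symm {L : ℕ} {u v : ι → ℝ⟦X⟧} (h : Agv L u v) : Agv L v u := by
  rw [agv_iff] at h ⊢
  intro a m hm
  rw [h a m hm]

lemma Agv.of_vecMul {L : ℕ} {u v : ι → ℝ⟦X⟧} {P : Matrix ι ι ℝ⟦X⟧} (hP : IsUnit P.det)
    (h : Agv L (u ᵥ* P) (v ᵥ* P)) : Agv L u v := by
  have h1 := h.vecMul P⁻¹
  rw [Matrix.vecMul_vecMul, Matrix.vecMul_vecMul, Matrix.mul_nonsing_inv _ hP, Matrix.vecMul_one,
    Matrix.vecMul_one] at h1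
  exact h1

/-- constant term of `Fn` -/
lemma isUnit_Fn {Q : Matrix ι ι (Polynomial ℝ)} (hQ : ∀ a b, (Q a b).coeff 0 = if a = b then 1 else 0)
    (n : ℕ) : IsUnit (Fn Q n).det := by
  refine isUnit_det_of_const ?_
  ext a b
  rw [Matrix.map_apply, ← coeff_zero_eq_constantCoeff_apply, coeff_Fn, hQ, Matrix.one_apply]
  have h5 : ((n.factorial : ℕ) : ℝ) ≠ 0 := by exact_mod_cast Nat.factorial_ne_zero n
  rw [pow_zero, one_mul, Nat.sub_zero, div_self h5, one_mul]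

lemma isUnit_pp {Q : Matrix ι ι (Polynomial ℝ)} (hQ : ∀ a b, (Q a b).coeff 0 = if a = b then 1 else 0) :
    IsUnit (pp Q).det := by
  refine isUnit_det_of_const ?_
  ext a b
  rw [Matrix.map_apply, ← coeff_zero_eq_constantCoeff_apply, coeff_pp, hQ, Matrix.one_apply]

lemma SS_surj {Q : Matrix ι ι (Polynomial ℝ)} (hQ : ∀ a b, (Q a b).coeff 0 = if a = b then 1 else 0)
    {n : ℕ} (hn : 0 < n) (w : Fin n × ι → ℝ) : ∃ u, InS Q n u ∧ SS Q n u = w := by
  have hF := isUnit_Fn hQ n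
  have hP := isUnit_pp hQ
  -- the row of power series with prescribed coefficients
  set ω : ι → ℝ⟦X⟧ := fun b => PowerSeries.mk fun m => if h : m < n then w (⟨m, h⟩, b) else 0 with hω
  set t := ω ᵥ* (Fn Q n)⁻¹ with ht
  set u1 : ι → ℝ⟦X⟧ := fun a => PowerSeries.mk fun m => ((m.factorial : ℝ) / (n : ℝ) ^ m) * coeff m (t a)
    with hu1
  have htau : MP699d82.tau n u1 = t := by
    funext a
    ext m
    rw [coeff_tau, hu1]
    simp only [coeff_mk]
    have h4 : ((m.factorial : ℕ) : ℝ) ≠ 0 := by exact_mod_cast Nat.factorial_ne_zero m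
    have h5 : (n : ℝ) ≠ 0 := by positivity
    field_simp
  set v : ι → ℝ⟦X⟧ := fun b => PowerSeries.mk fun m => if m < n then coeff m ((u1 ᵥ* pp Q) b) else 0
    with hv
  refine ⟨v ᵥ* (pp Q)⁻¹, ?_, ?_⟩
  · intro m hm b
    rw [Matrix.vecMul_vecMul, Matrix.nonsing_inv_mul _ hP, Matrix.vecMul_one, hv]
    simp only [coeff_mk]
    exact if_neg (by omega)
  · have h1 : Agv n v (u1 ᵥ* pp Q) := by
      rw [agv_iff]
      intro a m hm
      rw [hv]
      simp only [coeff_mk]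
      exact if_pos hm
    have h2 : Agv n (v ᵥ* (pp Q)⁻¹) u1 := by
      have h3 := h1.vecMul (pp Q)⁻¹
      rwa [Matrix.vecMul_vecMul u1, Matrix.mul_nonsing_inv _ hP, Matrix.vecMul_one] at h3
    have h4 : Agv n (MP699d82.tau n (v ᵥ* (pp Q)⁻¹) ᵥ* Fn Q n) ω := by
      have h5 := (h2.tau (n := n)).vecMul (Fn Q n)
      rwa [htau, ht, Matrix.vecMul_vecMul ω, Matrix.nonsing_inv_mul _ hF, Matrix.vecMul_one] at h5
    funext p
    obtain ⟨j, b⟩ := p
    rw [agv_iff] at h4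
    have h5 := h4 b j j.2
    show coeff (j : ℕ) ((MP699d82.tau n (v ᵥ* (pp Q)⁻¹) ᵥ* Fn Q n) b) = _
    rw [h5, hω]
    simp only [coeff_mk]
    rw [dif_pos j.2]

lemma SS_inj {Q : Matrix ι ι (Polynomial ℝ)} (hQ : ∀ a b, (Q a b).coeff 0 = if a = b then 1 else 0)
    {n : ℕ} (hn : 0 < n) {u v : ι → ℝ⟦X⟧} (hu : InS Q n u) (hv : InS Q n v) (h : SS Q n u = SS Q n v) :
    u = v := by
  have hF := isUnit_Fn hQ n
  have hP := isUnit_pp hQ
  have h1 : Agv n (MP699d82.tau n u ᵥ* Fn Q n) (MP699d82.tau n v ᵥ* Fn Q n) := by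
    rw [agv_iff]
    intro a m hm
    exact congrFun h (⟨m, hm⟩, a)
  have h2 : Agv n u v := (h1.of_vecMul hF).of_tau hn
  have h3 := h2.vecMul (pp Q)
  rw [agv_iff] at h3
  have h4 : u ᵥ* pp Q = v ᵥ* pp Q := by
    funext b
    ext m
    by_cases hm : m < n
    · exact h3 b m hm
    · rw [hu m (by omega) b, hv m (by omega) b]
  have h5 := congrArg (fun z => z ᵥ* (pp Q)⁻¹) h4
  simp only [Matrix.vecMul_vecMul, Matrix.mul_nonsing_inv _ hP, Matrix.vecMul_one] at h5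
  exact h5

end Pool.Agent.Lib.MP699d82
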