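import Mathlib
import Pool.Agent.Lib.MP_699d82_al.Block2
import Pool.Agent.Lib.MP_699d82_al.Closure

set_option autoImplicit false
set_option linter.unusedSectionVars false

namespace Pool.Agent.Lib.MP699d82

open PowerSeries Filter Topology Matrix
open Finset.HasAntidiagonal (antidiagonal)

variable {α κ β : Type*} [Fintype α] [DecidableEq α] [Fintype κ] [DecidableEq κ]

/-- the matrix `1 - X B` -/
noncomputable def RB (B : Matrix α α ℝ) : Matrix α α (Polynomial ℝ) :=
  1 - (Polynomial.X : Polynomial ℝ) • B.map Polynomial.C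

/-- the matrix `(1 - X B) ⊕ 1` -/
noncomputable def QB (κ : Type*) [Fintype κ] [DecidableEq κ] (B : Matrix α α ℝ) :
    Matrix (α ⊕ κ) (α ⊕ κ) (Polynomial ℝ) :=
  Matrix.fromBlocks (RB B) 0 0 1

/-- constant matrices -/
noncomputable def cst {m k : Type*} (P : Matrix m k ℝ) : Matrix m k (Polynomial ℝ) :=
  P.map Polynomial.C

lemma cst_mul {l m k : Type*} [Fintype m] (P : Matrix l m ℝ) (R : Matrix m k ℝ) :
    cst (P * R) = cst P * cst R := by
  unfold cst; exact Matrix.map_mul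

lemma cst_one {m : Type*} [Fintype m] [DecidableEq m] : cst (1 : Matrix m m ℝ) = 1 := by
  unfold cst
  exact Matrix.map_one _ (map_zero _) (map_one _)

/-- left division by `1 - X B` -/
lemma left_division (B : Matrix α α ℝ) (hB : IsUnit B.det) (n : ℕ) :
    ∀ F : Matrix α β (Polynomial ℝ), (∀ i j, (F i j).natDegree ≤ n) →
    ∃ (Cm : Matrix α β ℝ) (G : Matrix α β (Polynomial ℝ)), F = cst Cm + RB B * G := by
  induction n with
  | zero =>
    intro F hF
    refine ⟨F.map fun p => p.coeff 0, 0, ?_⟩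
    refine Matrix.ext fun i j => ?_
    rw [Matrix.mul_zero, add_zero]
    have h1 := hF i j
    exact Polynomial.eq_C_of_natDegree_le_zero h1
  | succ n ih =>
    intro F hF
    obtain ⟨Cm, G, h⟩ := ih (F.map fun p => p.divX) (by
      intro i j
      rw [Matrix.map_apply, Polynomial.natDegree_divX_eq_natDegree_tsub_one]
      have := hF i j
      omega)
    have h2 : F = (Polynomial.X : Polynomial ℝ) • (F.map fun p => p.divX) +
        cst (F.map fun p => p.coeff 0) := by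
      refine Matrix.ext fun i j => ?_
      have h3 := Polynomial.divX_mul_X_add (F i j)
      rw [Matrix.add_apply, Matrix.smul_apply, Matrix.map_apply, smul_eq_mul, mul_comm]
      exact h3.symm
    have h4 : cst B * cst (B⁻¹ * Cm) = cst Cm := by
      rw [← cst_mul, ← Matrix.mul_assoc, Matrix.mul_nonsing_inv _ hB, Matrix.one_mul]
    refine ⟨F.map (fun p => p.coeff 0) + B⁻¹ * Cm, (Polynomial.X : Polynomial ℝ) • G - cst (B⁻¹ * Cm), ?_⟩
    have h5 : (Polynomial.X : Polynomial ℝ) • cst Cm =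
        (1 - RB B) * cst (B⁻¹ * Cm) := by
      have : (1 - RB B) = (Polynomial.X : Polynomial ℝ) • cst B := by
        unfold RB cst; abel
      rw [this, Matrix.smul_mul, h4]
    have h6 : cst (F.map (fun p => p.coeff 0) + B⁻¹ * Cm) =
        cst (F.map (fun p => p.coeff 0)) + cst (B⁻¹ * Cm) := by
      refine Matrix.ext fun i j => ?_
      exact map_add Polynomial.C _ _
    calc F = (Polynomial.X : Polynomial ℝ) • (F.map fun p => p.divX) +
        cst (F.map fun p => p.coeff 0) := h2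
      _ = (Polynomial.X : Polynomial ℝ) • cst Cm + RB B * ((Polynomial.X : Polynomial ℝ) • G) +
          cst (F.map fun p => p.coeff 0) := by
          rw [h, smul_add, Matrix.mul_smul]
      _ = _ := by
          rw [h5, h6, Matrix.mul_sub, Matrix.sub_mul, Matrix.one_mul]
          abel

lemma left_division' [Finite β] (B : Matrix α α ℝ) (hB : IsUnit B.det) (F : Matrix α β (Polynomial ℝ)) :
    ∃ (Cm : Matrix α β ℝ) (G : Matrix α β (Polynomial ℝ)), F = cst Cm + RB B * G := by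
  obtain ⟨n, hn⟩ : ∃ n, ∀ i j, (F i j).natDegree ≤ n := by
    have hf : (Set.range fun p : α × β => (F p.1 p.2).natDegree).Finite := Set.finite_range _
    obtain ⟨n, hn⟩ := hf.bddAbove
    exact ⟨n, fun i j => hn ⟨(i, j), rfl⟩⟩
  exact left_division B hB n F hn

lemma RB_transpose (B : Matrix α α ℝ) : (RB B)ᵀ = RB Bᵀ := by
  unfold RB
  rw [Matrix.transpose_sub, Matrix.transpose_one, Matrix.transpose_smul, Matrix.transpose_map]

/-- right division of rows by `1 - X B` -/
lemma right_division (B : Matrix α α ℝ) (hB : IsUnit B.det) (w : α → Polynomial ℝ) :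
    ∃ (y : α → ℝ) (g : α → Polynomial ℝ), w = (fun a => Polynomial.C (y a)) + g ᵥ* RB B := by
  obtain ⟨Cm, G, h⟩ := left_division' (β := Unit) Bᵀ (by rwa [Matrix.det_transpose])
    (Matrix.of fun i _ => w i)
  refine ⟨fun a => Cm a (), fun a => G a (), ?_⟩
  funext a
  have h1 := congrFun (congrFun h a) ()
  rw [Matrix.of_apply, Matrix.add_apply, Matrix.mul_apply] at h1
  rw [h1, Pi.add_apply]
  congr 1
  simp only [Matrix.vecMul, dotProduct]
  refine Finset.sum_congr rfl fun b _ => ?_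
  rw [← RB_transpose, Matrix.transpose_apply, mul_comm]

/-- the inverse of `1 - X B` -/
noncomputable def Geo (B : Matrix α α ℝ) : Matrix α α ℝ⟦X⟧ :=
  Matrix.of fun a b => PowerSeries.mk fun m => (B ^ m) a b

lemma coeff_Geo (B : Matrix α α ℝ) (a b : α) (m : ℕ) : coeff m (Geo B a b) = (B ^ m) a b := by
  simp [Geo]

lemma pp_RB (B : Matrix α α ℝ) :
    pp (RB B) = 1 - (X : ℝ⟦X⟧) • B.map (PowerSeries.C (R := ℝ)) := by
  refine Matrix.ext fun a b => ?_
  rw [pp_apply]
  simp only [RB, Matrix.sub_apply, Matrix.smul_apply, Matrix.map_apply, smul_eq_mul,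
    Polynomial.coe_sub, Polynomial.coe_mul, Polynomial.coe_X, Polynomial.coe_C]
  by_cases h : a = b
  · subst h; simp
  · simp [h]

lemma Geo_mul (B : Matrix α α ℝ) : Geo B * pp (RB B) = 1 := by
  rw [pp_RB, mul_sub, mul_one, Matrix.mul_smul]
  ext a b m
  rw [Matrix.sub_apply, Matrix.smul_apply, smul_eq_mul, map_sub, coeff_Geo]
  cases m with
  | zero =>
    rw [coeff_zero_X_mul, pow_zero, sub_zero, Matrix.one_apply, Matrix.one_apply]
    split_ifs <;> simp
  | succ m =>
    rw [coeff_succ_X_mul, Matrix.mul_apply, map_sum, pow_succ, Matrix.mul_apply]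
    simp only [Matrix.map_apply, coeff_mul_C, coeff_Geo, sub_self]
    rw [Matrix.one_apply]
    split_ifs <;> simp [coeff_one]

lemma mul_Geo (B : Matrix α α ℝ) : pp (RB B) * Geo B = 1 :=
  mul_eq_one_comm.1 (Geo_mul B)

/-- constant rows -/
noncomputable def cr (y : α → ℝ) : α → ℝ⟦X⟧ := fun a => PowerSeries.C (y a)

/-- polynomial rows -/
def IsPolyRow {α : Type*} (u : α → ℝ⟦X⟧) : Prop := ∃ v : α → Polynomial ℝ, u = fun a => (v a : ℝ⟦X⟧)

lemma IsPolyRow.vecMul {m k : Type*} [Fintype m] {u : m → ℝ⟦X⟧} (hu : IsPolyRow u)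
    (P : Matrix m k (Polynomial ℝ)) : IsPolyRow (u ᵥ* pp P) := by
  obtain ⟨v, rfl⟩ := hu
  refine ⟨v ᵥ* P, ?_⟩
  funext b
  simp only [Matrix.vecMul, dotProduct]
  rw [← Polynomial.coeToPowerSeries.ringHom_apply, map_sum]
  refine Finset.sum_congr rfl fun a _ => ?_
  rw [map_mul]
  rfl

lemma IsPolyRow.add {m : Type*} {u v : m → ℝ⟦X⟧} (hu : IsPolyRow u) (hv : IsPolyRow v) :
    IsPolyRow (u + v) := by
  obtain ⟨u, rfl⟩ := hu
  obtain ⟨v, rfl⟩ := hv
  refine ⟨u + v, ?_⟩
  funext b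
  simp

lemma IsPolyRow.neg {m : Type*} {u : m → ℝ⟦X⟧} (hu : IsPolyRow u) :
    IsPolyRow (-u) := by
  obtain ⟨u, rfl⟩ := hu
  refine ⟨-u, ?_⟩
  funext b
  simp

lemma IsPolyRow.cr (y : α → ℝ) : IsPolyRow (cr y) := ⟨fun a => Polynomial.C (y a), by
  funext a
  simp [MP699d82.cr]⟩

lemma IsPolyRow.bound {m : Type*} [Finite m] {u : m → ℝ⟦X⟧} (hu : IsPolyRow u) :
    ∃ N : ℕ, ∀ n, N ≤ n → ∀ a, coeff n (u a) = 0 := by
  obtain ⟨v, rfl⟩ := hu
  have hf : (Set.range fun p : m => (v p).natDegree).Finite := Set.finite_range _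
  obtain ⟨n, hn⟩ := hf.bddAbove
  refine ⟨n + 1, fun k hk a => ?_⟩
  rw [Polynomial.coeff_coe]
  refine Polynomial.coeff_eq_zero_of_natDegree_lt ?_
  have : (v a).natDegree ≤ n := hn ⟨a, rfl⟩
  omega

/-- the embedding -/
noncomputable def Jm (B : Matrix α α ℝ) (Cm : Matrix α β ℝ) (y : α → ℝ) : β → ℝ⟦X⟧ :=
  cr y ᵥ* (Geo B * pp (cst Cm))

lemma coeff_Jm (B : Matrix α α ℝ) (Cm : Matrix α β ℝ) (y : α → ℝ) (b : β) (m : ℕ) :
    coeff m (Jm B Cm y b) = (y ᵥ* (B ^ m * Cm)) b := by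
  simp only [Jm, cr, Matrix.vecMul, dotProduct]
  rw [map_sum]
  refine Finset.sum_congr rfl fun a _ => ?_
  rw [coeff_C_mul, Matrix.mul_apply, Matrix.mul_apply, map_sum]
  congr 1
  refine Finset.sum_congr rfl fun c _ => ?_
  rw [pp_apply]
  simp only [cst, Matrix.map_apply, Polynomial.coe_C, coeff_mul_C, coeff_Geo]

lemma sft_Jm [Fintype β] [DecidableEq β] (B : Matrix α α ℝ) (Cm : Matrix α β ℝ) (y : α → ℝ) :
    sft (Jm B Cm y) = Jm B Cm (y ᵥ* B) := by
  funext b
  ext m
  rw [coeff_sft, coeff_Jm, coeff_Jm, Matrix.vecMul_vecMul, ← Matrix.mul_assoc, ← pow_succ']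

/-- the data attached to a polynomial matrix equivalent to `QB` -/
structure Dat (B : Matrix α α ℝ) (Q : Matrix (α ⊕ κ) (α ⊕ κ) (Polynomial ℝ)) where
  Cm : Matrix α (α ⊕ κ) ℝ
  H : Matrix α (α ⊕ κ) (Polynomial ℝ)
  hH : cst Cm * Q = RB B * H
  poly : ∀ (n : ℕ) (u : α ⊕ κ → ℝ⟦X⟧), InS Q n u → ∃ y : α → ℝ, IsPolyRow (u - Jm B Cm y)
  inj : ∀ y : α → ℝ, Jm B Cm y = 0 → y = 0

lemma vecMul_split {m₁ m₂ k : Type*} [Fintype m₁] [Fintype m₂] {R : Type*} [NonUnitalNonAssocSemiring R]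
    (u : m₁ ⊕ m₂ → R) (P : Matrix (m₁ ⊕ m₂) k R) :
    u ᵥ* P = (u ∘ Sum.inl) ᵥ* (P.submatrix Sum.inl id) + (u ∘ Sum.inr) ᵥ* (P.submatrix Sum.inr id) := by
  funext b
  simp only [Matrix.vecMul, dotProduct, Pi.add_apply]
  rw [Fintype.sum_sum_type]
  rfl

lemma exists_dat (B : Matrix α α ℝ) (hB : IsUnit B.det) {Q : Matrix (α ⊕ κ) (α ⊕ κ) (Polynomial ℝ)}
    (hQ : Good (QB κ B) Q) : Nonempty (Dat B Q) := by
  obtain ⟨U, U', V, V', hU, hV, hQU⟩ := hQ
  have hU' : U' * U = 1 := mul_eq_one_comm.1 hU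
  have hV' : V' * V = 1 := mul_eq_one_comm.1 hV
  obtain ⟨Cm, G, hCG⟩ := left_division' B hB (U'.submatrix Sum.inl id)
  have h1 : U' * Q = QB κ B * V := by
    rw [hQU, ← Matrix.mul_assoc, ← Matrix.mul_assoc, hU', Matrix.one_mul]
  have h2 : (U'.submatrix Sum.inl id) * Q = RB B * (V.submatrix Sum.inl id) := by
    refine Matrix.ext fun i j => ?_
    have h3 := congrFun (congrFun h1 (Sum.inl i)) j
    rw [Matrix.mul_apply, Matrix.mul_apply] at h3
    rw [Matrix.mul_apply, Matrix.mul_apply]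
    simp only [Matrix.submatrix_apply, id]
    rw [h3, Fintype.sum_sum_type]
    simp [QB]
  have hppU : pp U * pp U' = 1 := by rw [← pp_mul, hU, pp_one]
  have hppU' : pp U' * pp U = 1 := by rw [← pp_mul, hU', pp_one]
  have hppV : pp V * pp V' = 1 := by rw [← pp_mul, hV, pp_one]
  have hC1 : pp (cst Cm) = pp (U'.submatrix Sum.inl id) - pp (RB B) * pp G := by
    rw [hCG]
    have : pp (cst Cm + RB B * G) = pp (cst Cm) + pp (RB B) * pp G := by
      rw [← pp_mul]
      refine Matrix.ext fun i j => ?_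
      rw [pp_apply, Matrix.add_apply, Polynomial.coe_add]
      rfl
    rw [this]; abel
  have hJ : ∀ y : α → ℝ, Jm B Cm y = (cr y ᵥ* Geo B) ᵥ* pp (U'.submatrix Sum.inl id) -
      cr y ᵥ* pp G := by
    intro y
    rw [Jm, hC1, Matrix.mul_sub, ← Matrix.mul_assoc, Geo_mul, Matrix.one_mul, Matrix.vecMul_sub,
      Matrix.vecMul_vecMul]
  refine ⟨⟨Cm, V.submatrix Sum.inl id - G * Q, ?_, ?_, ?_⟩⟩
  · have h4 : cst Cm = U'.submatrix Sum.inl id - RB B * G := by
      rw [hCG]; abel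
    rw [h4, Matrix.sub_mul, h2, Matrix.mul_sub, Matrix.mul_assoc]
  · intro n u hu
    -- the product is a polynomial row
    have hv : IsPolyRow (u ᵥ* pp Q) := by
      refine ⟨fun b => trunc n ((u ᵥ* pp Q) b), ?_⟩
      funext b
      ext m
      rw [Polynomial.coeff_coe, coeff_trunc]
      split_ifs with hm
      · rfl
      · exact hu m (by omega) b
    have hw := hv.vecMul V'
    have h5 : (u ᵥ* pp Q) ᵥ* pp V' = (u ᵥ* pp U) ᵥ* pp (QB κ B) := by
      rw [hQU, pp_mul, pp_mul, Matrix.vecMul_vecMul, Matrix.vecMul_vecMul, Matrix.mul_assoc, hppV,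
        Matrix.mul_one]
    rw [h5] at hw
    set z := u ᵥ* pp U with hz
    obtain ⟨w, hw⟩ := hw
    have hz1 : (z ∘ Sum.inl) ᵥ* pp (RB B) = fun a => (w (Sum.inl a) : ℝ⟦X⟧) := by
      funext a
      have h6 := congrFun hw (Sum.inl a)
      rw [← h6]
      simp only [Matrix.vecMul, dotProduct]
      rw [Fintype.sum_sum_type]
      simp [QB, pp_apply]
    have hz2 : (z ∘ Sum.inr) = fun a => (w (Sum.inr a) : ℝ⟦X⟧) := by
      funext a
      have h6 := congrFun hw (Sum.inr a)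
      rw [← h6]
      simp only [Matrix.vecMul, dotProduct]
      rw [Fintype.sum_sum_type]
      simp only [QB, pp_apply, Matrix.fromBlocks_apply₁₂, Matrix.fromBlocks_apply₂₂,
        Matrix.zero_apply, Polynomial.coe_zero, mul_zero, Finset.sum_const_zero, zero_add]
      rw [Finset.sum_eq_single a]
      · rw [Matrix.one_apply_eq, Polynomial.coe_one, mul_one]
        rfl
      · intro b _ hb
        rw [Matrix.one_apply_ne hb, Polynomial.coe_zero, mul_zero]
      · intro h; exact absurd (Finset.mem_univ _) h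
    obtain ⟨y, g, hyg⟩ := right_division B hB (w ∘ Sum.inl)
    refine ⟨y, ?_⟩
    have h7 : (z ∘ Sum.inl) ᵥ* pp (RB B) = cr y + (fun a => (g a : ℝ⟦X⟧)) ᵥ* pp (RB B) := by
      rw [hz1]
      funext a
      have h8 := congrFun hyg a
      simp only [Function.comp] at h8
      rw [h8, Pi.add_apply, Pi.add_apply, Polynomial.coe_add, Polynomial.coe_C]
      congr 1
      simp only [Matrix.vecMul, dotProduct]
      rw [← Polynomial.coeToPowerSeries.ringHom_apply, map_sum]
      refine Finset.sum_congr rfl fun b _ => ?_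
      rw [map_mul]
      rfl
    have h9 : (z ∘ Sum.inl) = cr y ᵥ* Geo B + (fun a => (g a : ℝ⟦X⟧)) := by
      have h10 := congrArg (fun t => t ᵥ* Geo B) h7
      simp only [Matrix.add_vecMul, Matrix.vecMul_vecMul, mul_Geo, Matrix.vecMul_one] at h10
      exact h10
    have h11 : u = (z ∘ Sum.inl) ᵥ* pp (U'.submatrix Sum.inl id) +
        (z ∘ Sum.inr) ᵥ* pp (U'.submatrix Sum.inr id) := by
      have h12 : u = z ᵥ* pp U' := by
        rw [hz, Matrix.vecMul_vecMul, hppU, Matrix.vecMul_one]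
      calc u = z ᵥ* pp U' := h12
        _ = _ := vecMul_split z (pp U')
    have h13 : u - Jm B Cm y = (fun a => (g a : ℝ⟦X⟧)) ᵥ* pp (U'.submatrix Sum.inl id) +
        cr y ᵥ* pp G + (z ∘ Sum.inr) ᵥ* pp (U'.submatrix Sum.inr id) := by
      rw [hJ]
      conv_lhs => rw [h11, h9, Matrix.add_vecMul]
      abel
    rw [h13]
    refine ((IsPolyRow.vecMul ⟨g, rfl⟩ _).add ((IsPolyRow.cr y).vecMul _)).add (IsPolyRow.vecMul ?_ _)
    exact ⟨_, hz2⟩
  · intro y hy
    rw [hJ] at hy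
    set z1 := cr y ᵥ* Geo B with hz1
    have h14 : z1 ᵥ* pp (U'.submatrix Sum.inl id) = cr y ᵥ* pp G := sub_eq_zero.1 hy
    set z : α ⊕ κ → ℝ⟦X⟧ := Sum.elim z1 0 with hz
    have h15 : IsPolyRow (z ᵥ* pp U') := by
      rw [vecMul_split z (pp U')]
      have h16 : (z ∘ Sum.inl) = z1 := by rw [hz]; exact Sum.elim_comp_inl _ _
      have h17 : (z ∘ Sum.inr) = 0 := by rw [hz]; exact Sum.elim_comp_inr _ _
      rw [h16, h17, Matrix.zero_vecMul, add_zero]
      have h18 : (pp U').submatrix Sum.inl id = pp (U'.submatrix Sum.inl id) := rfl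
      rw [h18, h14]
      exact (IsPolyRow.cr y).vecMul _
    have h19 : IsPolyRow z := by
      have h20 := h15.vecMul U
      rwa [Matrix.vecMul_vecMul, hppU', Matrix.vecMul_one] at h20
    obtain ⟨N, hN⟩ := h19.bound
    have h21 : y ᵥ* (B ^ N) = 0 := by
      funext a
      have h22 := hN N le_rfl (Sum.inl a)
      rw [hz, Sum.elim_inl, hz1] at h22
      simp only [Matrix.vecMul, dotProduct, cr] at h22 ⊢
      rw [map_sum] at h22
      simp only [coeff_C_mul, coeff_Geo] at h22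
      exact h22
    have h23 : IsUnit (B ^ N).det := by
      rw [Matrix.det_pow]; exact hB.pow N
    have h24 := congrArg (fun t => t ᵥ* (B ^ N)⁻¹) h21
    simp only [Matrix.vecMul_vecMul, Matrix.mul_nonsing_inv _ h23, Matrix.vecMul_one,
      Matrix.zero_vecMul] at h24
    exact h24

end Pool.Agent.Lib.MP699d82
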