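import Mathlib
import Pool.Agent.Lib.MP_699d82_al.Real

set_option autoImplicit false
set_option linter.unusedSectionVars false

namespace Pool.Agent.Lib.MP699d82

open PowerSeries Filter Topology Matrix

variable {α : Type*} [Fintype α] [DecidableEq α]

lemma deriv_prod {ι : Type*} [DecidableEq ι] (s : Finset ι) (f : ι → ℝ⟦X⟧) :
    derivative ℝ (∏ i ∈ s, f i) = ∑ i ∈ s, (∏ j ∈ s.erase i, f j) * derivative ℝ (f i) := by
  induction s using Finset.induction_on with
  | empty => simp
  | insert a s ha ih =>
    rw [Finset.prod_insert ha, Derivation.leibniz, ih, Finset.sum_insert ha,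
      Finset.erase_insert ha, smul_eq_mul, smul_eq_mul, add_comm, mul_comm (∏ j ∈ s, f j) _,
      Finset.mul_sum]
    rw [mul_comm (derivative ℝ (f a))]
    congr 1
    refine Finset.sum_congr rfl fun i hi => ?_
    have hia : i ≠ a := fun h => ha (h ▸ hi)
    rw [Finset.erase_insert_of_ne hia.symm, Finset.prod_insert (by
      rw [Finset.mem_erase, not_and]
      exact fun _ => ha), mul_assoc]

lemma deriv_det (F : Matrix α α ℝ⟦X⟧) :
    derivative ℝ F.det = (F.adjugate * dM F).trace := by
  have h1 : derivative ℝ F.det = ∑ i, (F.updateCol i (fun k => derivative ℝ (F k i))).det := by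
    simp only [Matrix.det_apply]
    rw [map_sum, Finset.sum_comm]
    refine Finset.sum_congr rfl fun σ _ => ?_
    rw [Units.smul_def, map_zsmul, deriv_prod, Finset.smul_sum]
    refine Finset.sum_congr rfl fun i _ => ?_
    rw [Units.smul_def]
    congr 1
    rw [← Finset.mul_prod_erase Finset.univ _ (Finset.mem_univ i), mul_comm]
    congr 1
    · rw [Matrix.updateCol_self]
    · refine Finset.prod_congr rfl fun j hj => ?_
      rw [Matrix.updateCol_ne (Finset.ne_of_mem_erase hj)]
  rw [h1, Matrix.trace]
  refine Finset.sum_congr rfl fun i _ => ?_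
  rw [← Matrix.cramer_apply, Matrix.cramer_eq_adjugate_mulVec, Matrix.diag_apply, Matrix.mul_apply]
  rfl

/-- the generating series of the traces -/
noncomputable def trS (B : Matrix α α ℝ) : ℝ⟦X⟧ := PowerSeries.mk fun m => (B ^ (m + 1)).trace

lemma det_RB_eq (B : Matrix α α ℝ) : ((RB B).det : ℝ⟦X⟧) = E (trS B) := by
  have h0 : ((RB B).det : ℝ⟦X⟧) = (pp (RB B)).det := by
    rw [← Polynomial.coeToPowerSeries.ringHom_apply, RingHom.map_det]
    rfl
  rw [h0]
  refine E_eq ?_ ?_
  · rw [deriv_det]
    have h1 : (pp (RB B)).adjugate = (pp (RB B)).det • Geo B := by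
      calc (pp (RB B)).adjugate = (pp (RB B)).adjugate * (pp (RB B) * Geo B) := by
            rw [mul_Geo, mul_one]
        _ = _ := by
            rw [← Matrix.mul_assoc, Matrix.adjugate_mul, Matrix.smul_mul, Matrix.one_mul]
    have h2 : dM (pp (RB B)) = - B.map (PowerSeries.C (R := ℝ)) := by
      rw [pp_RB]
      refine Matrix.ext fun i j => ?_
      show derivative ℝ ((1 - (X : ℝ⟦X⟧) • B.map (PowerSeries.C (R := ℝ))) i j) = _
      rw [Matrix.sub_apply, Matrix.smul_apply, Matrix.map_apply, Matrix.neg_apply, Matrix.map_apply,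
        map_sub, smul_eq_mul]
      have h3 : derivative ℝ ((1 : Matrix α α ℝ⟦X⟧) i j) = 0 := by
        rw [Matrix.one_apply]
        split_ifs <;> simp
      rw [h3, Derivation.leibniz]
      have h4 : derivative ℝ (X : ℝ⟦X⟧) = 1 := derivative_X
      have h5 : derivative ℝ (PowerSeries.C (B i j)) = 0 := derivative_C
      rw [h4, h5, smul_zero, zero_add, smul_eq_mul, mul_one, zero_sub]
    rw [h1, h2, Matrix.smul_mul, Matrix.mul_neg, smul_neg, Matrix.trace_neg, Matrix.trace_smul,
      smul_eq_mul, mul_comm]
    congr 2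
    ext m
    rw [trS, coeff_mk, Matrix.trace, map_sum, Matrix.trace]
    refine Finset.sum_congr rfl fun i _ => ?_
    rw [Matrix.diag_apply, Matrix.diag_apply, Matrix.mul_apply, pow_succ, Matrix.mul_apply, map_sum]
    refine Finset.sum_congr rfl fun j _ => ?_
    rw [Matrix.map_apply, coeff_mul_C, coeff_Geo]
  · have h6 : (pp (RB B)).map (constantCoeff (R := ℝ)) = 1 := by
      refine Matrix.ext fun i j => ?_
      rw [Matrix.map_apply, pp_RB, Matrix.sub_apply, Matrix.smul_apply, Matrix.map_apply, map_sub,
        smul_eq_mul, map_mul, constantCoeff_X, zero_mul, sub_zero, Matrix.one_apply, Matrix.one_apply]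
      split_ifs <;> simp
    rw [coeff_zero_eq_constantCoeff_apply, RingHom.map_det, RingHom.mapMatrix_apply, h6,
      Matrix.det_one]

end Pool.Agent.Lib.MP699d82
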