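import Mathlib
import Pool.Agent.Lib.MP_699d82_al.Block

set_option autoImplicit false
set_option linter.unusedSectionVars false

namespace Pool.Agent.Lib.MP699d82

open PowerSeries Filter Topology Matrix

section
variable {m : Type*} [Fintype m] [DecidableEq m]

lemma pow_nonneg' {A : Matrix m m ℝ} (hA : ∀ i j, 0 ≤ A i j) (n : ℕ) : ∀ i j, 0 ≤ (A ^ n) i j := by
  induction n with
  | zero =>
    intro i j
    rw [pow_zero, Matrix.one_apply]
    split_ifs <;> norm_num
  | succ n ih =>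
    intro i j
    rw [pow_succ, Matrix.mul_apply]
    exact Finset.sum_nonneg fun k _ => mul_nonneg (ih i k) (hA k j)

lemma pos_trans {A : Matrix m m ℝ} (hA : ∀ i j, 0 ≤ A i j) {n₁ n₂ : ℕ} {x y z : m}
    (h1 : 0 < (A ^ n₁) x y) (h2 : 0 < (A ^ n₂) y z) : 0 < (A ^ (n₁ + n₂)) x z := by
  rw [pow_add, Matrix.mul_apply]
  refine lt_of_lt_of_le (mul_pos h1 h2)
    (Finset.single_le_sum (f := fun k => (A ^ n₁) x k * (A ^ n₂) k z)
      (fun k _ => mul_nonneg (pow_nonneg' hA n₁ x k) (pow_nonneg' hA n₂ k z)) (Finset.mem_univ y))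

lemma pos_zero {A : Matrix m m ℝ} (x : m) : 0 < (A ^ 0) x x := by
  rw [pow_zero, Matrix.one_apply_eq]; norm_num

lemma pos_mul_loop {A : Matrix m m ℝ} (hA : ∀ i j, 0 ≤ A i j) {n : ℕ} {x : m}
    (h : 0 < (A ^ n) x x) (t : ℕ) : 0 < (A ^ (t * n)) x x := by
  induction t with
  | zero => rw [Nat.zero_mul]; exact pos_zero x
  | succ t ih =>
    rw [Nat.succ_mul]
    exact pos_trans hA ih h

end

variable {ι : Type*} [Fintype ι] [DecidableEq ι]

lemma Mm_apply (n : ℕ) (Y : Matrix ι ι ℝ⟦X⟧) (i j : Fin n) (a b : ι) :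
    Mm n Y (i, a) (j, b) = (1 / (n : ℝ)) * (if (i : ℕ) ≤ j then coeff (j - i : ℕ) (Y a b) else
    if (i : ℕ) = j + 1 ∧ a = b then ((j : ℕ) + 1 : ℝ) else 0) := rfl

/-- the block matrix is nonnegative -/
lemma Mm_nonneg (n : ℕ) (Y : Matrix ι ι ℝ⟦X⟧) (hY : ∀ m a b, 0 ≤ coeff m (Y a b)) :
    ∀ x y, 0 ≤ Mm n Y x y := by
  rintro ⟨i, a⟩ ⟨j, b⟩
  rw [Mm_apply]
  refine mul_nonneg (by positivity) ?_
  split_ifs
  · exact hY _ _ _
  · positivity
  · exact le_rfl

/-- the block matrix is primitive -/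
theorem Mm_primitive (n K : ℕ) (hn : K + 2 ≤ n) (Y : Matrix ι ι ℝ⟦X⟧)
    (hY : ∀ m a b, 0 ≤ coeff m (Y a b)) (hY' : ∀ m a b, K ≤ m → 0 < coeff m (Y a b)) :
    ∃ N : ℕ, 0 < N ∧ ∀ x y, 0 < ((Mm n Y) ^ N) x y := by
  have hn0 : 0 < n := by omega
  have hA := Mm_nonneg n Y hY
  -- down steps
  have hdown : ∀ (d : ℕ) (i j : Fin n) (a : ι), (i : ℕ) = j + d → 0 < ((Mm n Y) ^ d) (i, a) (j, a) := by
    intro d
    induction d with
    | zero =>
      intro i j a h
      have : i = j := Fin.ext (by omega)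
      rw [this]
      exact pos_zero _
    | succ d ih =>
      intro i j a h
      have hj : (j : ℕ) + 1 < n := by omega
      have h1 := ih i ⟨j + 1, hj⟩ a (by simp only; omega)
      have h2 : 0 < ((Mm n Y) ^ 1) ((⟨j + 1, hj⟩ : Fin n), a) (j, a) := by
        rw [pow_one, Mm_apply, if_neg (by simp only; omega), if_pos ⟨by simp only, rfl⟩]
        positivity
      exact pos_trans hA h1 h2
  -- jumps
  have hjump : ∀ (i j : Fin n) (a b : ι), (i : ℕ) + K ≤ j → 0 < ((Mm n Y) ^ 1) (i, a) (j, b) := by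
    intro i j a b h
    rw [pow_one, Mm_apply, if_pos (by omega)]
    have := hY' (j - i : ℕ) a b (by omega)
    positivity
  set o : Fin n := ⟨0, hn0⟩ with ho
  have hl1 : ∀ a, 0 < ((Mm n Y) ^ (K + 1)) (o, a) (o, a) := by
    intro a
    have h1 := hjump o ⟨K, by omega⟩ a a (by simp [ho])
    have h2 := hdown K ⟨K, by omega⟩ o a (by simp [ho])
    have := pos_trans hA h1 h2
    rwa [add_comm] at this
  have hl2 : ∀ a, 0 < ((Mm n Y) ^ (K + 2)) (o, a) (o, a) := by
    intro a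
    have h1 := hjump o ⟨K + 1, by omega⟩ a a (by simp [ho])
    have h2 := hdown (K + 1) ⟨K + 1, by omega⟩ o a (by simp [ho])
    have := pos_trans hA h1 h2
    rwa [show 1 + (K + 1) = K + 2 by ring] at this
  have hl : ∀ a t, (K + 1) * (K + 1) ≤ t → 0 < ((Mm n Y) ^ t) (o, a) (o, a) := by
    intro a t ht
    obtain ⟨x, y, hxy⟩ : ∃ x y, t = x * (K + 1) + y * (K + 2) := by
      have h1 := Nat.div_add_mod t (K + 1)
      have h2 := Nat.mod_lt t (Nat.succ_pos K)
      have h3 : K + 1 ≤ t / (K + 1) := by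
        rw [Nat.le_div_iff_mul_le (Nat.succ_pos K)]
        exact ht
      refine ⟨t / (K + 1) - t % (K + 1), t % (K + 1), ?_⟩
      have h4 : t % (K + 1) ≤ t / (K + 1) := by
        have : t % (K + 1) < K + 1 := h2
        omega
      obtain ⟨s, hs⟩ := Nat.exists_eq_add_of_le h4
      have h5 : t / (K + 1) - t % (K + 1) = s := by omega
      rw [h5]
      calc t = (K + 1) * (t / (K + 1)) + t % (K + 1) := h1.symm
        _ = (K + 1) * (t % (K + 1) + s) + t % (K + 1) := by rw [← hs]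
        _ = s * (K + 1) + t % (K + 1) * (K + 2) := by ring
    rw [hxy]
    exact pos_trans hA (pos_mul_loop hA (hl1 a) x) (pos_mul_loop hA (hl2 a) y)
  refine ⟨2 * n + (K + 1) * (K + 1), by positivity, ?_⟩
  rintro ⟨i, a⟩ ⟨j, b⟩
  have h1 := hdown i i o a (by simp [ho])
  set last : Fin n := ⟨n - 1, by omega⟩ with hlast
  have h2 := hjump o last a b (by simp only [ho, hlast]; omega)
  have h3 := hdown (n - 1 - j) last j b (by simp only [hlast]; omega)
  have hi := i.2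
  have hj := j.2
  have h4 := hl a (2 * n + (K + 1) * (K + 1) - (i + 1 + (n - 1 - j))) (by omega)
  have h5 := pos_trans hA (pos_trans hA (pos_trans hA h1 h4) h2) h3
  have h6 : ((i : ℕ) + (2 * n + (K + 1) * (K + 1) - (i + 1 + (n - 1 - j))) + 1 + (n - 1 - j)) =
      2 * n + (K + 1) * (K + 1) := by omega
  rw [h6] at h5
  exact h5

end Pool.Agent.Lib.MP699d82
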