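import Mathlib

set_option autoImplicit false
set_option linter.unusedSectionVars false

namespace Pool.Agent.Lib.MP699d82

open Matrix

lemma vecMul_pow_apply {m : Type*} [Fintype m] [DecidableEq m] (T : Matrix m m ℝ) (N : ℕ)
    (w : m → ℝ) : ((T.vecMulLinear : Module.End ℝ (m → ℝ)) ^ N) w = w ᵥ* T ^ N := by
  induction N generalizing w with
  | zero => simp
  | succ n ih =>
    rw [pow_succ, pow_succ', ← Matrix.vecMul_vecMul, ← ih]
    rfl

/-- the Fitting decomposition in matrix form -/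
theorem fitting {k : ℕ} {m : Type*} [Fintype m] [DecidableEq m] (T : Matrix m m ℝ)
    (B : Matrix (Fin k) (Fin k) ℝ) (hB : IsUnit B.det) (J : (Fin k → ℝ) →ₗ[ℝ] (m → ℝ))
    (hJ : Function.Injective J) (hJT : ∀ y, J (y ᵥ* B) = J y ᵥ* T)
    (hw : ∀ w : m → ℝ, ∃ (y : Fin k → ℝ) (N : ℕ), (w - J y) ᵥ* T ^ N = 0) :
    ∃ (p : ℕ) (e : m ≃ Fin k ⊕ Fin p) (N : Matrix (Fin p) (Fin p) ℝ)
      (P P' : Matrix (Fin k ⊕ Fin p) (Fin k ⊕ Fin p) ℝ),
      IsNilpotent N ∧ P * P' = 1 ∧ P * (Matrix.reindex e e T) * P' = Matrix.fromBlocks B 0 0 N := by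
  classical
  set f : Module.End ℝ (m → ℝ) := T.vecMulLinear with hf
  set D := Module.finrank ℝ (m → ℝ) with hD
  set K := LinearMap.ker (f ^ D) with hK
  have hJN : ∀ (N : ℕ) (y : Fin k → ℝ), (J y) ᵥ* T ^ N = J (y ᵥ* B ^ N) := by
    intro N
    induction N with
    | zero => intro y; simp
    | succ n ih =>
      intro y
      rw [pow_succ, ← Matrix.vecMul_vecMul, ih, ← hJT, Matrix.vecMul_vecMul, ← pow_succ]
  have hdis : Disjoint (LinearMap.range J) K := by
    rw [Submodule.disjoint_def]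
    intro x hx hxK
    obtain ⟨y, rfl⟩ := hx
    rw [hK, LinearMap.mem_ker, hf, vecMul_pow_apply, hJN] at hxK
    have h1 : y ᵥ* B ^ D = 0 := hJ (by rw [hxK, map_zero])
    have h23 : IsUnit (B ^ D).det := by
      rw [Matrix.det_pow]; exact hB.pow D
    have h24 := congrArg (fun t => t ᵥ* (B ^ D)⁻¹) h1
    simp only [Matrix.vecMul_vecMul, Matrix.mul_nonsing_inv _ h23, Matrix.vecMul_one,
      Matrix.zero_vecMul] at h24
    rw [h24, map_zero]
  have hcod : Codisjoint (LinearMap.range J) K := by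
    rw [codisjoint_iff, eq_top_iff]
    intro w _
    obtain ⟨y, N, h⟩ := hw w
    rw [Submodule.mem_sup]
    refine ⟨J y, ⟨y, rfl⟩, w - J y, ?_, by abel⟩
    rw [hK]
    refine Module.End.ker_pow_le_ker_pow_finrank f N ?_
    rw [LinearMap.mem_ker, hf, vecMul_pow_apply]
    exact h
  have hcompl : IsCompl (LinearMap.range J) K := ⟨hdis, hcod⟩
  have hinv : ∀ x ∈ K, f x ∈ K := by
    intro x hx
    rw [hK, LinearMap.mem_ker] at hx ⊢
    have : (f ^ D) (f x) = f ((f ^ D) x) := by
      rw [← Module.End.mul_apply, ← pow_succ, pow_succ', Module.End.mul_apply]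
    rw [this, hx, map_zero]
  set p := Module.finrank ℝ K with hp
  set kb : Module.Basis (Fin p) ℝ K := Module.finBasis ℝ K with hkb
  set jb : Module.Basis (Fin k) ℝ (LinearMap.range J) :=
    (Pi.basisFun ℝ (Fin k)).map (LinearEquiv.ofInjective J hJ) with hjb
  set bas : Module.Basis (Fin k ⊕ Fin p) ℝ (m → ℝ) :=
    (jb.prod kb).map (Submodule.prodEquivOfIsCompl _ _ hcompl) with hbas
  have hbl : ∀ i, bas (Sum.inl i) = J (Pi.single i 1) := by
    intro i
    rw [hbas, Module.Basis.map_apply]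
    simp [hjb]
  have hbr : ∀ i, bas (Sum.inr i) = (kb i : m → ℝ) := by
    intro i
    rw [hbas, Module.Basis.map_apply]
    simp
  set e : m ≃ Fin k ⊕ Fin p := (Pi.basisFun ℝ m).indexEquiv bas with he
  set M1 : Matrix m (Fin k ⊕ Fin p) ℝ := (Pi.basisFun ℝ m).toMatrix bas with hM1
  set M2 : Matrix (Fin k ⊕ Fin p) m ℝ := bas.toMatrix (Pi.basisFun ℝ m) with hM2
  have h21 : M2 * M1 = 1 := Module.Basis.toMatrix_mul_toMatrix_flip _ _
  set g : Module.End ℝ K := f.restrict hinv with hg
  set N : Matrix (Fin p) (Fin p) ℝ := (LinearMap.toMatrixAlgEquiv kb g)ᵀ with hN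
  have hgn : g ^ D = 0 := by
    ext1 x
    rw [hg, Module.End.pow_restrict D hinv]
    ext1
    rw [LinearMap.coe_restrict_apply]
    have h7 : (f ^ D) (x : m → ℝ) = 0 := LinearMap.mem_ker.1 x.2
    rw [h7]
    rfl
  refine ⟨p, e, N, M1ᵀ.submatrix id e.symm, M2ᵀ.submatrix e.symm id, ⟨D, ?_⟩, ?_, ?_⟩
  · rw [hN, ← Matrix.transpose_pow, ← map_pow, hgn, map_zero, Matrix.transpose_zero]
  · rw [Matrix.submatrix_mul_equiv, ← Matrix.transpose_mul, h21, Matrix.transpose_one]
    ext i j
    rfl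
  · have h3 : M1ᵀ * T = Matrix.fromBlocks B 0 0 N * M1ᵀ := by
      have hrow : ∀ i, M1ᵀ i = bas i := by
        intro i
        funext j
        rw [Matrix.transpose_apply, hM1, Module.Basis.toMatrix_apply, Pi.basisFun_repr]
      have hl : ∀ i, (M1ᵀ * T) i = bas i ᵥ* T := by
        intro i
        rw [← hrow i]
        rfl
      have hr : ∀ i, (Matrix.fromBlocks B 0 0 N * M1ᵀ) i = ∑ l, (Matrix.fromBlocks B 0 0 N) i l • bas l := by
        intro i
        funext j
        rw [Matrix.mul_apply, Finset.sum_apply]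
        refine Finset.sum_congr rfl fun l _ => ?_
        rw [Pi.smul_apply, smul_eq_mul, ← hrow l]
      funext i
      rw [hl, hr, Fintype.sum_sum_type]
      rcases i with i | i
      · simp only [Matrix.fromBlocks_apply₁₁, Matrix.fromBlocks_apply₁₂, Matrix.zero_apply,
          zero_smul, Finset.sum_const_zero, add_zero]
        rw [hbl, ← hJT, Matrix.single_one_vecMul]
        simp only [hbl]
        simp only [← map_smul]
        rw [← map_sum]
        congr 1
        funext j
        rw [Finset.sum_apply]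
        simp only [Pi.smul_apply, smul_eq_mul, Pi.single_apply, mul_ite, mul_one, mul_zero]
        rw [Finset.sum_ite_eq, if_pos (Finset.mem_univ _)]
        rfl
      · simp only [Matrix.fromBlocks_apply₂₁, Matrix.fromBlocks_apply₂₂, Matrix.zero_apply,
          zero_smul, Finset.sum_const_zero, zero_add]
        rw [hbr]
        simp only [hbr]
        have h4 : ((kb i : m → ℝ) ᵥ* T) = ((g (kb i) : K) : m → ℝ) := rfl
        rw [h4, ← kb.sum_repr (g (kb i))]
        rw [AddSubmonoidClass.coe_finsetSum]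
        refine Finset.sum_congr rfl fun l _ => ?_
        rw [hN, Matrix.transpose_apply, LinearMap.toMatrixAlgEquiv_apply]
        rfl
    have h5 : M1ᵀ.submatrix id e.symm * (Matrix.reindex e e T) = (M1ᵀ * T).submatrix id e.symm := by
      rw [Matrix.reindex_apply, Matrix.submatrix_mul_equiv]
    have h6 : (M1ᵀ * T).submatrix id e.symm * M2ᵀ.submatrix e.symm id = (M1ᵀ * T * M2ᵀ) := by
      rw [Matrix.submatrix_mul_equiv, Matrix.submatrix_id_id]
    rw [h5, h6, h3, Matrix.mul_assoc, ← Matrix.transpose_mul, h21, Matrix.transpose_one,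
      Matrix.mul_one]

end Pool.Agent.Lib.MP699d82
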