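import Mathlib
import Pool.Agent.Lib.MP_699d82_al.Real
import Pool.Agent.Lib.MP_699d82_al.Fitting

set_option autoImplicit false
set_option linter.unusedSectionVars false

namespace Pool.Agent.Lib.MP699d82

open PowerSeries Filter Topology Matrix

variable {ι : Type*} [Fintype ι] [DecidableEq ι]

lemma tau_add (n : ℕ) (u v : ι → ℝ⟦X⟧) : tau n (u + v) = tau n u + tau n v := by
  funext a
  ext m
  rw [coeff_tau, Pi.add_apply, Pi.add_apply, map_add, map_add, coeff_tau, coeff_tau, mul_add]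

lemma tau_smul (n : ℕ) (c : ℝ) (u : ι → ℝ⟦X⟧) : tau n (c • u) = c • tau n u := by
  funext a
  ext m
  rw [coeff_tau, Pi.smul_apply, Pi.smul_apply, coeff_smul, coeff_smul, coeff_tau, smul_eq_mul,
    smul_eq_mul]
  ring

/-- `SS` as a linear map -/
noncomputable def SSl (Q : Matrix ι ι (Polynomial ℝ)) (n : ℕ) : (ι → ℝ⟦X⟧) →ₗ[ℝ] (Fin n × ι → ℝ) where
  toFun := SS Q n
  map_add' u v := by
    funext p
    simp only [SS, tau_add, Matrix.add_vecMul, Pi.add_apply, map_add]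
  map_smul' c u := by
    funext p
    simp only [SS, tau_smul, Matrix.smul_vecMul, Pi.smul_apply, coeff_smul, smul_eq_mul,
      RingHom.id_apply]

variable {α κ β : Type*} [Fintype α] [DecidableEq α] [Fintype κ] [DecidableEq κ]

lemma cr_add (y z : α → ℝ) : cr (y + z) = cr y + cr z := by
  funext a
  simp [cr]

lemma cr_smul (c : ℝ) (y : α → ℝ) : cr (c • y) = c • cr y := by
  funext a
  simp [cr, PowerSeries.smul_eq_C_mul]

/-- the embedding as a linear map -/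
noncomputable def Jl (B : Matrix α α ℝ) (Cm : Matrix α β ℝ) : (α → ℝ) →ₗ[ℝ] (β → ℝ⟦X⟧) where
  toFun := Jm B Cm
  map_add' u v := by
    simp only [Jm, cr_add, Matrix.add_vecMul]
  map_smul' c u := by
    simp only [Jm, cr_smul, Matrix.smul_vecMul, RingHom.id_apply]

lemma iter_sft (u : ι → ℝ⟦X⟧) (N : ℕ) (a : ι) (m : ℕ) :
    coeff m ((sft^[N]) u a) = coeff (m + N) (u a) := by
  induction N generalizing m with
  | zero => rfl
  | succ n ih =>
    rw [Function.iterate_succ_apply', coeff_sft, ih]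
    congr 1
    ring_nf

theorem realize {k : ℕ} (B : Matrix (Fin k) (Fin k) ℝ) (hB : IsUnit B.det)
    {Q : Matrix (Fin k ⊕ κ) (Fin k ⊕ κ) (Polynomial ℝ)} (hQ : Good (QB κ B) Q)
    (hQ1 : ∀ a b, (Q a b).coeff 0 = if a = b then 1 else 0) :
    ∃ n0 : ℕ, ∀ n, n0 ≤ n → 0 < n → ∀ Y, IsGen (Fn Q n) Y →
    ∃ (p : ℕ) (e : Fin n × (Fin k ⊕ κ) ≃ Fin k ⊕ Fin p) (N : Matrix (Fin p) (Fin p) ℝ)
      (P P' : Matrix (Fin k ⊕ Fin p) (Fin k ⊕ Fin p) ℝ),
      IsNilpotent N ∧ P * P' = 1 ∧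
      P * (Matrix.reindex e e (Mm n Y)) * P' = Matrix.fromBlocks B 0 0 N := by
  obtain ⟨dat⟩ := exists_dat (κ := κ) B hB hQ
  obtain ⟨n1, hn1⟩ : ∃ n, ∀ i j, (Q i j).natDegree ≤ n := by
    have hf : (Set.range fun p : (Fin k ⊕ κ) × (Fin k ⊕ κ) => (Q p.1 p.2).natDegree).Finite :=
      Set.finite_range _
    obtain ⟨n, hn⟩ := hf.bddAbove
    exact ⟨n, fun i j => hn ⟨(i, j), rfl⟩⟩
  obtain ⟨n2, hn2⟩ : ∃ n, ∀ i j, (dat.H i j).natDegree ≤ n := by
    have hf : (Set.range fun p : (Fin k) × (Fin k ⊕ κ) => (dat.H p.1 p.2).natDegree).Finite :=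
      Set.finite_range _
    obtain ⟨n, hn⟩ := hf.bddAbove
    exact ⟨n, fun i j => hn ⟨(i, j), rfl⟩⟩
  refine ⟨n1 + n2 + 1, fun n hn hn0 Y hY => ?_⟩
  have hdeg : DegLE Q n := fun a b => le_trans (hn1 a b) (by omega)
  have hJS : ∀ y, InS Q n (Jm B dat.Cm y) := by
    intro y m hm b
    have h1 : Jm B dat.Cm y ᵥ* pp Q = cr y ᵥ* pp dat.H := by
      rw [Jm, Matrix.vecMul_vecMul, Matrix.mul_assoc, ← pp_mul, dat.hH, pp_mul, ← Matrix.mul_assoc,
        Geo_mul, Matrix.one_mul]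
    rw [h1]
    simp only [Matrix.vecMul, dotProduct, cr]
    rw [map_sum]
    refine Finset.sum_eq_zero fun a _ => ?_
    rw [coeff_C_mul, coeff_pp, Polynomial.coeff_eq_zero_of_natDegree_lt, mul_zero]
    have := hn2 a b
    omega
  refine fitting (Mm n Y) B hB ((SSl Q n).comp (Jl B dat.Cm)) ?_ ?_ ?_
  · intro y z h
    have h1 : Jm B dat.Cm y = Jm B dat.Cm z := SS_inj hQ1 hn0 (hJS y) (hJS z) h
    have h2 : Jm B dat.Cm (y - z) = 0 := by
      have h3 := map_sub (Jl B dat.Cm) y z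
      have h4 : Jl B dat.Cm y = Jl B dat.Cm z := h1
      rw [h4, sub_self] at h3
      exact h3
    exact sub_eq_zero.1 (dat.inj _ h2)
  · intro y
    show SS Q n (Jm B dat.Cm (y ᵥ* B)) = SS Q n (Jm B dat.Cm y) ᵥ* Mm n Y
    rw [← sft_Jm, SS_sft hn0 hY (hJS y)]
  · intro w
    obtain ⟨u, hu, rfl⟩ := SS_surj hQ1 hn0 w
    obtain ⟨y, hy⟩ := dat.poly n u hu
    obtain ⟨N, hN⟩ := hy.bound
    refine ⟨y, N, ?_⟩
    have h1 : ∀ (v : Fin k ⊕ κ → ℝ⟦X⟧), InS Q n v → ∀ N, SS Q n v ᵥ* (Mm n Y) ^ N = SS Q n ((sft^[N]) v) ∧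
        InS Q n ((sft^[N]) v) := by
      intro v hv N
      induction N with
      | zero => exact ⟨by simp, hv⟩
      | succ N ih =>
        refine ⟨?_, ?_⟩
        · rw [pow_succ, ← Matrix.vecMul_vecMul, ih.1, ← SS_sft hn0 hY ih.2, Function.iterate_succ_apply']
        · rw [Function.iterate_succ_apply']
          exact ih.2.sft hdeg
    have h2 : SS Q n u - ((SSl Q n).comp (Jl B dat.Cm)) y = SS Q n (u - Jm B dat.Cm y) :=
      (map_sub (SSl Q n) u (Jm B dat.Cm y)).symm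
    have h3 : InS Q n (u - Jm B dat.Cm y) := by
      intro m hm b
      rw [Matrix.sub_vecMul, Pi.sub_apply, map_sub, hu m hm b, hJS y m hm b, sub_zero]
    rw [h2, (h1 _ h3 N).1]
    have h4 : (sft^[N]) (u - Jm B dat.Cm y) = 0 := by
      funext a
      ext m
      rw [iter_sft, hN _ (by omega)]
      simp
    rw [h4]
    exact map_zero (SSl Q n)

end Pool.Agent.Lib.MP699d82
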