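import Mathlib
import Pool.Agent.Lib.MP_699d82_al.Prim
import Pool.Agent.Lib.MP_699d82_al.Realize

set_option autoImplicit false
set_option linter.unusedSectionVars false

namespace Pool.Agent.Lib.MP699d82

open PowerSeries Filter Topology Matrix

variable {ι : Type*} [Fintype ι] [DecidableEq ι]

/-- zero pattern of the generating matrix -/
lemma pattern {F Y : Matrix ι ι ℝ⟦X⟧} {K : ℕ} {col : ι → ℕ}
    (h0 : ∀ a b, coeff 0 (F a b) = if a = b then 1 else 0)
    (hF : ∀ a b m, 1 ≤ m → m ≤ K → ¬ (a = b ∧ col a ∣ m) → coeff m (F a b) = 0)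
    (hY : IsGen F Y) : ∀ m, m < K → ∀ a b, ¬ (a = b ∧ col a ∣ m + 1) → coeff m (Y a b) = 0 := by
  intro m
  induction m using Nat.strong_induction_on with
  | _ m ih =>
    intro hm a b hab
    have h1 : coeff m ((F * Y) a b) = - (coeff (m + 1) (F a b) * (m + 1)) := by
      rw [hY]
      show coeff m (-(derivative ℝ (F a b))) = _
      rw [map_neg, coeff_derivative]
    rw [hF a b (m + 1) (by omega) (by omega) hab, zero_mul, neg_zero, Matrix.mul_apply, map_sum] at h1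
    simp only [coeff_mul, Finset.Nat.sum_antidiagonal_eq_sum_range_succ_mk] at h1
    have h2 : ∀ c, ∑ i ∈ Finset.range (m + 1), coeff i (F a c) * coeff (m - i) (Y c b) =
        if a = c then coeff m (Y c b) else 0 := by
      intro c
      rw [Finset.sum_range_succ', Nat.sub_zero, h0, Finset.sum_eq_zero, zero_add]
      · split_ifs <;> simp
      · intro i hi
        rw [Finset.mem_range] at hi
        by_cases h3 : a = c ∧ col a ∣ i + 1
        · obtain ⟨rfl, h4⟩ := h3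
          rw [ih (m - (i + 1)) (by omega) (by omega) a b, mul_zero]
          rintro ⟨h5, h6⟩
          refine hab ⟨h5, ?_⟩
          have h7 := Nat.dvd_add h4 h6
          rwa [show i + 1 + (m - (i + 1) + 1) = m + 1 by omega] at h7
        · rw [hF a c (i + 1) (by omega) (by omega) h3, zero_mul]
    simp only [h2] at h1
    rw [Finset.sum_ite_eq, if_pos (Finset.mem_univ _)] at h1
    exact h1

lemma exists_gen {F : Matrix ι ι ℝ⟦X⟧} (h0 : ∀ a b, coeff 0 (F a b) = if a = b then 1 else 0) :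
    ∃ Y, IsGen F Y := by
  have hF : IsUnit F.det := by
    refine isUnit_det_of_const ?_
    ext a b
    rw [Matrix.map_apply, ← coeff_zero_eq_constantCoeff_apply, h0, Matrix.one_apply]
  refine ⟨F⁻¹ * (- dM F), ?_⟩
  unfold IsGen
  rw [← Matrix.mul_assoc, Matrix.mul_nonsing_inv _ hF, Matrix.one_mul]

/-- the weights -/
noncomputable def wt (n j : ℕ) : ℝ := (n : ℝ) ^ j * (n - j).factorial / n.factorial

lemma wt_zero (n : ℕ) : wt n 0 = 1 := by
  unfold wt
  have h5 : ((n.factorial : ℕ) : ℝ) ≠ 0 := by exact_mod_cast Nat.factorial_ne_zero n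
  rw [pow_zero, one_mul, Nat.sub_zero, div_self h5]

lemma wt_succ {n j : ℕ} (h : j < n) : wt n (j + 1) = wt n j * ((n : ℝ) / (n + (-(j : ℝ)))) := by
  unfold wt
  have h5 : ((n.factorial : ℕ) : ℝ) ≠ 0 := by exact_mod_cast Nat.factorial_ne_zero n
  obtain ⟨d, hd⟩ := Nat.exists_eq_add_of_lt h
  have h1 : n - j = d + 1 := by omega
  have h2 : n - (j + 1) = d := by omega
  have h3 : (n : ℝ) + (-(j : ℝ)) = (d : ℝ) + 1 := by
    rw [hd]; push_cast; ring
  rw [h1, h2, h3, Nat.factorial_succ, pow_succ]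
  have h6 : (d : ℝ) + 1 ≠ 0 := by positivity
  push_cast
  field_simp

lemma tendsto_wt (j : ℕ) : Tendsto (fun n => wt n j) atTop (𝓝 1) := by
  induction j with
  | zero =>
    simp only [wt_zero]
    exact tendsto_const_nhds
  | succ j ih =>
    have h1 := ih.mul (tendsto_natCast_div_add_atTop (-(j : ℝ)))
    rw [one_mul] at h1
    refine h1.congr' ?_
    filter_upwards [eventually_gt_atTop j] with n hn
    rw [wt_succ hn]

/-- the weighted polynomial -/
noncomputable def wp (n : ℕ) (f : Polynomial ℝ) : Polynomial ℝ :=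
  ∑ j ∈ Finset.range (f.natDegree + 1), Polynomial.monomial j (wt n j * f.coeff j)

lemma coeff_wp (n : ℕ) (f : Polynomial ℝ) (j : ℕ) : (wp n f).coeff j = wt n j * f.coeff j := by
  unfold wp
  rw [Polynomial.finsetSum_coeff]
  simp only [Polynomial.coeff_monomial]
  rw [Finset.sum_ite_eq' (Finset.range (f.natDegree + 1)) j]
  split_ifs with h
  · rfl
  · rw [Finset.mem_range, not_lt] at h
    rw [Polynomial.coeff_eq_zero_of_natDegree_lt (by omega), mul_zero]

lemma tendsto_wp (f : Polynomial ℝ) : Tendsto (fun n => pW (wp n f)) atTop (𝓝 (pW f)) := by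
  have h1 : ∀ n, pW (wp n f) = ∑ j ∈ Finset.range (f.natDegree + 1),
      wt n j • pW (Polynomial.monomial j (f.coeff j)) := by
    intro n
    unfold wp
    rw [map_sum]
    refine Finset.sum_congr rfl fun j _ => ?_
    rw [← Polynomial.C_mul_monomial, map_mul, pW_C, Algebra.smul_def]
  have h2 : pW f = ∑ j ∈ Finset.range (f.natDegree + 1),
      (1 : ℝ) • pW (Polynomial.monomial j (f.coeff j)) := by
    simp only [one_smul]
    rw [← map_sum, ← Polynomial.as_sum_range]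
  rw [h2]
  simp only [h1]
  exact tendsto_finsetSum _ fun j _ => (tendsto_wt j).smul_const _

/-- the weighted polynomial matrix -/
noncomputable def FnP (Q : Matrix ι ι (Polynomial ℝ)) (n : ℕ) : Matrix ι ι (Polynomial ℝ) :=
  Q.map (wp n)

lemma cM_FnP (Q : Matrix ι ι (Polynomial ℝ)) (n : ℕ) : cM (pM (FnP Q n)) = Fn Q n := by
  refine Matrix.ext fun a b => ?_
  ext j
  rw [coeff_Fn]
  show coeff j ((pW (wp n (Q a b)) : W) : ℝ⟦X⟧) = _
  rw [coe_pW, Polynomial.coeff_coe, coeff_wp]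
  rfl

lemma tendsto_FnP (Q : Matrix ι ι (Polynomial ℝ)) :
    Tendsto (fun n => pM (FnP Q n)) atTop (𝓝 (pM Q)) := by
  refine tendsto_pi_nhds.2 fun i => tendsto_pi_nhds.2 fun j => ?_
  exact tendsto_wp (Q i j)

lemma coeff_cM (F : Matrix ι ι W) (a b : ι) (m : ℕ) :
    coeff m (cM F a b) = coeff m ((F a b : W) : ℝ⟦X⟧) := rfl

/-- the conclusion for a matrix `B` -/
def Concl {k : ℕ} (B : Matrix (Fin k) (Fin k) ℝ) : Prop :=
  ∃ (p : ℕ) (N : Matrix (Fin p) (Fin p) ℝ)
      (A : Matrix (Fin k ⊕ Fin p) (Fin k ⊕ Fin p) ℝ)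
      (P Q : Matrix (Fin k ⊕ Fin p) (Fin k ⊕ Fin p) ℝ),
      IsNilpotent N ∧ (∀ i j, 0 ≤ A i j) ∧
      (∃ m : ℕ, 0 < m ∧ ∀ i j, 0 < (A ^ m) i j) ∧
      P * Q = 1 ∧ P * A * Q = Matrix.fromBlocks B 0 0 N

theorem concl_of_target {k : ℕ} (B : Matrix (Fin k) (Fin k) ℝ) (hB : IsUnit B.det)
    {κ : Type*} [Fintype κ] [DecidableEq κ] (K : ℕ) (col : Fin k ⊕ κ → ℕ)
    (Qh : Matrix (Fin k ⊕ κ) (Fin k ⊕ κ) W) (hcl : Cl (QB κ B) Qh)
    {l : ℝ} (hl : 1 < l) {u : W} (hu : IsUnit u) (hdet : Qh.det = u - l • (XW * u))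
    (h0 : ∀ a b, coeff 0 ((Qh a b : W) : ℝ⟦X⟧) = if a = b then 1 else 0)
    (hpat : ∀ a b m, 1 ≤ m → m ≤ K → ¬ (a = b ∧ col a ∣ m) → coeff m ((Qh a b : W) : ℝ⟦X⟧) = 0)
    (Yh : Matrix (Fin k ⊕ κ) (Fin k ⊕ κ) ℝ⟦X⟧) (hYh : IsGen (cM Qh) Yh)
    {c : ℝ} (hc : 0 < c)
    (hlow : ∀ a m, m < K → col a ∣ m + 1 → 0 < coeff m (Yh a a))
    (hhigh : ∀ a b m, K ≤ m → c * l ^ m ≤ coeff m (Yh a b)) : Concl B := by
  classical
  have hl0 : 0 < l := by linarith
  -- choice of the tolerance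
  obtain ⟨ε, hε, hεc, hεl⟩ : ∃ ε : ℝ, 0 < ε ∧ ε ≤ c ∧ ∀ a m, m < K → col a ∣ m + 1 →
      ε ≤ (l⁻¹) ^ m * coeff m (Yh a a) := by
    have hfin : ∀ s : Finset ((Fin k ⊕ κ) × ℕ), (∀ p ∈ s, 0 < (l⁻¹) ^ p.2 * coeff p.2 (Yh p.1 p.1)) →
        ∃ ε : ℝ, 0 < ε ∧ ε ≤ c ∧ ∀ p ∈ s, ε ≤ (l⁻¹) ^ p.2 * coeff p.2 (Yh p.1 p.1) := by
      intro s
      induction s using Finset.induction_on with
      | empty =>
        intro _
        exact ⟨c, hc, le_rfl, fun p hp => absurd hp (Finset.notMem_empty p)⟩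
      | insert p s hp ih =>
        intro h
        obtain ⟨ε, h1, h2, h3⟩ := ih fun q hq => h q (Finset.mem_insert_of_mem hq)
        refine ⟨min ε ((l⁻¹) ^ p.2 * coeff p.2 (Yh p.1 p.1)),
          lt_min h1 (h p (Finset.mem_insert_self p s)), (min_le_left _ _).trans h2, fun q hq => ?_⟩
        rcases Finset.mem_insert.1 hq with rfl | hq
        · exact min_le_right _ _
        · exact (min_le_left _ _).trans (h3 q hq)
    obtain ⟨ε, h1, h2, h3⟩ := hfin ((Finset.univ ×ˢ Finset.range K).filter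
      (fun p => col p.1 ∣ p.2 + 1)) (by
        intro p hp
        rw [Finset.mem_filter, Finset.mem_product, Finset.mem_range] at hp
        exact mul_pos (by positivity) (hlow p.1 p.2 hp.1.2 hp.2))
    refine ⟨ε, h1, h2, fun a m hm ha => h3 (a, m) ?_⟩
    rw [Finset.mem_filter, Finset.mem_product, Finset.mem_range]
    exact ⟨⟨Finset.mem_univ _, hm⟩, ha⟩
  have hpert := perturb hl hu Qh hdet Yh hYh hε
  set S : Set (Matrix (Fin k ⊕ κ) (Fin k ⊕ κ) W) := {F | ∃ l' : ℝ, 0 < l' ∧ ∀ Y, IsGen (cM F) Y →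
    ∀ m i j, |(l'⁻¹) ^ m * coeff m (Y i j) - (l⁻¹) ^ m * coeff m (Yh i j)| < ε} with hS
  have hS1 : S ∈ 𝓝 Qh := hpert
  obtain ⟨Q, hQ, hQS, hQA⟩ := hcl (interior S) (interior_mem_nhds.2 hS1) (K + 1)
  have hcoef : ∀ a b m, m ≤ K → (Q a b).coeff m = coeff m ((Qh a b : W) : ℝ⟦X⟧) := by
    intro a b m hm
    have h1 := hQA a b
    rw [X_pow_dvd_iff] at h1
    have h2 := h1 m (by omega)
    rw [map_sub, sub_eq_zero] at h2
    have h3 : coeff m (cM (pM Q) a b) = (Q a b).coeff m := by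
      show coeff m ((pW (Q a b) : W) : ℝ⟦X⟧) = _
      rw [coe_pW, Polynomial.coeff_coe]
    rw [← h3, h2]
    rfl
  have hQ1 : ∀ a b, (Q a b).coeff 0 = if a = b then 1 else 0 := by
    intro a b
    rw [hcoef a b 0 (by omega), h0]
  obtain ⟨n0, hn0⟩ := realize (κ := κ) B hB hQ hQ1
  have hev : ∀ᶠ n in atTop, pM (FnP Q n) ∈ S :=
    ((tendsto_FnP Q).eventually (isOpen_interior.mem_nhds hQS)).mono fun n hn => interior_subset hn
  obtain ⟨n, hnS, hn1, hn2⟩ := (hev.and ((eventually_ge_atTop n0).and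
    (eventually_ge_atTop (K + 2)))).exists
  have hFn0 : ∀ a b, coeff 0 (Fn Q n a b) = if a = b then 1 else 0 := by
    intro a b
    rw [coeff_Fn, hQ1]
    have h5 : ((n.factorial : ℕ) : ℝ) ≠ 0 := by exact_mod_cast Nat.factorial_ne_zero n
    rw [pow_zero, one_mul, Nat.sub_zero, div_self h5, one_mul]
  obtain ⟨Y, hY⟩ := exists_gen hFn0
  obtain ⟨l', hl', hYl⟩ := hnS
  have hYd := hYl Y (by rw [cM_FnP]; exact hY)
  have hposK : ∀ m a b, K ≤ m → 0 < coeff m (Y a b) := by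
    intro m a b hm
    have h1 := hYd m a b
    have h2 : ε ≤ (l⁻¹) ^ m * coeff m (Yh a b) := by
      refine hεc.trans ?_
      have h3 := hhigh a b m hm
      calc c = (l⁻¹) ^ m * (c * l ^ m) := by
            rw [inv_pow]; field_simp
        _ ≤ _ := mul_le_mul_of_nonneg_left h3 (by positivity)
    have h3 : 0 < (l'⁻¹) ^ m * coeff m (Y a b) := by
      have := (abs_lt.1 h1).1
      linarith
    exact pos_of_mul_pos_right h3 (by positivity)
  have hpatY := pattern (F := Fn Q n) (Y := Y) (K := K) (col := col) hFn0 (by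
    intro a b m hm1 hm2 hab
    rw [coeff_Fn, hcoef a b m hm2, hpat a b m hm1 hm2 hab, mul_zero]) hY
  have hnonneg : ∀ m a b, 0 ≤ coeff m (Y a b) := by
    intro m a b
    by_cases hm : K ≤ m
    · exact (hposK m a b hm).le
    · push Not at hm
      by_cases hab : a = b ∧ col a ∣ m + 1
      · obtain ⟨rfl, hcol⟩ := hab
        have h1 := hYd m a a
        have h2 := hεl a m hm hcol
        have h3 : 0 < (l'⁻¹) ^ m * coeff m (Y a a) := by
          have := (abs_lt.1 h1).1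
          linarith
        exact (pos_of_mul_pos_right h3 (by positivity)).le
      · exact (hpatY m hm a b hab).ge
  obtain ⟨p, e, N, P, P', hN, hPP, hPA⟩ := hn0 n hn1 (by omega) Y hY
  obtain ⟨M, hM0, hM⟩ := Mm_primitive n K hn2 Y hnonneg hposK
  refine ⟨p, N, Matrix.reindex e e (Mm n Y), P, P', hN, fun i j => ?_, ⟨M, hM0, fun i j => ?_⟩,
    hPP, hPA⟩
  · exact Mm_nonneg n Y hnonneg _ _
  · have h1 : (Matrix.reindex e e (Mm n Y)) ^ M = Matrix.reindex e e ((Mm n Y) ^ M) := by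
      have := map_pow (Matrix.reindexAlgEquiv ℝ ℝ e) (Mm n Y) M
      exact this.symm
    rw [h1]
    exact hM _ _

end Pool.Agent.Lib.MP699d82
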