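import Mathlib
import Pool.Agent.Lib.MP_699d82_al.Real

set_option autoImplicit false
set_option linter.unusedSectionVars false

namespace Pool.Agent.Lib.MP699d82

open Matrix

variable {α : Type*} [Fintype α] [DecidableEq α]

/-- Smith form of a nonsingular matrix over a PID -/
theorem smith_diag {R : Type*} [CommRing R] [IsDomain R] [IsPrincipalIdealRing R]
    (M : Matrix α α R) (hM : M.det ≠ 0) :
    ∃ (U U' V V' : Matrix α α R) (a : α → R), U * U' = 1 ∧ V * V' = 1 ∧
      M = U * Matrix.diagonal a * V := by
  have hinj : Function.Injective M.mulVecLin := by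
    rw [← LinearMap.ker_eq_bot, LinearMap.ker_eq_bot']
    intro v hv
    by_contra hne
    exact hM (Matrix.exists_mulVec_eq_zero_iff.1 ⟨v, hne, hv⟩)
  set N := LinearMap.range M.mulVecLin with hN
  set e : (α → R) ≃ₗ[R] N := LinearEquiv.ofInjective M.mulVecLin hinj with he
  have hrank : Module.finrank R N = Module.finrank R (α → R) := e.finrank_eq.symm
  obtain ⟨b', a, ab', h⟩ := Submodule.exists_smith_normal_form_of_rank_eq (Pi.basisFun R α) hrank
  set eb : Module.Basis α R N := (Pi.basisFun R α).map e with heb
  refine ⟨(Pi.basisFun R α).toMatrix b', b'.toMatrix (Pi.basisFun R α), ab'.toMatrix eb,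
    eb.toMatrix ab', a, Module.Basis.toMatrix_mul_toMatrix_flip _ _,
    Module.Basis.toMatrix_mul_toMatrix_flip _ _, ?_⟩
  refine Matrix.ext fun k j => ?_
  have h1 : ((eb j : N) : α → R) k = M k j := by
    rw [heb, Module.Basis.map_apply, he, LinearEquiv.ofInjective_apply, Matrix.mulVecLin_apply,
      Pi.basisFun_apply, Matrix.mulVec_single_one]
    rfl
  rw [← h1, Matrix.mul_apply]
  simp only [Matrix.mul_diagonal, Module.Basis.toMatrix_apply, Pi.basisFun_repr]
  have h2 : ((eb j : N) : α → R) = ∑ i, (ab'.repr (eb j)) i • ((ab' i : N) : α → R) := by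
    have h3 := congrArg (fun z : N => (z : α → R)) (ab'.sum_repr (eb j))
    rw [← h3, AddSubmonoidClass.coe_finsetSum]
    rfl
  rw [h2, Finset.sum_apply]
  refine Finset.sum_congr rfl fun i _ => ?_
  rw [Pi.smul_apply, h i, Pi.smul_apply, smul_eq_mul, smul_eq_mul]
  ring

lemma isUnit_of_mul_one {U U' : Matrix α α (Polynomial ℝ)} (h : U * U' = 1) : IsUnit U.det := by
  have h1 : U.det * U'.det = 1 := by rw [← Matrix.det_mul, h, Matrix.det_one]
  exact IsUnit.of_mul_eq_one _ h1

/-- the constant term of `det (1 - X B)` -/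
lemma det_RB_coeff_zero (B : Matrix α α ℝ) : (RB B).det.coeff 0 = 1 := by
  rw [Polynomial.coeff_zero_eq_eval_zero]
  exact Matrix.eval_charpolyRev

lemma det_RB_ne_zero (B : Matrix α α ℝ) : (RB B).det ≠ 0 := by
  intro h
  have := det_RB_coeff_zero B
  rw [h, Polynomial.coeff_zero] at this
  exact zero_ne_one this

lemma fromBlocks_one {κ : Type*} [Fintype κ] [DecidableEq κ] {R : Type*} [CommRing R]
    {U U' : Matrix α α R} (h : U * U' = 1) :
    Matrix.fromBlocks U 0 0 (1 : Matrix κ κ R) * Matrix.fromBlocks U' 0 0 (1 : Matrix κ κ R) = 1 := by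
  rw [Matrix.fromBlocks_multiply]
  simp [h]

/-- Smith form of `1 - X B`, extended by the identity -/
theorem exists_good_diagonal {κ : Type*} [Fintype κ] [DecidableEq κ] (B : Matrix α α ℝ) :
    ∃ f : α → Polynomial ℝ, (∏ i, f i = (RB B).det) ∧
      Good (QB κ B) (Matrix.diagonal (Sum.elim f (fun _ : κ => (1 : Polynomial ℝ)))) := by
  obtain ⟨U, U', V, V', a, hU, hV, hM⟩ := smith_diag (RB B) (det_RB_ne_zero B)
  have hU' : U' * U = 1 := mul_eq_one_comm.1 hU
  have hV' : V' * V = 1 := mul_eq_one_comm.1 hV
  have hdU := isUnit_of_mul_one hU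
  have hdV := isUnit_of_mul_one hV
  have hdet : (RB B).det = U.det * (∏ i, a i) * V.det := by
    conv_lhs => rw [hM, Matrix.det_mul, Matrix.det_mul, Matrix.det_diagonal]
  -- one diagonal entry absorbs the unit
  by_cases hα : Nonempty α
  · obtain ⟨i0⟩ := hα
    obtain ⟨v, hv⟩ := hdU.mul hdV
    set s : α → Polynomial ℝ := Function.update (fun _ => 1) i0 (v : Polynomial ℝ) with hs
    set s' : α → Polynomial ℝ := Function.update (fun _ => 1) i0 ((v⁻¹ : (Polynomial ℝ)ˣ) : Polynomial ℝ)
      with hs'
    have hss : ∀ i, s i * s' i = 1 := by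
      intro i
      by_cases h : i = i0
      · rw [hs, hs', h, Function.update_self, Function.update_self, Units.mul_inv]
      · rw [hs, hs', Function.update_of_ne h, Function.update_of_ne h, one_mul]
    have hDD : Matrix.diagonal s * Matrix.diagonal s' = 1 := by
      rw [Matrix.diagonal_mul_diagonal]
      simp only [hss]
      exact Matrix.diagonal_one
    refine ⟨fun i => s i * a i, ?_, ?_⟩
    · rw [Finset.prod_mul_distrib, hdet, hs]
      have : ∏ i, Function.update (fun _ => (1 : Polynomial ℝ)) i0 (v : Polynomial ℝ) i = v := by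
        rw [Finset.prod_update_of_mem (Finset.mem_univ i0)]
        simp
      rw [this, hv]
      ring
    · refine ⟨Matrix.fromBlocks (Matrix.diagonal s * U') 0 0 1,
        Matrix.fromBlocks (U * Matrix.diagonal s') 0 0 1, Matrix.fromBlocks V' 0 0 1,
        Matrix.fromBlocks V 0 0 1, ?_, fromBlocks_one hV', ?_⟩
      · refine fromBlocks_one ?_
        calc Matrix.diagonal s * U' * (U * Matrix.diagonal s') =
            Matrix.diagonal s * (U' * U) * Matrix.diagonal s' := by simp only [Matrix.mul_assoc]
          _ = 1 := by rw [hU', Matrix.mul_one, hDD]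
      · rw [QB, Matrix.fromBlocks_multiply, Matrix.fromBlocks_multiply]
        have h1 : Matrix.diagonal s * U' * RB B * V' = Matrix.diagonal (fun i => s i * a i) := by
          calc Matrix.diagonal s * U' * RB B * V'
              = Matrix.diagonal s * (U' * U) * Matrix.diagonal a * (V * V') := by
                conv_lhs => rw [hM]
                simp only [Matrix.mul_assoc]
            _ = _ := by
                rw [hU', hV, Matrix.mul_one, Matrix.mul_one, Matrix.diagonal_mul_diagonal]
        simp only [Matrix.mul_zero, Matrix.zero_mul, add_zero, zero_add, Matrix.mul_one, h1]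
        rw [← Matrix.diagonal_one, Matrix.fromBlocks_diagonal]
  · rw [not_nonempty_iff] at hα
    refine ⟨fun _ => 1, ?_, 1, 1, 1, 1, by simp, by simp, ?_⟩
    · rw [Matrix.det_isEmpty]; simp
    · rw [Matrix.one_mul, Matrix.mul_one, QB, ← Matrix.diagonal_one, ← Matrix.fromBlocks_diagonal]
      refine Matrix.ext fun i j => ?_
      rcases i with i | i
      · exact (hα.false i).elim
      · rcases j with j | j
        · exact (hα.false j).elim
        · rfl

end Pool.Agent.Lib.MP699d82
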