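import Mathlib
import Pool.Agent.Lib.MP_699d82_al.Smith

set_option autoImplicit false
set_option linter.unusedSectionVars false

namespace Pool.Agent.Lib.MP699d82

open PowerSeries Filter Topology Matrix

lemma reverse_X_sub_C {R : Type*} [CommRing R] [Nontrivial R] (z : R) :
    (Polynomial.X - Polynomial.C z).reverse = 1 - Polynomial.C z * Polynomial.X := by
  have h1 : (Polynomial.X - Polynomial.C z) = (1 : Polynomial R) * Polynomial.X + Polynomial.C (-z) := by
    rw [one_mul, Polynomial.C_neg, sub_eq_add_neg]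
  have h2 : (1 : Polynomial R).reverse = 1 := by
    rw [← Polynomial.C_1, Polynomial.reverse_C]
  rw [h1, Polynomial.reverse_add_C, Polynomial.reverse_mul_X, h2, one_mul, Polynomial.natDegree_X,
    pow_one, Polynomial.C_neg]
  ring

lemma reverse_prod (s : Multiset ℂ) :
    ((s.map fun z => Polynomial.X - Polynomial.C z).prod).reverse =
      (s.map fun z => 1 - Polynomial.C z * Polynomial.X).prod := by
  induction s using Multiset.induction_on with
  | empty =>
    rw [Multiset.map_zero, Multiset.prod_zero, Multiset.map_zero, Multiset.prod_zero,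
      ← Polynomial.C_1, Polynomial.reverse_C]
  | cons a s ih =>
    rw [Multiset.map_cons, Multiset.prod_cons, Multiset.map_cons, Multiset.prod_cons,
      Polynomial.reverse_mul_of_domain, ih, reverse_X_sub_C]

variable {α : Type*} [Fintype α] [DecidableEq α]

lemma det_RB_map (B : Matrix α α ℝ) :
    (RB B).det.map (algebraMap ℝ ℂ) =
      ((B.charpoly.map (algebraMap ℝ ℂ)).roots.map fun z => 1 - Polynomial.C z * Polynomial.X).prod := by
  have h1 : (RB B).det = B.charpoly.reverse := (Matrix.reverse_charpoly B).symm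
  have hm : (B.charpoly.map (algebraMap ℝ ℂ)).Monic := B.charpoly_monic.map _
  have h2 := (IsAlgClosed.splits (B.charpoly.map (algebraMap ℝ ℂ))).eq_prod_roots_of_monic hm
  rw [h1, ← reverse_prod, ← h2, Polynomial.reverse, Polynomial.reverse, Polynomial.reflect_map,
    Polynomial.natDegree_map]

/-- geometric series -/
noncomputable def geo {R : Type*} [CommRing R] (z : R) : R⟦X⟧ := PowerSeries.mk fun n => z ^ n

lemma geo_mul {R : Type*} [CommRing R] (z : R) :
    (1 - PowerSeries.C z * X : R⟦X⟧) * geo z = 1 := by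
  ext n
  rw [sub_mul, one_mul, map_sub, mul_assoc, coeff_C_mul]
  cases n with
  | zero => simp [geo]
  | succ n =>
    rw [coeff_succ_X_mul, geo, coeff_mk, coeff_mk, coeff_one, if_neg (Nat.succ_ne_zero n), pow_succ]
    ring

lemma geoprod_mul (s : Multiset ℂ) :
    (((s.map fun z => 1 - Polynomial.C z * Polynomial.X).prod : Polynomial ℂ) : ℂ⟦X⟧) *
      (s.map fun z => geo z).prod = 1 := by
  induction s using Multiset.induction_on with
  | empty => simp
  | cons a s ih =>
    rw [Multiset.map_cons, Multiset.prod_cons, Multiset.map_cons, Multiset.prod_cons,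
      Polynomial.coe_mul]
    calc _ = (((1 - Polynomial.C a * Polynomial.X : Polynomial ℂ) : ℂ⟦X⟧) * geo a) *
        ((((s.map fun z => 1 - Polynomial.C z * Polynomial.X).prod : Polynomial ℂ) : ℂ⟦X⟧) *
          (s.map fun z => geo z).prod) := by ring
      _ = 1 := by
        rw [ih, mul_one, Polynomial.coe_sub, Polynomial.coe_mul, Polynomial.coe_one,
          Polynomial.coe_C, Polynomial.coe_X, geo_mul]

lemma geoprod_summable (s : Multiset ℂ) (hs : ∀ z ∈ s, ‖z‖ < 1) :
    Summable fun n => ‖coeff n ((s.map fun z => geo z).prod : ℂ⟦X⟧)‖ := by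
  induction s using Multiset.induction_on with
  | empty =>
    refine summable_of_ne_finset_zero (s := {0}) (fun n hn => ?_)
    rw [Finset.mem_singleton] at hn
    rw [Multiset.map_zero, Multiset.prod_zero, coeff_one, if_neg hn, norm_zero]
  | cons a s ih =>
    have h1 := ih fun z hz => hs z (Multiset.mem_cons_of_mem hz)
    have h2 : Summable fun n => ‖coeff n (geo a)‖ := by
      simp only [geo, coeff_mk, norm_pow]
      exact summable_geometric_of_lt_one (norm_nonneg _) (hs a (Multiset.mem_cons_self a s))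
    have h3 := summable_norm_sum_mul_antidiagonal_of_summable_norm h2 h1
    rw [Multiset.map_cons, Multiset.prod_cons]
    refine h3.congr fun n => ?_
    rw [coeff_mul]

/-- the spectral factorization -/
theorem spec_factor (B : Matrix α α ℝ) {l : ℝ} (hl : 1 < l)
    (hcount : (B.charpoly.map (algebraMap ℝ ℂ)).roots.count (l : ℂ) = 1)
    (hlt : ∀ z ∈ (B.charpoly.map (algebraMap ℝ ℂ)).roots, z ≠ (l : ℂ) → ‖z‖ < 1) :
    (RB B).det.eval l⁻¹ = 0 ∧ ∃ u : W, IsUnit u ∧ pW (RB B).det = u - l • (XW * u) := by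
  set δ := (RB B).det with hδ
  have hl0 : l ≠ 0 := by positivity
  have hlc : (l : ℂ) ≠ 0 := by exact_mod_cast hl0
  set r := (B.charpoly.map (algebraMap ℝ ℂ)).roots with hr
  have hmem : (l : ℂ) ∈ r := by
    rw [← Multiset.count_pos, hcount]; norm_num
  obtain ⟨s, hs⟩ := Multiset.exists_cons_of_mem hmem
  have hs1 : ∀ z ∈ s, ‖z‖ < 1 := by
    intro z hz
    refine hlt z (hs ▸ Multiset.mem_cons_of_mem hz) ?_
    rintro rfl
    have h1 : r.count (l : ℂ) = s.count (l : ℂ) + 1 := by
      rw [hs, Multiset.count_cons_self]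
    have h2 : 0 < s.count (l : ℂ) := Multiset.count_pos.2 hz
    omega
  have hδc : δ.map (algebraMap ℝ ℂ) = (1 - Polynomial.C (l : ℂ) * Polynomial.X) *
      (s.map fun z => 1 - Polynomial.C z * Polynomial.X).prod := by
    rw [hδ, det_RB_map, ← hr, hs, Multiset.map_cons, Multiset.prod_cons]
  have heval : δ.eval l⁻¹ = 0 := by
    have h1 : (δ.map (algebraMap ℝ ℂ)).eval ((algebraMap ℝ ℂ) l⁻¹) = 0 := by
      rw [hδc, Polynomial.eval_mul]
      have : (1 - Polynomial.C (l : ℂ) * Polynomial.X).eval ((algebraMap ℝ ℂ) l⁻¹) = 0 := by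
        simp [hlc]
      rw [this, zero_mul]
    have h2 : (algebraMap ℝ ℂ) (δ.eval l⁻¹) = 0 := by
      rw [← h1, Polynomial.eval_map_apply]
    exact (map_eq_zero_iff (algebraMap ℝ ℂ) (algebraMap ℝ ℂ).injective).1 h2
  refine ⟨heval, ?_⟩
  obtain ⟨g, hg⟩ := Polynomial.dvd_iff_isRoot.2 (show δ.IsRoot l⁻¹ from heval)
  set up : Polynomial ℝ := - Polynomial.C l⁻¹ * g with hup
  have hδu : δ = (1 - Polynomial.C l * Polynomial.X) * up := by
    have h1 : (1 - Polynomial.C l * Polynomial.X : Polynomial ℝ) * (- Polynomial.C l⁻¹) =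
        Polynomial.X - Polynomial.C l⁻¹ := by
      have h2 : (Polynomial.C l : Polynomial ℝ) * Polynomial.C l⁻¹ = 1 := by
        rw [← Polynomial.C_mul, mul_inv_cancel₀ hl0, Polynomial.C_1]
      linear_combination Polynomial.X * h2
    rw [hup, ← mul_assoc, h1]
    exact hg
  have hupc : up.map (algebraMap ℝ ℂ) = (s.map fun z => 1 - Polynomial.C z * Polynomial.X).prod := by
    have h1 : (1 - Polynomial.C (l : ℂ) * Polynomial.X) * up.map (algebraMap ℝ ℂ) =
        (1 - Polynomial.C (l : ℂ) * Polynomial.X) *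
          (s.map fun z => 1 - Polynomial.C z * Polynomial.X).prod := by
      have h0 : (1 - Polynomial.C l * Polynomial.X : Polynomial ℝ).map (algebraMap ℝ ℂ) =
          (1 - Polynomial.C (l : ℂ) * Polynomial.X) := by
        rw [Polynomial.map_sub, Polynomial.map_mul, Polynomial.map_one, Polynomial.map_C,
          Polynomial.map_X]
        rfl
      calc (1 - Polynomial.C (l : ℂ) * Polynomial.X) * up.map (algebraMap ℝ ℂ)
          = ((1 - Polynomial.C l * Polynomial.X) * up : Polynomial ℝ).map (algebraMap ℝ ℂ) := by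
            rw [← h0, ← Polynomial.map_mul]
        _ = δ.map (algebraMap ℝ ℂ) := by rw [← hδu]
        _ = _ := hδc
    refine mul_left_cancel₀ ?_ h1
    intro h
    have h2 := congrArg (fun p => Polynomial.coeff p 0) h
    simp at h2
  -- the inverse
  have hu0 : constantCoeff (up : ℝ⟦X⟧) ≠ 0 := by
    have h1 := det_RB_coeff_zero B
    rw [← hδ, hδu, Polynomial.mul_coeff_zero] at h1
    rw [Polynomial.constantCoeff_coe]
    intro h
    have h3 : up.coeff 0 = 0 := h
    rw [h3, mul_zero] at h1
    exact zero_ne_one h1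
  set v : ℝ⟦X⟧ := (up : ℝ⟦X⟧)⁻¹ with hv
  have huv : (up : ℝ⟦X⟧) * v = 1 := PowerSeries.mul_inv_cancel _ hu0
  have hmap : PowerSeries.map (algebraMap ℝ ℂ) v = (s.map fun z => geo z).prod := by
    have h1 := congrArg (PowerSeries.map (algebraMap ℝ ℂ)) huv
    rw [map_mul, map_one, ← Polynomial.polynomial_map_coe, hupc] at h1
    have h2 := geoprod_mul s
    calc PowerSeries.map (algebraMap ℝ ℂ) v = (((((s.map fun z => 1 - Polynomial.C z *
            Polynomial.X).prod : Polynomial ℂ) : ℂ⟦X⟧) * (s.map fun z => geo z).prod)) *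
            PowerSeries.map (algebraMap ℝ ℂ) v := by rw [h2, one_mul]
      _ = (s.map fun z => geo z).prod * ((((s.map fun z => 1 - Polynomial.C z *
            Polynomial.X).prod : Polynomial ℂ) : ℂ⟦X⟧) * PowerSeries.map (algebraMap ℝ ℂ) v) := by ring
      _ = _ := by rw [h1, mul_one]
  have hvW : v ∈ W := by
    rw [mem_W]
    refine (geoprod_summable s hs1).congr fun n => ?_
    rw [← hmap, PowerSeries.coeff_map, norm_algebraMap']
  refine ⟨pW up, ?_, ?_⟩
  · refine IsUnit.of_mul_eq_one (⟨v, hvW⟩ : W) ?_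
    refine Subtype.ext ?_
    rw [Subalgebra.coe_mul, coe_pW, Subalgebra.coe_one]
    exact huv
  · refine Subtype.ext ?_
    rw [hδu, coe_pW, Subalgebra.coe_sub, Subalgebra.coe_smul, Subalgebra.coe_mul, coe_pW, coe_XW,
      Polynomial.coe_mul, Polynomial.coe_sub, Polynomial.coe_one, Polynomial.coe_mul,
      Polynomial.coe_C, Polynomial.coe_X, smul_eq_C_mul]
    ring

end Pool.Agent.Lib.MP699d82
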