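import Mathlib
import Pool.Agent.Lib.MP_699d82_al.Spec
import Pool.Agent.Lib.MP_699d82_al.Jacobi
import Pool.Agent.Lib.MP_699d82_al.Pattern
import Pool.Agent.Lib.MP_699d82_al.TargetGen

set_option autoImplicit false
set_option linter.unusedSectionVars false

namespace Pool.Agent.Lib.MP699d82

open PowerSeries Filter Topology Matrix

variable {α : Type*} [Fintype α] [DecidableEq α]

lemma delta_eq (B : Matrix α α ℝ) {l : ℝ} {u : W} (h : pW (RB B).det = u - l • (XW * u)) :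
    E (trS B) = (1 - C l * X : ℝ⟦X⟧) * (u : ℝ⟦X⟧) := by
  have h1 := congrArg (fun w : W => (w : ℝ⟦X⟧)) h
  simp only [coe_pW, Subalgebra.coe_sub, Subalgebra.coe_smul, Subalgebra.coe_mul, coe_XW,
    smul_eq_C_mul] at h1
  rw [← det_RB_eq, h1]
  ring

lemma trS_eq (B : Matrix α α ℝ) {l : ℝ} {u v : W} (h : pW (RB B).det = u - l • (XW * u))
    (huv : u * v = 1) (m : ℕ) : coeff m (trS B) = l ^ (m + 1) - q m v u := by
  have h1 := delta_eq B h
  have huv' : (u : ℝ⟦X⟧) * (v : ℝ⟦X⟧) = 1 := by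
    rw [← Subalgebra.coe_mul, huv, Subalgebra.coe_one]
  have hg := geo_mul l
  have h2 : derivative ℝ (E (trS B)) = - (trS B * E (trS B)) := deriv_E _
  rw [h1, Derivation.leibniz, smul_eq_mul, smul_eq_mul] at h2
  have h3 : derivative ℝ (1 - C l * X : ℝ⟦X⟧) = - C l := by
    have h4 : derivative ℝ (C l * X : ℝ⟦X⟧) = C l := by
      rw [Derivation.leibniz, derivative_C, smul_zero, add_zero, smul_eq_mul]
      have : derivative ℝ (X : ℝ⟦X⟧) = 1 := derivative_X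
      rw [this, mul_one]
    rw [map_sub, (derivative ℝ).map_one_eq_zero, h4, zero_sub]
  rw [h3] at h2
  have h5 : trS B = C l * geo l - (v : ℝ⟦X⟧) * derivative ℝ (u : ℝ⟦X⟧) := by
    have hg' : (1 - C l * X : ℝ⟦X⟧) * geo l = 1 := hg
    linear_combination (geo l * (v : ℝ⟦X⟧)) * h2 -
      (trS B * (u : ℝ⟦X⟧) * v + (v : ℝ⟦X⟧) * derivative ℝ (u : ℝ⟦X⟧)) * hg' +
      (C l * geo l - trS B) * huv'
  rw [h5, map_sub, coeff_C_mul]
  unfold q geo
  rw [coeff_mk, pow_succ]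
  ring

lemma growth (B : Matrix α α ℝ) {l : ℝ} (hl : 1 < l) {u : W} (hu : IsUnit u)
    (h : pW (RB B).det = u - l • (XW * u)) :
    ∃ K0 : ℕ, ∀ m, K0 ≤ m → l ^ (m + 1) / 2 ≤ coeff m (trS B) := by
  obtain ⟨v, huv⟩ := hu.exists_right_inv
  set G : ℝ := ‖v‖ * ‖u‖ with hG
  have hG0 : 0 ≤ G := by positivity
  have h1 : Tendsto (fun n : ℕ => (n : ℝ) ^ 1 / l ^ n) atTop (𝓝 0) :=
    tendsto_pow_const_div_const_pow_of_one_lt 1 hl
  have h2 : Tendsto (fun n : ℕ => G * ((n : ℝ) ^ 1 / l ^ n)) atTop (𝓝 0) := by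
    have := h1.const_mul G
    rwa [mul_zero] at this
  have h3 : ∀ᶠ n : ℕ in atTop, G * ((n : ℝ) ^ 1 / l ^ n) < 1 / 2 :=
    h2.eventually (gt_mem_nhds (by norm_num))
  obtain ⟨K0, hK0⟩ := eventually_atTop.1 h3
  refine ⟨K0, fun m hm => ?_⟩
  rw [trS_eq B h huv]
  have h4 := q_bound m v u
  have h5 := (abs_le.1 h4).2
  have h6 := hK0 (m + 1) (by omega)
  have hlp : 0 < l ^ (m + 1) := by positivity
  have h7 : G * ((m : ℝ) + 1) < l ^ (m + 1) / 2 := by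
    have h8 : G * (((m + 1 : ℕ) : ℝ) ^ 1 / l ^ (m + 1)) = G * ((m : ℝ) + 1) / l ^ (m + 1) := by
      push_cast
      ring
    rw [h8, div_lt_iff₀ hlp] at h6
    linarith
  rw [← hG] at h5
  linarith

lemma inv_bound (B : Matrix α α ℝ) {l : ℝ} (hl : 1 < l) {u : W} (hu : IsUnit u)
    (h : pW (RB B).det = u - l • (XW * u)) :
    ∃ C1 : ℝ, 0 ≤ C1 ∧ ∀ m, coeff m (E (-trS B)) ≤ C1 * l ^ m := by
  obtain ⟨v, huv⟩ := hu.exists_right_inv
  have h1 := delta_eq B h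
  have huv' : (u : ℝ⟦X⟧) * (v : ℝ⟦X⟧) = 1 := by
    rw [← Subalgebra.coe_mul, huv, Subalgebra.coe_one]
  have hg : (1 - C l * X : ℝ⟦X⟧) * geo l = 1 := geo_mul l
  have h2 := E_mul_E_neg (trS B)
  have h3 : E (-trS B) = (v : ℝ⟦X⟧) * geo l := by
    rw [h1] at h2
    linear_combination (geo l * (v : ℝ⟦X⟧)) * h2 - (E (-trS B) * (u : ℝ⟦X⟧) * v) * hg -
      E (-trS B) * huv'
  refine ⟨‖v‖, norm_nonneg _, fun m => ?_⟩
  rw [h3, coeff_mul, Finset.Nat.sum_antidiagonal_eq_sum_range_succ_mk]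
  have h4 : ∀ k ∈ Finset.range m.succ, coeff k (v : ℝ⟦X⟧) * coeff (m - k) (geo l) ≤
      ‖coeff k (v : ℝ⟦X⟧)‖ * l ^ m := by
    intro k _
    unfold geo
    rw [coeff_mk]
    have h5 : l ^ (m - k) ≤ l ^ m := pow_le_pow_right₀ hl.le (Nat.sub_le _ _)
    calc coeff k (v : ℝ⟦X⟧) * l ^ (m - k) ≤ ‖coeff k (v : ℝ⟦X⟧)‖ * l ^ (m - k) :=
          mul_le_mul_of_nonneg_right (Real.le_norm_self _) (by positivity)
      _ ≤ _ := mul_le_mul_of_nonneg_left h5 (norm_nonneg _)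
  refine (Finset.sum_le_sum h4).trans ?_
  rw [← Finset.sum_mul]
  refine mul_le_mul_of_nonneg_right ?_ (by positivity)
  exact (summ v).sum_le_tsum _ fun _ _ => norm_nonneg _

end Pool.Agent.Lib.MP699d82
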