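import Mathlib
import Pool.Agent.Lib.MP_699d82_al.TargetGen

set_option autoImplicit false
set_option linter.unusedSectionVars false

namespace Pool.Agent.Lib.MP699d82

open PowerSeries Filter Topology Matrix

variable {ι : Type*} [Fintype ι] [DecidableEq ι]

lemma det_rank_one {R : Type*} [CommRing R] (s : R) :
    (1 + s • Matrix.vecMulVec (fun _ : ι => (1 : R)) (fun _ : ι => (1 : R))).det =
      1 + s * (Fintype.card ι : R) := by
  have h1 : s • Matrix.vecMulVec (fun _ : ι => (1 : R)) (fun _ : ι => (1 : R)) =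
      Matrix.replicateCol Unit (fun _ : ι => s) * Matrix.replicateRow Unit (fun _ : ι => (1 : R)) := by
    refine Matrix.ext fun i j => ?_
    rw [Matrix.smul_apply, Matrix.vecMulVec_apply, Matrix.mul_apply]
    simp
  rw [h1, Matrix.det_one_add_replicateCol_mul_replicateRow]
  congr 1
  simp [dotProduct, mul_comm]

/-- the unit `E x` -/
noncomputable def eU (x : W) : Wˣ where
  val := ⟨E (x : ℝ⟦X⟧), E_mem_W x.2⟩
  inv := ⟨E (-(x : ℝ⟦X⟧)), E_mem_W (W.neg_mem x.2)⟩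
  val_inv := by
    refine Subtype.ext ?_
    rw [Subalgebra.coe_mul, Subalgebra.coe_one]
    exact E_mul_E_neg _
  inv_val := by
    refine Subtype.ext ?_
    rw [Subalgebra.coe_mul, Subalgebra.coe_one, mul_comm]
    exact E_mul_E_neg _

lemma coe_eU (x : W) : (((eU x : Wˣ) : W) : ℝ⟦X⟧) = E (x : ℝ⟦X⟧) := rfl

theorem target_pack [Nonempty ι] (x : ι → W) (δ : W) (S : ℝ⟦X⟧) (hδS : (δ : ℝ⟦X⟧) = E S)
    {Q0 : Matrix ι ι (Polynomial ℝ)} (f : ι → Polynomial ℝ)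
    (hf : Good Q0 (Matrix.diagonal f)) (i0 : ι) (hunit : ∀ i, i ≠ i0 → IsUnit (pW (f i)))
    (hδ : ∏ i, pW (f i) = δ) {c : ℝ} (hc : c * (Fintype.card ι : ℝ) = 1) :
    ∃ Qh : Matrix ι ι W, Cl Q0 Qh ∧ Qh.det = δ ∧
      cM Qh = Qhat (fun a => (x a : ℝ⟦X⟧)) (S - ∑ a, (x a : ℝ⟦X⟧)) c := by
  set cW : W := algebraMap ℝ W c with hcW
  have hcW1 : cW * (Fintype.card ι : W) = 1 := by
    rw [hcW, ← map_natCast (algebraMap ℝ W), ← map_mul, hc, map_one]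
  set d : ι → Wˣ := fun a => eU (x a) with hd
  set t : Wˣ := (∏ a, d a)⁻¹ with ht
  have hdt : (∏ a, d a) * t = 1 := mul_inv_cancel _
  have htE : ((t : W) : ℝ⟦X⟧) = E (-(∑ a, (x a : ℝ⟦X⟧))) := by
    have h1 : (((∏ a, d a : Wˣ) : W) : ℝ⟦X⟧) = E (∑ a, (x a : ℝ⟦X⟧)) := by
      rw [E_sum, Units.coe_prod, SubmonoidClass.coe_finsetProd]
      rfl
    have h2 : (((∏ a, d a : Wˣ) : W) : ℝ⟦X⟧) * ((t : W) : ℝ⟦X⟧) = 1 := by
      rw [← Subalgebra.coe_mul, ← Units.val_mul, hdt, Units.val_one, Subalgebra.coe_one]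
    rw [h1] at h2
    have h3 := E_mul_E_neg (∑ a, (x a : ℝ⟦X⟧))
    calc ((t : W) : ℝ⟦X⟧) = (E (∑ a, (x a : ℝ⟦X⟧)) * E (-(∑ a, (x a : ℝ⟦X⟧)))) * ((t : W) : ℝ⟦X⟧) := by
          rw [h3, one_mul]
      _ = E (-(∑ a, (x a : ℝ⟦X⟧))) * (E (∑ a, (x a : ℝ⟦X⟧)) * ((t : W) : ℝ⟦X⟧)) := by ring
      _ = _ := by rw [h2, mul_one]
  have hcl := Cl_target f hf i0 hunit δ hδ d t hdt cW hcW1
  refine ⟨_, hcl, ?_, ?_⟩
  · rw [Matrix.det_mul, Matrix.det_diagonal, det_rank_one, mul_assoc, hcW1, mul_one,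
      add_sub_cancel, ← mul_assoc, ← Units.coe_prod, ← Units.val_mul, hdt, Units.val_one, one_mul]
  · refine Matrix.ext fun a b => ?_
    have h4 : cM (Matrix.diagonal (fun i => ((d i : Wˣ) : W)) *
        (1 + (((t : W) * δ - 1) * cW) • Matrix.vecMulVec (fun _ => 1) (fun _ => 1))) a b =
        (((((d a : Wˣ) : W) * ((if a = b then 1 else 0) + ((t : W) * δ - 1) * cW) : W)) : ℝ⟦X⟧) := by
      show ((_ : W) : ℝ⟦X⟧) = _
      congr 1
      rw [Matrix.diagonal_mul, Matrix.add_apply, Matrix.smul_apply, Matrix.vecMulVec_apply,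
        Matrix.one_apply, mul_one, smul_eq_mul, mul_one]
    rw [h4]
    have h5 : (S - ∑ a, (x a : ℝ⟦X⟧)) = -(∑ a, (x a : ℝ⟦X⟧)) + S := by ring
    show _ = E (x a : ℝ⟦X⟧) * ((if a = b then 1 else 0) + C c * (E (S - ∑ a, (x a : ℝ⟦X⟧)) - 1))
    rw [h5, E_add, ← htE, ← hδS, Subalgebra.coe_mul, Subalgebra.coe_add, Subalgebra.coe_mul,
      Subalgebra.coe_sub, Subalgebra.coe_mul, Subalgebra.coe_one]
    have h6 : ((cW : W) : ℝ⟦X⟧) = C c := rfl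
    have h7 : (((if a = b then 1 else 0 : W)) : ℝ⟦X⟧) = if a = b then 1 else 0 := by
      split_ifs <;> rfl
    have h8 : (((d a : Wˣ) : W) : ℝ⟦X⟧) = E (x a : ℝ⟦X⟧) := rfl
    rw [h6, h7, h8]
    ring

end Pool.Agent.Lib.MP699d82
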