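import Mathlib
import Pool.Agent.Lib.MP_699d82_al.Growth
import Pool.Agent.Lib.MP_699d82_al.Pack

set_option autoImplicit false
set_option linter.unusedSectionVars false

namespace Pool.Agent.Lib.MP699d82

open PowerSeries Filter Topology Matrix

lemma finite_mem_W {K : ℕ} (g : ℕ → ℝ) : PowerSeries.mk (fun m => if m < K then g m else 0) ∈ W := by
  rw [mem_W]
  refine summable_of_ne_finset_zero (s := Finset.range K) (fun n hn => ?_)
  rw [Finset.mem_range] at hn
  rw [coeff_mk, if_neg hn, norm_zero]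

theorem main_scaled {k : ℕ} (B : Matrix (Fin k) (Fin k) ℝ) (hB : B.det ≠ 0) {l : ℝ} (hl : 1 < l)
    (hcount : (B.charpoly.map (algebraMap ℝ ℂ)).roots.count (l : ℂ) = 1)
    (hlt : ∀ z ∈ (B.charpoly.map (algebraMap ℝ ℂ)).roots, z ≠ (l : ℂ) → ‖z‖ < 1)
    (htr : ∀ n : ℕ, 0 < n → 0 ≤ (B ^ n).trace)
    (hmul : ∀ n m : ℕ, 0 < n → 0 < m → 0 < (B ^ n).trace → 0 < (B ^ (n * m)).trace) :
    Concl B := by
  classical
  obtain ⟨heval, u, hu, hdu⟩ := spec_factor B hl hcount hlt
  obtain ⟨K0, hK0⟩ := growth B hl hu hdu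
  obtain ⟨C1, hC10, hC1⟩ := inv_bound B hl hu hdu
  have hl0 : 0 < l := by linarith
  set T : ℕ → ℝ := fun n => (B ^ n).trace with hT
  have hS : ∀ m, coeff m (trS B) = T (m + 1) := fun m => by rw [trS, coeff_mk]
  set K : ℕ := K0 + 1 with hK
  have hTK : 0 < T K := by
    have h1 := hK0 K0 le_rfl
    rw [hS] at h1
    have h2 : 0 < l ^ (K0 + 1) / 2 := by positivity
    exact lt_of_lt_of_le h2 h1
  -- bound for the traces
  obtain ⟨M, hM0, hM⟩ : ∃ M : ℝ, 0 ≤ M ∧ ∀ m, m < K → T (m + 1) ≤ M := by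
    refine ⟨∑ m ∈ Finset.range K, T (m + 1), Finset.sum_nonneg fun m _ => htr _ (Nat.succ_pos m),
      fun m hm => ?_⟩
    exact Finset.single_le_sum (f := fun m => T (m + 1)) (fun m _ => htr _ (Nat.succ_pos m))
      (Finset.mem_range.2 hm)
  obtain ⟨q, hq⟩ := exists_nat_gt (8 * K * M * C1)
  have hq0 : 0 < q := by
    have h1 : (0 : ℝ) ≤ 8 * K * M * C1 := by positivity
    exact_mod_cast lt_of_le_of_lt h1 hq
  have hq0' : (0 : ℝ) < q := by exact_mod_cast hq0
  -- the index set and the colours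
  set κ := Fin (K + 1) × Fin q with hκ
  set col : Fin k ⊕ κ → ℕ := fun i => Sum.elim (fun _ => K)
    (fun p : κ => if 0 < (p.1 : ℕ) ∧ 0 < T p.1 then (p.1 : ℕ) else K) i with hcol
  have hcolpos : ∀ a, 0 < col a ∧ 0 < T (col a) := by
    intro a
    rcases a with a | p
    · exact ⟨Nat.succ_pos K0, hTK⟩
    · have h1 : col (Sum.inr p) = if 0 < (p.1 : ℕ) ∧ 0 < T p.1 then (p.1 : ℕ) else K := rfl
      rw [h1]
      split_ifs with h
      · exact h
      · exact ⟨Nat.succ_pos K0, hTK⟩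
  set Nn : ℕ → ℕ := fun m => (Finset.univ.filter fun a => col a ∣ m).card with hNn
  have hdvd : ∀ a m, col a ∣ m + 1 → 0 < T (m + 1) := by
    intro a m h
    obtain ⟨c, hc⟩ := h
    have hc0 : 0 < c := by
      rcases Nat.eq_zero_or_pos c with h0 | h0
      · rw [h0, mul_zero] at hc; omega
      · exact h0
    rw [hc]
    exact hmul _ _ (hcolpos a).1 hc0 (hcolpos a).2
  have hNq : ∀ m, m < K → 0 < T (m + 1) → q ≤ Nn (m + 1) := by
    intro m hm hTm
    have h1 : (Finset.univ.image fun j : Fin q =>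
        (Sum.inr (⟨m + 1, by omega⟩, j) : Fin k ⊕ κ)).card = q := by
      rw [Finset.card_image_of_injective, Finset.card_univ, Fintype.card_fin]
      intro i j hij
      have h2 := Sum.inr_injective hij
      exact (Prod.ext_iff.1 h2).2
    rw [← h1]
    refine Finset.card_le_card fun a ha => ?_
    rw [Finset.mem_image] at ha
    obtain ⟨j, _, rfl⟩ := ha
    rw [Finset.mem_filter]
    refine ⟨Finset.mem_univ _, ?_⟩
    have h3 : col (Sum.inr (⟨m + 1, by omega⟩, j)) = m + 1 := by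
      show (if 0 < (m + 1) ∧ 0 < T (m + 1) then (m + 1) else K) = m + 1
      rw [if_pos ⟨Nat.succ_pos m, hTm⟩]
    rw [h3]
  -- the diagonal data
  set xs : Fin k ⊕ κ → ℝ⟦X⟧ := fun a => PowerSeries.mk fun m => if m < K then
    (if col a ∣ m + 1 then T (m + 1) / Nn (m + 1) else 0) else 0 with hxs
  have hxsW : ∀ a, xs a ∈ W := fun a => finite_mem_W _
  have hxc : ∀ a m, coeff m (xs a) = if m < K then
    (if col a ∣ m + 1 then T (m + 1) / Nn (m + 1) else 0) else 0 := fun a m => by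
    rw [hxs]; simp only [coeff_mk]
  have hx0 : ∀ a m, 0 ≤ coeff m (xs a) := by
    intro a m
    rw [hxc]
    split_ifs
    · exact div_nonneg (htr _ (Nat.succ_pos m)) (Nat.cast_nonneg _)
    · exact le_rfl
    · exact le_rfl
  have hxξ : ∀ a m, coeff m (xs a) ≤ M / q := by
    intro a m
    rw [hxc]
    split_ifs with h1 h2
    · have h3 := hNq m h1 (hdvd a m h2)
      have h4 : (q : ℝ) ≤ Nn (m + 1) := by exact_mod_cast h3
      exact div_le_div₀ hM0 (hM m h1) hq0' h4
    · positivity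
    · positivity
  have hx : ∀ a m, K ≤ m → coeff m (xs a) = 0 := by
    intro a m hm
    rw [hxc, if_neg (by omega)]
  have hxpos : ∀ a m, m < K → col a ∣ m + 1 → 0 < coeff m (xs a) := by
    intro a m hm h
    rw [hxc, if_pos hm, if_pos h]
    have h1 := hNq m hm (hdvd a m h)
    have h2 : (0 : ℝ) < Nn (m + 1) := by
      have : 0 < Nn (m + 1) := by omega
      exact_mod_cast this
    exact div_pos (hdvd a m h) h2
  have hxsum : ∀ m, coeff m (∑ a, xs a) = if m < K then T (m + 1) else 0 := by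
    intro m
    rw [map_sum]
    by_cases hm : m < K
    · rw [if_pos hm]
      have h1 : ∀ a, coeff m (xs a) = if col a ∣ m + 1 then T (m + 1) / Nn (m + 1) else 0 := by
        intro a
        rw [hxc, if_pos hm]
      rw [Finset.sum_congr rfl fun a _ => h1 a, ← Finset.sum_filter, Finset.sum_const, nsmul_eq_mul]
      rcases (htr (m + 1) (Nat.succ_pos m)).lt_or_eq with h2 | h2
      · have h3 := hNq m hm h2
        have h4 : ((Nn (m + 1) : ℕ) : ℝ) ≠ 0 := by
          have : Nn (m + 1) ≠ 0 := by omega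
          exact_mod_cast this
        exact mul_div_cancel₀ _ h4
      · have h5 : T (m + 1) = 0 := h2.symm
        rw [h5, zero_div, mul_zero]
    · rw [if_neg hm]
      exact Finset.sum_eq_zero fun a _ => hx a m (by omega)
  set γ : ℝ⟦X⟧ := trS B - ∑ a, xs a with hγ
  have hγc : ∀ m, coeff m γ = if m < K then 0 else T (m + 1) := by
    intro m
    rw [hγ, map_sub, hS, hxsum]
    split_ifs <;> ring
  have hγ0 : ∀ m, 0 ≤ coeff m γ := by
    intro m
    rw [hγc]
    split_ifs
    · exact le_rfl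
    · exact htr _ (Nat.succ_pos m)
  have hγhigh : ∀ m, K ≤ m → l ^ (m + 1) / 2 ≤ coeff m γ := by
    intro m hm
    rw [hγc, if_neg (by omega), ← hS]
    exact hK0 m (by omega)
  have hEγ : ∀ m, coeff m (E (-γ)) ≤ C1 * l ^ m := by
    intro m
    have h1 : |coeff m (E (-γ))| ≤ coeff m (E (-trS B)) := by
      refine E_abs (fun n => ?_) m
      rw [map_neg, abs_neg, abs_of_nonneg (hγ0 n), map_neg, neg_neg, hγc, hS]
      split_ifs
      · exact htr _ (Nat.succ_pos n)
      · exact le_rfl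
    exact (le_abs_self _).trans (h1.trans (hC1 m))
  -- the constant
  haveI hne : Nonempty (Fin k ⊕ κ) := ⟨Sum.inr (⟨0, Nat.succ_pos K⟩, ⟨0, hq0⟩)⟩
  set c : ℝ := 1 / (Fintype.card (Fin k ⊕ κ) : ℝ) with hc
  have hcard : (0 : ℝ) < Fintype.card (Fin k ⊕ κ) := by exact_mod_cast Fintype.card_pos
  have hc1 : c * (Fintype.card (Fin k ⊕ κ) : ℝ) = 1 := by
    rw [hc]; field_simp
  have hc0 : 0 < c := by rw [hc]; positivity
  have hsmall : (K : ℝ) * (M / q * C1) ≤ 1 / 8 := by
    have h1 : (K : ℝ) * (M / q * C1) = (8 * K * M * C1) / q / 8 := by ring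
    rw [h1]
    have h2 : (8 * K * M * C1) / q ≤ 1 := by
      rw [div_le_one hq0']
      exact hq.le
    linarith
  -- the diagonal form
  obtain ⟨f, hfprod, hfgood⟩ := exists_good_diagonal (κ := κ) B
  set ff : Fin k ⊕ κ → Polynomial ℝ := Sum.elim f (fun _ : κ => (1 : Polynomial ℝ)) with hff
  set δ : W := pW (RB B).det with hδ
  have hprodff : ∏ i, ff i = (RB B).det := by
    rw [Fintype.prod_sum_type, ← hfprod]
    simp [hff]
  have hprodW : ∏ i, pW (ff i) = δ := by
    rw [← map_prod, hprodff]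
  -- the special index
  obtain ⟨j0, hj0⟩ : ∃ j0 : Fin k, (f j0).eval l⁻¹ = 0 := by
    have h1 : (∏ i, f i).eval l⁻¹ = 0 := by rw [hfprod]; exact heval
    rw [Polynomial.eval_prod, Finset.prod_eq_zero_iff] at h1
    obtain ⟨j, _, hj⟩ := h1
    exact ⟨j, hj⟩
  have hunit : ∀ i, i ≠ Sum.inl j0 → IsUnit (pW (ff i)) := by
    obtain ⟨g, hg⟩ := Polynomial.dvd_iff_isRoot.2 (show (f j0).IsRoot l⁻¹ from hj0)
    have h1 : pW (f j0) = (1 - l • XW) * pW (- Polynomial.C l⁻¹ * g) := by
      have h2 : f j0 = (1 - Polynomial.C l * Polynomial.X) * (- Polynomial.C l⁻¹ * g) := by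
        have h3 : (Polynomial.C l : Polynomial ℝ) * Polynomial.C l⁻¹ = 1 := by
          rw [← Polynomial.C_mul, mul_inv_cancel₀ hl0.ne', Polynomial.C_1]
        rw [hg]
        linear_combination (- Polynomial.X * g) * h3
      conv_lhs => rw [h2]
      rw [map_mul]
      congr 1
      refine Subtype.ext ?_
      rw [coe_pW, Subalgebra.coe_sub, Subalgebra.coe_one, Subalgebra.coe_smul, coe_XW,
        Polynomial.coe_sub, Polynomial.coe_one, Polynomial.coe_mul, Polynomial.coe_C,
        Polynomial.coe_X, smul_eq_C_mul]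
    have h4 : δ = (1 - l • XW) * u := by
      rw [hdu, sub_mul, one_mul, smul_mul_assoc]
    have h5 : (1 - l • XW : W) * (pW (- Polynomial.C l⁻¹ * g) *
        ∏ i ∈ Finset.univ.erase (Sum.inl j0), pW (ff i)) = (1 - l • XW : W) * u := by
      rw [← h4, ← hprodW, ← Finset.mul_prod_erase Finset.univ _ (Finset.mem_univ (Sum.inl j0)),
        ← mul_assoc, ← h1]
      rfl
    have h6 : (1 - l • XW : W) ≠ 0 := by
      intro h
      have h7 := congrArg (fun w : W => coeff 0 (w : ℝ⟦X⟧)) h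
      simp only [Subalgebra.coe_sub, Subalgebra.coe_one, Subalgebra.coe_smul, coe_XW, map_sub,
        coeff_zero_one, coeff_smul, coeff_zero_X, smul_zero, sub_zero, ZeroMemClass.coe_zero,
        map_zero] at h7
      exact one_ne_zero h7
    have h8 : pW (- Polynomial.C l⁻¹ * g) *
        ∏ i ∈ Finset.univ.erase (Sum.inl j0), pW (ff i) = u := mul_left_cancel₀ h6 h5
    intro i hi
    have h9 : IsUnit (∏ i ∈ Finset.univ.erase (Sum.inl j0), pW (ff i)) := by
      refine isUnit_of_mul_isUnit_right (x := pW (- Polynomial.C l⁻¹ * g)) ?_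
      rw [h8]; exact hu
    refine isUnit_of_dvd_unit (Finset.dvd_prod_of_mem (fun i => pW (ff i)) ?_) h9
    exact Finset.mem_erase.2 ⟨hi, Finset.mem_univ _⟩
  obtain ⟨Qh, hQcl, hQdet, hQc⟩ := target_pack (fun a => (⟨xs a, hxsW a⟩ : W)) δ (trS B)
    (by rw [hδ, coe_pW]; exact det_RB_eq B) ff hfgood (Sum.inl j0) hunit hprodW hc1
  have hQc' : cM Qh = Qhat xs γ c := hQc
  have hentry : ∀ a b m, coeff m ((Qh a b : W) : ℝ⟦X⟧) =
      coeff m (E (xs a) * ((if a = b then 1 else 0) + C c * (E γ - 1))) := by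
    intro a b m
    have h1 := congrFun (congrFun hQc' a) b
    have h2 : cM Qh a b = ((Qh a b : W) : ℝ⟦X⟧) := rfl
    rw [← h2, h1]
    rfl
  have hlowγ : ∀ m, m < K → coeff m γ = 0 := fun m hm => by rw [hγc, if_pos hm]
  have hEγ0 : ∀ m, m ≤ K → coeff m (E γ - 1) = 0 := by
    intro m hm
    rcases m with _ | m
    · rw [map_sub, coeff_zero_E, coeff_zero_one, sub_self]
    · rw [map_sub, E_low hlowγ m (by omega), coeff_one, if_neg (Nat.succ_ne_zero m), sub_zero]
  have hentry2 : ∀ a b m, m ≤ K → coeff m ((Qh a b : W) : ℝ⟦X⟧) =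
      if a = b then coeff m (E (xs a)) else 0 := by
    intro a b m hm
    rw [hentry, mul_add, map_add]
    have h1 : coeff m (E (xs a) * (C c * (E γ - 1))) = 0 := by
      rw [coeff_mul]
      refine Finset.sum_eq_zero fun p hp => ?_
      have hp' := Finset.HasAntidiagonal.mem_antidiagonal.1 hp
      rw [coeff_C_mul, hEγ0 p.2 (by omega), mul_zero, mul_zero]
    rw [h1, add_zero]
    split_ifs
    · rw [mul_one]
    · rw [mul_zero, map_zero]
  refine concl_of_target B (isUnit_iff_ne_zero.2 hB) (κ := κ) K col Qh hQcl hl hu ?_ ?_ ?_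
    (Yhat xs γ c) ?_ (c := c / 4) (by positivity) ?_ ?_
  · rw [hQdet]; exact hdu
  · intro a b
    rw [hentry2 a b 0 (Nat.zero_le K), coeff_zero_E]
  · intro a b m hm1 hm2 hab
    rw [hentry2 a b m hm2]
    split_ifs with h
    · refine E_supp (k := col a) (fun n hn => ?_) m (fun h2 => hab ⟨h, h2⟩)
      rw [hxc]
      split_ifs <;> rfl
    · rfl
  · rw [hQc']
    exact gen_target xs γ c hc1
  · intro a m hm h
    rw [coeff_Yhat_low hlowγ a a m hm, if_pos rfl]
    exact hxpos a m hm h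
  · intro a b m hm
    exact coeff_Yhat_high (K := K) (ξ := M / q) (C1 := C1) hl hc0 hc1 (by positivity) hx0 hxξ hx hγ0
      hγhigh hEγ hsmall a b m hm

end Pool.Agent.Lib.MP699d82
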