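import Mathlib
import Pool.Agent.Lib.MP_699d82_al.Assemble

set_option autoImplicit false
set_option linter.unusedSectionVars false

namespace Pool.Agent.Lib.MP699d82

open Matrix

lemma charpoly_smul' {k : ℕ} (B : Matrix (Fin k) (Fin k) ℝ) {t : ℝ} (ht : t ≠ 0) :
    (t • B).charpoly = B.charpoly.scaleRoots t := by
  refine Polynomial.funext fun x => ?_
  obtain ⟨y, rfl⟩ : ∃ y, x = t * y := ⟨t⁻¹ * x, by field_simp⟩
  rw [Polynomial.scaleRoots_eval_mul, Matrix.charpoly_natDegree_eq_dim, Matrix.eval_charpoly,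
    Matrix.eval_charpoly, ← Matrix.det_smul]
  congr 1
  refine Matrix.ext fun i j => ?_
  by_cases h : i = j
  · subst h
    simp [Matrix.scalar_apply]
    ring
  · simp [Matrix.scalar_apply, Matrix.diagonal_apply_ne _ h]

lemma roots_smul {k : ℕ} (B : Matrix (Fin k) (Fin k) ℝ) {t : ℝ} (ht : t ≠ 0) :
    ((t • B).charpoly.map (algebraMap ℝ ℂ)).roots =
      (B.charpoly.map (algebraMap ℝ ℂ)).roots.map ((t : ℂ) * ·) := by
  rw [charpoly_smul' B ht, Polynomial.map_scaleRoots _ _ _ (by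
    rw [B.charpoly_monic.leadingCoeff, map_one]; exact one_ne_zero)]
  have h : IsUnit ((algebraMap ℝ ℂ) t) := by
    rw [isUnit_iff_ne_zero]
    exact (map_ne_zero_iff _ (algebraMap ℝ ℂ).injective).2 ht
  rw [Polynomial.roots_scaleRoots _ h]
  rfl

lemma exists_bound (s : Multiset ℂ) {r : ℝ} (hr : 0 < r) (h : ∀ z ∈ s, z ≠ (r : ℂ) → ‖z‖ < r) :
    ∃ ρ : ℝ, 0 < ρ ∧ ρ < r ∧ ∀ z ∈ s, z ≠ (r : ℂ) → ‖z‖ ≤ ρ := by
  induction s using Multiset.induction_on with
  | empty => exact ⟨r / 2, by positivity, by linarith, fun z hz => absurd hz (Multiset.notMem_zero z)⟩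
  | cons a s ih =>
    obtain ⟨ρ, h1, h2, h3⟩ := ih fun z hz => h z (Multiset.mem_cons_of_mem hz)
    by_cases ha : a = (r : ℂ)
    · refine ⟨ρ, h1, h2, fun z hz hzr => ?_⟩
      rcases Multiset.mem_cons.1 hz with rfl | hz
      · exact absurd ha hzr
      · exact h3 z hz hzr
    · have h4 := h a (Multiset.mem_cons_self a s) ha
      refine ⟨max ρ ‖a‖, lt_max_of_lt_left h1, max_lt h2 h4, fun z hz hzr => ?_⟩
      rcases Multiset.mem_cons.1 hz with rfl | hz
      · exact le_max_right _ _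
      · exact (h3 z hz hzr).trans (le_max_left _ _)

lemma Concl.of_smul {k : ℕ} {B : Matrix (Fin k) (Fin k) ℝ} {t : ℝ} (ht : 0 < t)
    (h : Concl (t • B)) : Concl B := by
  obtain ⟨p, N, A, P, Q, hN, hA, ⟨m, hm, hAm⟩, hPQ, hPAQ⟩ := h
  refine ⟨p, t⁻¹ • N, t⁻¹ • A, P, Q, hN.smul _, fun i j => ?_, ⟨m, hm, fun i j => ?_⟩, hPQ, ?_⟩
  · rw [Matrix.smul_apply, smul_eq_mul]
    exact mul_nonneg (by positivity) (hA i j)
  · rw [smul_pow, Matrix.smul_apply, smul_eq_mul]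
    exact mul_pos (by positivity) (hAm i j)
  · rw [Matrix.mul_smul, Matrix.smul_mul, hPAQ, Matrix.fromBlocks_smul, smul_zero, smul_zero,
      smul_smul, inv_mul_cancel₀ ht.ne', one_smul]

theorem main_result {k : ℕ} (B : Matrix (Fin k) (Fin k) ℝ) (hB : B.det ≠ 0)
    (hspec : ∃ r : ℝ, 0 < r ∧
        (B.charpoly.map (algebraMap ℝ ℂ)).roots.count (r : ℂ) = 1 ∧
        ∀ z ∈ (B.charpoly.map (algebraMap ℝ ℂ)).roots, z ≠ (r : ℂ) → ‖z‖ < r)
    (htr : ∀ n : ℕ, 0 < n → 0 ≤ (B ^ n).trace)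
    (hmul : ∀ n m : ℕ, 0 < n → 0 < m → 0 < (B ^ n).trace → 0 < (B ^ (n * m)).trace) :
    Concl B := by
  obtain ⟨r, hr, hcount, hlt⟩ := hspec
  obtain ⟨ρ, hρ0, hρr, hρ⟩ := exists_bound _ hr hlt
  set t : ℝ := 2 / (r + ρ) with ht
  have ht0 : 0 < t := by rw [ht]; positivity
  have htc : (t : ℂ) ≠ 0 := by exact_mod_cast ht0.ne'
  have hinj : Function.Injective ((t : ℂ) * ·) := fun a b hab => mul_left_cancel₀ htc hab
  have h1 : 1 < t * r := by
    rw [ht, div_mul_eq_mul_div, one_lt_div (by positivity)]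
    linarith
  refine Concl.of_smul ht0 (main_scaled (t • B) ?_ (l := t * r) h1 ?_ ?_ ?_ ?_)
  · rw [Matrix.det_smul]
    exact mul_ne_zero (pow_ne_zero _ ht0.ne') hB
  · rw [roots_smul B ht0.ne', Complex.ofReal_mul, Multiset.count_map_eq_count' _ _ hinj]
    exact hcount
  · intro z hz hzr
    rw [roots_smul B ht0.ne', Multiset.mem_map] at hz
    obtain ⟨w, hw, rfl⟩ := hz
    have hwr : w ≠ (r : ℂ) := by
      rintro rfl
      exact hzr (by rw [Complex.ofReal_mul])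
    have h2 := hρ w hw hwr
    have h3 : ‖(t : ℂ) * w‖ = t * ‖w‖ := by
      rw [norm_mul, Complex.norm_real, Real.norm_of_nonneg ht0.le]
    rw [h3]
    calc t * ‖w‖ ≤ t * ρ := mul_le_mul_of_nonneg_left h2 ht0.le
      _ < 1 := by
        rw [ht, div_mul_eq_mul_div, div_lt_one (by positivity)]
        linarith
  · intro n hn
    rw [smul_pow, Matrix.trace_smul, smul_eq_mul]
    exact mul_nonneg (by positivity) (htr n hn)
  · intro n m hn hm h
    rw [smul_pow, Matrix.trace_smul, smul_eq_mul] at h ⊢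
    have h4 : 0 < (B ^ n).trace := pos_of_mul_pos_right h (by positivity)
    exact mul_pos (by positivity) (hmul n m hn hm h4)

end Pool.Agent.Lib.MP699d82
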